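import Pool.Agent.Helper69.RM.St

/-! Project RM, module APC: counting in a progression. -/

set_option autoImplicit false

namespace Pool.Agent.Helper69.RM

open Finset

private theorem crt_APC (q c : ℕ) (T : Finset ℕ) (β : ℕ → ℕ)
    (hT : ∀ s ∈ T, s.Prime ∧ ¬ s ∣ q) :
    ∃ r : ℕ, ∀ m : ℕ, (m ≡ c [MOD q] ∧ ∀ s ∈ T, m ≡ β s [MOD s]) ↔ m ≡ r [MOD (q * ∏ s ∈ T, s)] := by
  classical
  induction T using Finset.induction_on with
  | empty => exact ⟨c, fun m => by simp⟩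
  | insert s T hs ih =>
    obtain ⟨r, hr⟩ := ih fun t ht => hT t (mem_insert_of_mem ht)
    obtain ⟨hsp, hsq⟩ := hT s (mem_insert_self s T)
    have hco : Nat.Coprime (q * ∏ t ∈ T, t) s := by
      refine Nat.Coprime.mul_left ((Nat.Prime.coprime_iff_not_dvd hsp).2 hsq).symm ?_
      refine Nat.Coprime.prod_left fun t ht => ?_
      refine (Nat.coprime_primes (hT t (mem_insert_of_mem ht)).1 hsp).2 ?_
      rintro rfl
      exact hs ht
    obtain ⟨k, hk1, hk2⟩ := Nat.chineseRemainder hco r (β s)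
    refine ⟨k, fun m => ?_⟩
    rw [prod_insert hs, show q * (s * ∏ t ∈ T, t) = (q * ∏ t ∈ T, t) * s by ring,
      ← Nat.modEq_and_modEq_iff_modEq_mul hco]
    constructor
    · rintro ⟨h1, h2⟩
      exact ⟨((hr m).1 ⟨h1, fun t ht => h2 t (mem_insert_of_mem ht)⟩).trans hk1.symm,
        (h2 s (mem_insert_self s T)).trans hk2.symm⟩
    · rintro ⟨h1, h2⟩
      obtain ⟨h3, h4⟩ := (hr m).2 (h1.trans hk1)
      refine ⟨h3, fun t ht => ?_⟩
      rcases mem_insert.1 ht with rfl | ht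
      · exact h2.trans hk2
      · exact h4 t ht

/-- module APC -/
theorem hAPC : StAPC := by
  intro y q c T β hq hT
  obtain ⟨r, hr⟩ := crt_APC q c T β hT
  have hMpos : 0 < q * ∏ s ∈ T, s :=
    Nat.mul_pos (by omega) (prod_pos fun s hs => (hT s hs).1.pos)
  have hset : (AP y q c).filter (fun m => ∀ s ∈ T, m ≡ β s [MOD s]) =
      (Ioc 0 y).filter (fun m => m ≡ r [MOD (q * ∏ s ∈ T, s)]) := by
    ext m
    rw [mem_filter, mem_AP, mem_filter, mem_Ioc, ← hr m]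
    constructor
    · rintro ⟨⟨h1, h2, h3⟩, h4⟩
      exact ⟨⟨by omega, h2⟩, h3, h4⟩
    · rintro ⟨⟨h1, h2⟩, h3, h4⟩
      exact ⟨⟨by omega, h2, h3⟩, h4⟩
  rw [hset]
  have h1 := Nat.Ioc_filter_modEq_card 0 y hMpos r
  set M := q * ∏ s ∈ T, s with hM
  set n := ((Ioc 0 y).filter (fun m => m ≡ r [MOD M])).card with hn
  have hMq : (0 : ℚ) < M := by exact_mod_cast hMpos
  set A : ℚ := ((y : ℚ) - r) / M with hA
  set B : ℚ := (((0 : ℕ) : ℚ) - r) / M with hB
  have hAB : A - B = (y : ℚ) / M := by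
    rw [hA, hB]
    push_cast
    field_simp
    ring
  have a1 := Int.floor_le A
  have a2 := Int.lt_floor_add_one A
  have b1 := Int.floor_le B
  have b2 := Int.lt_floor_add_one B
  have hy : (0 : ℚ) ≤ (y : ℚ) / M := by positivity
  have hnq : (n : ℚ) = max ((⌊A⌋ : ℚ) - ⌊B⌋) 0 := by
    have : ((n : ℤ) : ℚ) = ((max (⌊A⌋ - ⌊B⌋) 0 : ℤ) : ℚ) := by rw [h1]
    push_cast at this
    exact this
  have h2 : |(n : ℚ) - (y : ℚ) / M| ≤ 1 := by
    rw [abs_le, hnq]
    constructor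
    · have := le_max_left ((⌊A⌋ : ℚ) - ⌊B⌋) 0
      linarith
    · rw [sub_le_iff_le_add]
      exact max_le (by linarith) (by linarith)
  have h3 : (((|(n : ℚ) - (y : ℚ) / M| : ℚ)) : ℝ) ≤ ((1 : ℚ) : ℝ) := by exact_mod_cast h2
  rw [hM] at h3
  push_cast at h3
  exact h3

end Pool.Agent.Helper69.RM
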