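import Pool.Agent.Helper69.RM.St

set_option autoImplicit false

namespace Pool.Agent.Helper69.RM

open Finset

/-- `a^n/n! ≤ exp(-n)` for `8 a ≤ n` -/
private theorem fact_BA {a : ℝ} (ha : 0 ≤ a) {n : ℕ} (hn : 8 * a ≤ n) :
    a ^ n / (n.factorial : ℝ) ≤ Real.exp (-n) := by
  have h1 := Real.pow_div_factorial_le_exp (8 * a) (by linarith) n
  rw [mul_pow, mul_div_assoc] at h1
  have h2 : Real.exp 2 ≤ 8 := by
    have h3 : Real.exp 1 ≤ 2.7182818286 := Real.exp_one_lt_d9.le
    have h4 : Real.exp 2 = Real.exp 1 * Real.exp 1 := by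
      rw [← Real.exp_add]
      norm_num
    rw [h4]
    have h5 : 0 < Real.exp 1 := Real.exp_pos 1
    nlinarith
  have h3 : Real.exp (2 * n) ≤ 8 ^ n := by
    have : Real.exp (2 * n) = (Real.exp 2) ^ n := by
      rw [← Real.exp_nat_mul]
      congr 1
      ring
    rw [this]
    exact pow_le_pow_left₀ (Real.exp_pos 2).le h2 n
  have h4 : 0 ≤ a ^ n / (n.factorial : ℝ) := by positivity
  have h5 : Real.exp (2 * n) * (a ^ n / (n.factorial : ℝ)) ≤ Real.exp n := by
    calc Real.exp (2 * n) * (a ^ n / (n.factorial : ℝ)) ≤ 8 ^ n * (a ^ n / (n.factorial : ℝ)) :=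
          mul_le_mul_of_nonneg_right h3 h4
      _ ≤ Real.exp (8 * a) := h1
      _ ≤ Real.exp n := Real.exp_le_exp.mpr hn
  have h6 : Real.exp n = Real.exp (2 * n) * Real.exp (-n) := by
    rw [← Real.exp_add]
    congr 1
    ring
  rw [h6] at h5
  exact le_of_mul_le_mul_left h5 (Real.exp_pos _)

private theorem SS_mono_BA {P Q : Finset ℕ} (h : P ⊆ Q) : SS P ≤ SS Q := by
  unfold SS
  exact sum_le_sum_of_subset_of_nonneg h (fun s _ _ => by positivity)

private theorem PP_mono_BA {a b b' : ℝ} (h : b ≤ b') : PP a b ⊆ PP a b' := by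
  unfold PP
  refine filter_subset_filter _ (Ioc_subset_Ioc_right (Nat.floor_mono h))

private theorem card_PP_BA {w : ℝ} (hw : 2 ≤ w) : ((PP 1 w).card : ℝ) + 1 ≤ w := by
  have h1 : (PP 1 w).card ≤ ⌊w⌋₊ - 1 := by
    unfold PP
    refine (card_filter_le _ _).trans ?_
    rw [Nat.card_Ioc, Nat.floor_one]
  have h2 : 2 ≤ ⌊w⌋₊ := Nat.le_floor (by exact_mod_cast hw)
  have h3 : (PP 1 w).card + 1 ≤ ⌊w⌋₊ := by omega
  calc ((PP 1 w).card : ℝ) + 1 = (((PP 1 w).card + 1 : ℕ) : ℝ) := by push_cast; ring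
    _ ≤ (⌊w⌋₊ : ℝ) := by exact_mod_cast h3
    _ ≤ w := Nat.floor_le (by linarith)

private theorem r1_BA {l C1 : ℝ} (hC : 0 < C1) (h1 : 1 ≤ l) (h2 : 19 + 16 * C1 ≤ l) :
    8 * (l + C1) + 1 ≤ 1 / 2 * l ^ 2 := by
  have e1 : l * (19 + 16 * C1) ≤ l * l := mul_le_mul_of_nonneg_left h2 (by linarith)
  have e2 : C1 * 1 ≤ C1 * l := mul_le_mul_of_nonneg_left h1 hC.le
  nlinarith

private theorem r2_BA {h t M : ℝ} (ht : 0 < t) (h1 : 16 ≤ M * t) (h2 : M + 1 ≤ h) : 16 ≤ h * t := by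
  have := mul_le_mul_of_nonneg_right (show M ≤ h by linarith) ht.le
  linarith

private theorem r3_BA {h t : ℝ} (hh : 1 ≤ h) (h1 : 16 ≤ h * t) :
    1 / h ^ 2 ≤ t / (16 * h) := by
  rw [div_le_div_iff₀ (by positivity) (by positivity)]
  have : h * 16 ≤ h * (h * t) := mul_le_mul_of_nonneg_left h1 (by linarith)
  nlinarith

theorem hBA (hBR : StBR) (hVM : StVM) (hSL : StSL) : StBA := by
  intro η hη
  obtain ⟨c0, C0, hc0, hC0, hV⟩ := hVM
  obtain ⟨C1, hC1, hS⟩ := hSL
  obtain ⟨M, hM1, hM2, hM3⟩ : ∃ M : ℝ, 1 ≤ M ∧ 19 + 16 * C1 ≤ M ∧ 16 / (η * c0) ≤ M :=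
    ⟨max (max 1 (19 + 16 * C1)) (16 / (η * c0)), le_max_of_le_left (le_max_left _ _),
      le_max_of_le_left (le_max_right _ _), le_max_right _ _⟩
  refine ⟨Real.exp (Real.exp M), ?_, ?_⟩
  · exact Real.one_le_exp (Real.exp_pos _).le
  intro y q c β w hq hw hnd hH hlog
  obtain ⟨H, hHdef⟩ : ∃ H : ℝ, H = (y : ℝ) / q := ⟨_, rfl⟩
  rw [← hHdef] at hH hlog ⊢
  obtain ⟨h, hhdef⟩ : ∃ h : ℝ, h = Real.log H := ⟨_, rfl⟩
  obtain ⟨l, hldef⟩ : ∃ l : ℝ, l = LL H := ⟨_, rfl⟩
  have hHpos : 0 < H := lt_of_lt_of_le (Real.exp_pos _) hH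
  have hh1 : Real.exp M ≤ h := by
    rw [hhdef]
    exact (Real.le_log_iff_exp_le hHpos).mpr hH
  have hhpos : 0 < h := lt_of_lt_of_le (Real.exp_pos _) hh1
  have hl1 : M ≤ l := by
    rw [hldef]
    unfold LL
    rw [← hhdef]
    exact (Real.le_log_iff_exp_le hhpos).mpr hh1
  have hhl : Real.exp l = h := by
    rw [hldef]
    unfold LL
    rw [← hhdef]
    exact Real.exp_log hhpos
  have hHh : Real.exp h = H := by
    rw [hhdef]
    exact Real.exp_log hHpos
  rw [← hldef, ← hhdef] at hlog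
  have hlpos : 0 < l := by linarith
  have hlw : 0 < Real.log w := Real.log_pos (by linarith)
  have hlwh : Real.log w ≤ h / l ^ 2 := by
    rw [le_div_iff₀ (by positivity)]
    exact hlog
  have hl2 : 1 ≤ l ^ 2 := one_le_pow₀ (by linarith)
  have hlwh' : Real.log w ≤ h := hlwh.trans (div_le_self hhpos.le hl2)
  -- bound for S
  have hSbd : SS (PP 1 w) ≤ l + C1 := by
    have h1 : SS (PP 1 w) ≤ SS (PP 1 (max w 3)) := SS_mono_BA (PP_mono_BA (le_max_left _ _))
    have h2 := hS (max w 3) (le_max_right _ _)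
    have h3 : LL (max w 3) ≤ l := by
      unfold LL
      rcases le_total w 3 with h4 | h4
      · rw [max_eq_right h4]
        have h5 : Real.log 3 ≤ 2 := by
          rw [Real.log_le_iff_le_exp (by norm_num)]
          have := Real.add_one_le_exp (2 : ℝ)
          linarith
        have h6 : 0 < Real.log 3 := Real.log_pos (by norm_num)
        have h7 : Real.log (Real.log 3) ≤ Real.log 3 - 1 := Real.log_le_sub_one_of_pos h6
        linarith
      · rw [max_eq_left h4, hldef]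
        unfold LL
        rw [← hhdef]
        exact Real.log_le_log hlw hlwh'
    linarith
  have hS0 : 0 ≤ SS (PP 1 w) := by
    unfold SS
    exact sum_nonneg (fun s _ => by positivity)
  obtain ⟨a, hadef⟩ : ∃ a : ℝ, a = l + C1 := ⟨_, rfl⟩
  rw [← hadef] at hSbd
  have ha0 : 0 < a := by rw [hadef]; linarith
  obtain ⟨r, hr⟩ : ∃ r : ℕ, r = ⌈8 * a⌉₊ := ⟨_, rfl⟩
  have hr1 : 8 * a ≤ r := by rw [hr]; exact Nat.le_ceil _
  have hr2 : (r : ℝ) < 8 * a + 1 := by rw [hr]; exact Nat.ceil_lt_add_one (by linarith)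
  have hr0 : 1 ≤ r := by
    have : (0 : ℝ) < r := by linarith
    exact_mod_cast this
  have hmain := hBR y q c (PP 1 w) β r hq (fun s hs => ⟨(mem_filter.mp hs).2, hnd s hs⟩) hr0
  rw [← hHdef] at hmain
  refine hmain.trans ?_
  -- factorial terms
  have hE : ∀ n : ℕ, (r : ℝ) ≤ n → SS (PP 1 w) ^ n / (n.factorial : ℝ) ≤ Real.exp (-(8 * l)) := by
    intro n hn
    calc SS (PP 1 w) ^ n / (n.factorial : ℝ) ≤ a ^ n / (n.factorial : ℝ) :=
          div_le_div_of_nonneg_right (pow_le_pow_left₀ hS0 hSbd n) (by positivity)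
      _ ≤ Real.exp (-n) := fact_BA ha0.le (by linarith)
      _ ≤ Real.exp (-(8 * l)) := Real.exp_le_exp.mpr (by
          have : a = l + C1 := hadef
          linarith)
  have h1 := hE r le_rfl
  have h2 := hE (r + 1) (by push_cast; linarith)
  -- lower bound of the main term
  have hVlow : c0 / h ≤ VV (PP 1 w) := by
    refine le_trans ?_ (hV w hw).1
    exact div_le_div_of_nonneg_left hc0.le hlw hlwh'
  have hηc : 0 < η * c0 := mul_pos hη hc0
  have hM3' : 16 ≤ M * (η * c0) := by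
    rw [div_le_iff₀ hηc] at hM3
    exact hM3
  have hhM : M + 1 ≤ h := (Real.add_one_le_exp M).trans hh1
  have h16 : 16 ≤ h * (η * c0) := r2_BA hηc hM3' hhM
  have hh2 : 1 ≤ h := by linarith
  -- exp(-8 l) = h^(-8)
  have hexp8 : Real.exp (-(8 * l)) = 1 / h ^ 8 := by
    rw [Real.exp_neg, one_div, ← hhl, ← Real.exp_nat_mul]
    norm_num
  have hfirst : Real.exp (-(8 * l)) + Real.exp (-(8 * l)) ≤ η / 2 * (c0 / h) := by
    rw [hexp8]
    have hh8 : h ^ 2 ≤ h ^ 8 := pow_le_pow_right₀ hh2 (by norm_num)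
    have h3 : 1 / h ^ 8 ≤ 1 / h ^ 2 := one_div_le_one_div_of_le (by positivity) hh8
    have h4 : 1 / h ^ 2 ≤ η * c0 / (16 * h) := r3_BA hh2 h16
    have h5 : η / 2 * (c0 / h) = 8 * (η * c0 / (16 * h)) := by
      field_simp
      ring
    have h6 : 0 < η * c0 / (16 * h) := by positivity
    rw [h5]
    linarith
  -- the second term
  have hsecond : (((PP 1 w).card : ℝ) + 1) ^ r ≤ η / 2 * (c0 / h) * H := by
    have h3 : (((PP 1 w).card : ℝ) + 1) ^ r ≤ w ^ r :=
      pow_le_pow_left₀ (by positivity) (card_PP_BA hw) r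
    have h4 : w ^ r = Real.exp (r * Real.log w) := by
      rw [Real.exp_nat_mul, Real.exp_log (by linarith)]
    have h5 : (r : ℝ) * Real.log w ≤ h / 2 := by
      calc (r : ℝ) * Real.log w ≤ (8 * a + 1) * (h / l ^ 2) :=
            mul_le_mul hr2.le hlwh hlw.le (by linarith)
        _ = (8 * a + 1) / l ^ 2 * h := by ring
        _ ≤ 1 / 2 * h := by
            refine mul_le_mul_of_nonneg_right ?_ hhpos.le
            rw [div_le_iff₀ (by positivity), hadef]
            exact r1_BA hC1 (by linarith) (by linarith)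
        _ = h / 2 := by ring
    have h6 : Real.exp (h / 2) ≤ η / 2 * (c0 / h) * H := by
      have h7 : H = Real.exp (h / 2) * Real.exp (h / 2) := by
        rw [← Real.exp_add, ← hHh]
        congr 1
        ring
      have h8 : (h / 2) ^ 2 / 2 ≤ Real.exp (h / 2) := by
        have := Real.quadratic_le_exp_of_nonneg (show 0 ≤ h / 2 by linarith)
        linarith
      have h9 : 1 ≤ η / 2 * (c0 / h) * Real.exp (h / 2) := by
        have h10 : η / 2 * (c0 / h) * ((h / 2) ^ 2 / 2) ≤ η / 2 * (c0 / h) * Real.exp (h / 2) :=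
          mul_le_mul_of_nonneg_left h8 (by positivity)
        have h11 : η / 2 * (c0 / h) * ((h / 2) ^ 2 / 2) = h * (η * c0) / 16 := by
          field_simp
          ring
        rw [h11] at h10
        linarith
      calc Real.exp (h / 2) = 1 * Real.exp (h / 2) := (one_mul _).symm
        _ ≤ (η / 2 * (c0 / h) * Real.exp (h / 2)) * Real.exp (h / 2) :=
            mul_le_mul_of_nonneg_right h9 (Real.exp_pos _).le
        _ = η / 2 * (c0 / h) * H := by rw [h7]; ring
    calc (((PP 1 w).card : ℝ) + 1) ^ r ≤ w ^ r := h3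
      _ = Real.exp (r * Real.log w) := h4
      _ ≤ Real.exp (h / 2) := Real.exp_le_exp.mpr h5
      _ ≤ _ := h6
  have hfin : η / 2 * (c0 / h) * H ≤ η / 2 * VV (PP 1 w) * H := by
    refine mul_le_mul_of_nonneg_right ?_ hHpos.le
    exact mul_le_mul_of_nonneg_left hVlow (by linarith)
  calc H * (SS (PP 1 w) ^ r / (r.factorial : ℝ) + SS (PP 1 w) ^ (r + 1) / ((r + 1).factorial : ℝ)) +
        (((PP 1 w).card : ℝ) + 1) ^ r
      ≤ H * (Real.exp (-(8 * l)) + Real.exp (-(8 * l))) + η / 2 * (c0 / h) * H :=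
        add_le_add (mul_le_mul_of_nonneg_left (add_le_add h1 h2) hHpos.le) hsecond
    _ ≤ H * (η / 2 * (c0 / h)) + η / 2 * (c0 / h) * H := by
        have := mul_le_mul_of_nonneg_left hfirst hHpos.le
        linarith
    _ ≤ η * (VV (PP 1 w) * H) := by
        have : H * (η / 2 * (c0 / h)) = η / 2 * (c0 / h) * H := by ring
        rw [this]
        have h3 : η * (VV (PP 1 w) * H) = η / 2 * VV (PP 1 w) * H + η / 2 * VV (PP 1 w) * H := by ring
        rw [h3]
        linarith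

end Pool.Agent.Helper69.RM
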