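import Pool.Agent.Helper69.RM.St

set_option autoImplicit false

/-! Project RM, module BON: Bonferroni inequalities for a sifted set. -/

namespace Pool.Agent.Helper69.RM

open Finset

/-- alternating sum of binomial coefficients up to `r` -/
private theorem alt_bon (k r : ℕ) :
    ∑ j ∈ range (r + 1), (-1 : ℝ) ^ j * ((k + 1).choose j : ℝ) = (-1 : ℝ) ^ r * (k.choose r : ℝ) := by
  induction r with
  | zero => simp
  | succ r ih =>
    rw [sum_range_succ, ih, Nat.choose_succ_succ k r]
    push_cast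
    ring

/-- the contribution of one element -/
private theorem contr_bon (K : Finset ℕ) (r : ℕ) :
    ∑ T ∈ K.powerset.filter (fun T => T.card ≤ r), (-1 : ℝ) ^ T.card =
      ∑ j ∈ range (r + 1), (-1 : ℝ) ^ j * (K.card.choose j : ℝ) := by
  classical
  have h1 : K.powerset.filter (fun T => T.card ≤ r) =
      (range (r + 1)).biUnion (fun j => K.powersetCard j) := by
    ext T
    rw [mem_filter, mem_powerset, mem_biUnion]
    constructor
    · rintro ⟨h1, h2⟩
      exact ⟨T.card, mem_range.mpr (by omega), mem_powersetCard.mpr ⟨h1, rfl⟩⟩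
    · rintro ⟨j, hj, hT⟩
      rw [mem_powersetCard] at hT
      rw [mem_range] at hj
      exact ⟨hT.1, by omega⟩
  rw [h1, sum_biUnion]
  · refine sum_congr rfl fun j _ => ?_
    have h2 : ∀ T ∈ K.powersetCard j, (-1 : ℝ) ^ T.card = (-1) ^ j := by
      intro T hT
      rw [(mem_powersetCard.mp hT).2]
    rw [sum_congr rfl h2, sum_const, card_powersetCard, nsmul_eq_mul, mul_comm]
  · intro i _ j _ hij
    rw [Function.onFun, disjoint_left]
    intro T hT hT'
    rw [mem_powersetCard] at hT hT'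
    exact hij (hT.2.symm.trans hT'.2)

/-- exchange of the sums -/
private theorem ff_bon (A D : Finset ℕ) (β : ℕ → ℕ) (r : ℕ) :
    FF A D β r = ∑ m ∈ A, ∑ T ∈ (D.filter (fun s => m ≡ β s [MOD s])).powerset.filter
      (fun T => T.card ≤ r), (-1 : ℝ) ^ T.card := by
  unfold FF
  have h1 : ∀ T ∈ D.powerset.filter (fun T => T.card ≤ r),
      (-1 : ℝ) ^ T.card * ((A.filter (fun m => ∀ s ∈ T, m ≡ β s [MOD s])).card : ℝ) =
      ∑ m ∈ A, if (∀ s ∈ T, m ≡ β s [MOD s]) then (-1 : ℝ) ^ T.card else 0 := by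
    intro T _
    rw [← sum_filter, sum_const, nsmul_eq_mul, mul_comm]
  rw [sum_congr rfl h1, sum_comm]
  refine sum_congr rfl fun m _ => ?_
  rw [← sum_filter]
  refine sum_congr ?_ fun _ _ => rfl
  ext T
  simp only [mem_filter, mem_powerset]
  constructor
  · rintro ⟨⟨h1, h2⟩, h3⟩
    exact ⟨fun s hs => mem_filter.mpr ⟨h1 hs, h3 s hs⟩, h2⟩
  · rintro ⟨h1, h2⟩
    exact ⟨⟨fun s hs => (mem_filter.mp (h1 hs)).1, h2⟩, fun s hs => (mem_filter.mp (h1 hs)).2⟩

private theorem surv_bon (A D : Finset ℕ) (β : ℕ → ℕ) :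
    ((surv D β A).card : ℝ) = ∑ m ∈ A,
      if (D.filter (fun s => m ≡ β s [MOD s])).card = 0 then (1 : ℝ) else 0 := by
  rw [← sum_filter, sum_const, nsmul_eq_mul, mul_one]
  congr 1
  unfold surv
  congr 1
  refine filter_congr fun m _ => ?_
  rw [card_eq_zero, filter_eq_empty_iff]

/-- Bonferroni inequalities -/
theorem hBON : StBON := by
  intro A D β r
  rw [ff_bon, surv_bon]
  constructor
  · intro hr
    refine sum_le_sum fun m _ => ?_
    rw [contr_bon]
    rcases Nat.eq_zero_or_pos (D.filter (fun s => m ≡ β s [MOD s])).card with h | h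
    · rw [if_pos h, h]
      rw [sum_range_succ']
      simp
    · rw [if_neg (by omega)]
      obtain ⟨k, hk⟩ : ∃ k, (D.filter (fun s => m ≡ β s [MOD s])).card = k + 1 :=
        ⟨_, (Nat.sub_add_cancel h).symm⟩
      rw [hk, alt_bon, hr.neg_one_pow, one_mul]
      positivity
  · intro hr
    refine sum_le_sum fun m _ => ?_
    rw [contr_bon]
    rcases Nat.eq_zero_or_pos (D.filter (fun s => m ≡ β s [MOD s])).card with h | h
    · rw [if_pos h, h]
      rw [sum_range_succ']
      simp
    · rw [if_neg (by omega)]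
      obtain ⟨k, hk⟩ : ∃ k, (D.filter (fun s => m ≡ β s [MOD s])).card = k + 1 :=
        ⟨_, (Nat.sub_add_cancel h).symm⟩
      rw [hk, alt_bon, hr.neg_one_pow]
      have : (0 : ℝ) ≤ (k.choose r : ℝ) := Nat.cast_nonneg _
      linarith

end Pool.Agent.Helper69.RM
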