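import Pool.Agent.Helper69.RM.St

set_option autoImplicit false

namespace Pool.Agent.Helper69.RM

open Finset

private theorem card_small_BR (D : Finset ℕ) (r : ℕ) :
    (D.powerset.filter (fun T => T.card ≤ r)).card ≤ (D.card + 1) ^ r := by
  have h1 : (D.powerset.filter (fun T => T.card ≤ r)) ⊆
      (range (r + 1)).biUnion (fun j => powersetCard j D) := by
    intro T hT
    rw [mem_filter, mem_powerset] at hT
    rw [mem_biUnion]
    exact ⟨T.card, mem_range.2 (by omega), mem_powersetCard.2 ⟨hT.1, rfl⟩⟩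
  refine (card_le_card h1).trans (card_biUnion_le.trans ?_)
  rw [add_pow]
  refine sum_le_sum fun j hj => ?_
  rw [card_powersetCard, one_pow, mul_one]
  have hj' : j ≤ r := by
    have := mem_range.1 hj
    omega
  have h2 : 1 ≤ r.choose j := Nat.choose_pos hj'
  calc D.card.choose j ≤ D.card ^ j := Nat.choose_le_pow _ _
    _ = D.card ^ j * 1 := (mul_one _).symm
    _ ≤ D.card ^ j * r.choose j := Nat.mul_le_mul_left _ h2

theorem hBR (hAPC : StAPC) (hBON : StBON) (hTRU : StTRU) : StBR := by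
  intro y q c D β r hq hD hr
  set A := AP y q c with hA
  set H : ℝ := (y : ℝ) / q with hH
  have hqR : (0 : ℝ) < q := by exact_mod_cast hq
  have hH0 : 0 ≤ H := by positivity
  have hSS0 : 0 ≤ SS D := by
    unfold SS
    exact sum_nonneg fun s _ => by positivity
  have hmain : ∀ r' : ℕ, |FF A D β r' - H * VV D| ≤
      H * (SS D ^ (r' + 1) / ((r' + 1).factorial : ℝ)) + ((D.card : ℝ) + 1) ^ r' := by
    intro r'
    set F : ℝ := ∑ T ∈ D.powerset.filter (fun T => T.card ≤ r'),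
      (-1 : ℝ) ^ T.card * ∏ s ∈ T, (1 / (s : ℝ)) with hF
    have h1 : |FF A D β r' - H * F| ≤ ((D.card : ℝ) + 1) ^ r' := by
      unfold FF
      rw [hF, mul_sum, ← sum_sub_distrib]
      refine (abs_sum_le_sum_abs _ _).trans ?_
      have h2 : ∀ T ∈ D.powerset.filter (fun T => T.card ≤ r'),
          |(-1 : ℝ) ^ T.card * ((A.filter (fun m => ∀ s ∈ T, m ≡ β s [MOD s])).card : ℝ) -
            H * ((-1 : ℝ) ^ T.card * ∏ s ∈ T, (1 / (s : ℝ)))| ≤ 1 := by
        intro T hT
        rw [mem_filter, mem_powerset] at hT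
        have h3 := hAPC y q c T β hq fun s hs => hD s (hT.1 hs)
        have h4 : (-1 : ℝ) ^ T.card * ((A.filter (fun m => ∀ s ∈ T, m ≡ β s [MOD s])).card : ℝ) -
            H * ((-1 : ℝ) ^ T.card * ∏ s ∈ T, (1 / (s : ℝ))) =
            (-1 : ℝ) ^ T.card * (((A.filter (fun m => ∀ s ∈ T, m ≡ β s [MOD s])).card : ℝ) -
              (y : ℝ) / (q * ∏ s ∈ T, (s : ℝ))) := by
          have h5 : ∏ s ∈ T, (1 / (s : ℝ)) = 1 / ∏ s ∈ T, (s : ℝ) := by
            rw [prod_div_distrib, prod_const_one]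
          have h6 : (y : ℝ) / (q * ∏ s ∈ T, (s : ℝ)) = (y : ℝ) / q * (1 / ∏ s ∈ T, (s : ℝ)) := by
            rw [div_mul_div_comm, mul_one]
          rw [h5, h6, hH]
          ring
        rw [h4, abs_mul, abs_pow, abs_neg, abs_one, one_pow, one_mul]
        exact h3
      refine (sum_le_card_nsmul _ _ _ h2).trans ?_
      rw [nsmul_eq_mul, mul_one]
      exact_mod_cast card_small_BR D r'
    have h2 : |H * F - H * VV D| ≤ H * (SS D ^ (r' + 1) / ((r' + 1).factorial : ℝ)) := by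
      rw [← mul_sub, abs_mul, abs_of_nonneg hH0]
      refine mul_le_mul_of_nonneg_left ?_ hH0
      exact hTRU D r' fun s hs => (hD s hs).1.one_lt.le
    have h3 : FF A D β r' - H * VV D = (FF A D β r' - H * F) + (H * F - H * VV D) := by ring
    rw [h3]
    refine (abs_add_le _ _).trans ?_
    linarith
  have hB1 : 0 ≤ H * (SS D ^ r / (r.factorial : ℝ)) := by positivity
  have hB2 : 0 ≤ H * (SS D ^ (r + 1) / ((r + 1).factorial : ℝ)) := by positivity
  have hone : (1 : ℝ) ≤ (D.card : ℝ) + 1 := by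
    have : (0 : ℝ) ≤ D.card := Nat.cast_nonneg _
    linarith
  have hr1 : |FF A D β r - H * VV D| ≤
      H * (SS D ^ r / (r.factorial : ℝ) + SS D ^ (r + 1) / ((r + 1).factorial : ℝ)) +
        ((D.card : ℝ) + 1) ^ r := by
    have := hmain r
    rw [mul_add]
    linarith
  obtain ⟨r0, rfl⟩ : ∃ r0, r = r0 + 1 := ⟨r - 1, by omega⟩
  have hr2 : |FF A D β r0 - H * VV D| ≤
      H * (SS D ^ (r0 + 1) / ((r0 + 1).factorial : ℝ) +
        SS D ^ (r0 + 1 + 1) / ((r0 + 1 + 1).factorial : ℝ)) + ((D.card : ℝ) + 1) ^ (r0 + 1) := by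
    have h1 := hmain r0
    have h2 : ((D.card : ℝ) + 1) ^ r0 ≤ ((D.card : ℝ) + 1) ^ (r0 + 1) :=
      pow_le_pow_right₀ hone (Nat.le_succ r0)
    rw [mul_add]
    linarith
  rw [mul_comm (VV D) H]
  rw [abs_le] at hr1 hr2 ⊢
  rcases Nat.even_or_odd r0 with he | ho
  · have hu := (hBON A D β r0).1 he
    have hl := (hBON A D β (r0 + 1)).2 he.add_one
    constructor <;> linarith [hr1.1, hr1.2, hr2.1, hr2.2]
  · have hu := (hBON A D β (r0 + 1)).1 ho.add_one
    have hl := (hBON A D β r0).2 ho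
    constructor <;> linarith [hr1.1, hr1.2, hr2.1, hr2.2]

end Pool.Agent.Helper69.RM
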