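import Pool.Agent.Helper69.RM.St

set_option autoImplicit false

namespace Pool.Agent.Helper69.RM

open Finset

theorem hCOV : StCOV := by
  classical
  intro x y b P R Q hPQ hcov
  have hsub : surv R b (surv P b (Icc 1 y)) ⊆ Q.biUnion (fun p => surv R b (surv P b (AP y p (b p)))) := by
    intro m hm
    rw [mem_surv, mem_surv, mem_Icc] at hm
    obtain ⟨⟨⟨h1, h2⟩, h3⟩, h4⟩ := hm
    obtain ⟨p, hp, hpx, hmp⟩ := hcov m h1 h2
    rw [mem_biUnion]
    rcases hPQ p hp hpx with h | h | h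
    · exact absurd hmp (h3 p h)
    · exact absurd hmp (h4 p h)
    · refine ⟨p, h, ?_⟩
      rw [mem_surv, mem_surv, mem_AP]
      exact ⟨⟨⟨h1, h2, hmp⟩, h3⟩, h4⟩
  exact (card_le_card hsub).trans card_biUnion_le

end Pool.Agent.Helper69.RM
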