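import Pool.Agent.Helper69.RM.St

set_option autoImplicit false

namespace Pool.Agent.Helper69.RM

open Finset

theorem hD1 (hDB : StDB) : StD1 := by
  classical
  obtain ⟨C, hC, h⟩ := hDB
  refine ⟨4 * C, by linarith, 4, fun x hx M hM1 hM2 => ?_⟩
  have hx4 : (4 : ℝ) ≤ x := by exact_mod_cast hx
  have hx0 : (0 : ℝ) < x := by linarith
  have hM0 : (0 : ℝ) < M := by linarith
  have hs2 : (2 : ℝ) ≤ Real.sqrt x := by
    rw [show (2 : ℝ) = Real.sqrt 4 by
      rw [show (4 : ℝ) = 2 ^ 2 by norm_num, Real.sqrt_sq (by norm_num)]]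
    exact Real.sqrt_le_sqrt hx4
  have hL0 : 0 < Real.log x := Real.log_pos (by linarith)
  have hl2 : 0 < Real.log 2 := Real.log_pos (by norm_num)
  have hlM : 0 ≤ Real.log M := Real.log_nonneg hM1
  set J := ⌊Real.log M / Real.log 2⌋₊ with hJ
  have hxM : Real.sqrt x ≤ x / M := by
    rw [le_div_iff₀ hM0]
    calc Real.sqrt x * M ≤ Real.sqrt x * Real.sqrt x := mul_le_mul_of_nonneg_left hM2 (Real.sqrt_nonneg _)
      _ = x := Real.mul_self_sqrt hx0.le
  have hsub : PP (x / M) x ⊆ (range (J + 1)).biUnion (fun j => PP ((x / 2 ^ j) / 2) ((x : ℝ) / 2 ^ j)) := by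
    intro p hp
    rw [mem_PP (by positivity)] at hp
    obtain ⟨h1, h2, h3⟩ := hp
    have hp0 : (0 : ℝ) < p := by exact_mod_cast h3.pos
    have hxp1 : 1 ≤ (x : ℝ) / p := by rwa [le_div_iff₀ hp0, one_mul]
    have hxpM : (x : ℝ) / p ≤ M := by
      rw [div_lt_iff₀ hM0] at h1
      rw [div_le_iff₀ hp0]
      linarith
    set j := ⌊Real.log ((x : ℝ) / p) / Real.log 2⌋₊ with hj
    have hjJ : j ≤ J := by
      apply Nat.floor_le_floor
      exact div_le_div_of_nonneg_right (Real.log_le_log (by positivity) hxpM) hl2.le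
    have hj1 : (j : ℝ) ≤ Real.log ((x : ℝ) / p) / Real.log 2 :=
      Nat.floor_le (div_nonneg (Real.log_nonneg hxp1) hl2.le)
    have hj2 : Real.log ((x : ℝ) / p) / Real.log 2 < j + 1 := Nat.lt_floor_add_one _
    rw [le_div_iff₀ hl2] at hj1
    rw [div_lt_iff₀ hl2] at hj2
    have hj3 : (2 : ℝ) ^ j ≤ x / p := by
      rw [← Real.log_le_log_iff (by positivity) (by positivity), Real.log_pow]
      exact hj1
    have hj4 : (x : ℝ) / p < 2 ^ (j + 1) := by
      rw [← Real.log_lt_log_iff (by positivity) (by positivity), Real.log_pow]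
      push_cast
      exact hj2
    rw [mem_biUnion]
    refine ⟨j, mem_range.mpr (by omega), ?_⟩
    rw [mem_PP (by positivity)]
    refine ⟨?_, ?_, h3⟩
    · rw [div_lt_iff₀ hp0] at hj4
      rw [div_div, div_lt_iff₀ (by positivity), ← pow_succ]
      linarith
    · rw [le_div_iff₀ hp0] at hj3
      rw [le_div_iff₀ (by positivity)]
      linarith
  have hblock : ∀ j ∈ range (J + 1), SS (PP ((x / 2 ^ j) / 2) ((x : ℝ) / 2 ^ j)) ≤ 2 * C / Real.log x := by
    intro j hj
    rw [mem_range] at hj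
    have hj1 : (j : ℝ) ≤ Real.log M / Real.log 2 := by
      have : (j : ℝ) ≤ J := by exact_mod_cast Nat.lt_succ_iff.mp hj
      exact this.trans (Nat.floor_le (div_nonneg hlM hl2.le))
    have h2j : (2 : ℝ) ^ j ≤ M := by
      rw [← Real.log_le_log_iff (by positivity) hM0, Real.log_pow]
      rwa [le_div_iff₀ hl2] at hj1
    have hv : Real.sqrt x ≤ x / 2 ^ j := hxM.trans (by
      apply div_le_div_of_nonneg_left hx0.le (by positivity) h2j)
    refine (h _ (hs2.trans hv)).trans ?_
    have hlogv : Real.log x / 2 ≤ Real.log (x / 2 ^ j) := by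
      rw [← Real.log_sqrt hx0.le]
      exact Real.log_le_log (by linarith) hv
    rw [div_le_div_iff₀ (by linarith) hL0]
    nlinarith
  have hSS : SS (PP (x / M) x) ≤ ∑ j ∈ range (J + 1), SS (PP ((x / 2 ^ j) / 2) ((x : ℝ) / 2 ^ j)) := by
    unfold SS
    refine (sum_le_sum_of_subset_of_nonneg hsub (fun i _ _ => by positivity)).trans ?_
    have key : ∀ (s : Finset ℕ) (t : ℕ → Finset ℕ), ∑ i ∈ s.biUnion t, 1 / (i : ℝ) ≤
        ∑ j ∈ s, ∑ i ∈ t j, 1 / (i : ℝ) := by
      intro s t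
      induction s using Finset.induction_on with
      | empty => simp
      | insert a s ha ih =>
        rw [biUnion_insert, sum_insert ha]
        have h5 : ∑ i ∈ t a ∪ s.biUnion t, 1 / (i : ℝ) ≤ ∑ i ∈ t a, 1 / (i : ℝ) +
            ∑ i ∈ s.biUnion t, 1 / (i : ℝ) := by
          rw [← sum_union_inter]
          have : 0 ≤ ∑ i ∈ t a ∩ s.biUnion t, 1 / (i : ℝ) := sum_nonneg fun i _ => by positivity
          linarith
        linarith
    exact key _ _
  refine hSS.trans ((sum_le_sum hblock).trans ?_)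
  rw [sum_const, card_range, nsmul_eq_mul]
  have hJ1 : ((J + 1 : ℕ) : ℝ) ≤ 2 * (1 + Real.log M) := by
    push_cast
    have h6 : (J : ℝ) ≤ Real.log M / Real.log 2 := Nat.floor_le (div_nonneg hlM hl2.le)
    have h7 : Real.log M / Real.log 2 ≤ 2 * Real.log M := by
      rw [div_le_iff₀ hl2]
      have := Real.log_two_gt_d9
      nlinarith
    linarith
  calc ((J + 1 : ℕ) : ℝ) * (2 * C / Real.log x) ≤ 2 * (1 + Real.log M) * (2 * C / Real.log x) :=
        mul_le_mul_of_nonneg_right hJ1 (by positivity)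
    _ = 4 * C * (1 + Real.log M) / Real.log x := by ring

end Pool.Agent.Helper69.RM
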