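import Pool.Agent.Helper69.RM.St

set_option autoImplicit false

/-! Project RM: module D2 (sum of `1/(p log (y/p))`). -/

namespace Pool.Agent.Helper69.RM

open Finset

theorem hD2 (hDB : StDB) : StD2 := by
  obtain ⟨C, hC, hDB⟩ := hDB
  have hl2 : 0 < Real.log 2 := Real.log_pos (by norm_num)
  refine ⟨6 * C / Real.log 2, by positivity, ⌈Real.exp (Real.exp 2)⌉₊, ?_⟩
  intro x hx y hxy hy
  have hx1 : Real.exp (Real.exp 2) ≤ x := (Nat.le_ceil _).trans (by exact_mod_cast hx)
  have he2 : (5 : ℝ) ≤ Real.exp 2 := by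
    have := Real.quadratic_le_exp_of_nonneg (show (0 : ℝ) ≤ 2 by norm_num)
    linarith
  have hx4 : (6 : ℝ) ≤ x := by
    have := Real.add_one_le_exp (Real.exp 2)
    linarith
  have hx0 : (0 : ℝ) < x := by linarith
  set L := Real.log x with hL
  have hL2 : Real.exp 2 ≤ L := (Real.le_log_iff_exp_le hx0).2 hx1
  have hL0 : 0 < L := by linarith
  have hLL : 2 ≤ LL x := by
    show 2 ≤ Real.log (Real.log x)
    exact (Real.le_log_iff_exp_le hL0).2 hL2
  have hy0 : (0 : ℝ) < y := lt_of_lt_of_le hx0 (by exact_mod_cast hxy)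
  have hyn : y ≠ 0 := by
    rintro rfl
    simp at hy0
  have hsq : 2 ≤ Real.sqrt x := by
    rw [Real.le_sqrt (by norm_num) hx0.le]
    linarith
  -- the number of blocks
  set J := Nat.log 2 y with hJ
  have hJ1 : (J : ℝ) * Real.log 2 ≤ Real.log y := by
    have h1 : 2 ^ J ≤ y := Nat.pow_log_le_self 2 hyn
    have h2 : ((2 : ℝ) ^ J) ≤ y := by exact_mod_cast h1
    have h3 := Real.log_le_log (by positivity) h2
    rwa [Real.log_pow] at h3
  have hly : Real.log y ≤ 3 * L := by
    have h1 := Real.log_le_log hy0 hy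
    rw [Real.log_mul hx0.ne' (by positivity), Real.log_pow] at h1
    have h2 : Real.log L ≤ L := Real.log_le_self hL0.le
    push_cast at h1
    linarith
  have hJ2 : (J : ℝ) ≤ 5 * L := by
    have h1 : (0.6 : ℝ) ≤ Real.log 2 := by
      have := Real.log_two_gt_d9
      linarith
    have h2 : (J : ℝ) * 0.6 ≤ (J : ℝ) * Real.log 2 := mul_le_mul_of_nonneg_left h1 (by positivity)
    linarith
  have hlogJ : Real.log J ≤ 2 + LL x := by
    rcases Nat.eq_zero_or_pos J with h0 | h0
    · rw [h0]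
      simp
      linarith
    · have h1 : Real.log J ≤ Real.log (5 * L) := Real.log_le_log (by exact_mod_cast h0) hJ2
      rw [Real.log_mul (by norm_num) hL0.ne'] at h1
      have h2 : Real.log 5 ≤ 2 := by
        rw [Real.log_le_iff_le_exp (by norm_num)]
        exact he2
      have h3 : LL x = Real.log L := rfl
      linarith
  set S := (PP (Real.sqrt x) x).filter (fun p : ℕ => (p : ℝ) * L ^ 8 ≤ y) with hS
  have hmem : ∀ p ∈ S, Real.sqrt x < p ∧ 0 < p ∧ 2 * p ≤ y := by
    intro p hp
    rw [hS, mem_filter, mem_PP (Real.sqrt_nonneg _)] at hp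
    obtain ⟨⟨h1, h2, h3⟩, h4⟩ := hp
    have hp0 : (0 : ℝ) < p := by linarith
    refine ⟨h1, h3.pos, ?_⟩
    have h5 : (2 : ℝ) ≤ L ^ 8 := by
      have : (2 : ℝ) ^ 8 ≤ L ^ 8 := pow_le_pow_left₀ (by norm_num) (by linarith) 8
      linarith [show (2 : ℝ) ≤ 2 ^ 8 by norm_num]
    have h6 : (p : ℝ) * 2 ≤ p * L ^ 8 := mul_le_mul_of_nonneg_left h5 hp0.le
    have h7 : 2 * (p : ℝ) ≤ y := by linarith
    exact_mod_cast h7
  -- the index of the block
  have hg : ∀ p ∈ S, Nat.log 2 (y / p) ∈ Icc 1 J := by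
    intro p hp
    obtain ⟨h1, h2, h3⟩ := hmem p hp
    have h4 : 2 ≤ y / p := (Nat.le_div_iff_mul_le h2).2 h3
    rw [mem_Icc]
    refine ⟨?_, ?_⟩
    · exact Nat.log_pos (by norm_num) h4
    · exact Nat.log_mono_right (Nat.div_le_self _ _)
  have hblock : ∀ j ∈ Icc 1 J, ∑ p ∈ S.filter (fun p => Nat.log 2 (y / p) = j),
      1 / ((p : ℝ) * Real.log ((y : ℝ) / p)) ≤ (1 / (j : ℝ)) * (2 * C / (L * Real.log 2)) := by
    intro j hj
    have hj1 : 1 ≤ j := (mem_Icc.1 hj).1
    have hj0 : (0 : ℝ) < j := by exact_mod_cast hj1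
    have key : ∀ p ∈ S.filter (fun p => Nat.log 2 (y / p) = j),
        (2 : ℝ) ^ j * p ≤ y ∧ (y : ℝ) < 2 ^ (j + 1) * p ∧ (0 : ℝ) < p ∧ p.Prime := by
      intro p hp
      rw [mem_filter] at hp
      obtain ⟨hp1, hp2⟩ := hp
      obtain ⟨h1, h2, h3⟩ := hmem p hp1
      have h4 : 2 ≤ y / p := (Nat.le_div_iff_mul_le h2).2 h3
      have h5 : 2 ^ j ≤ y / p := by
        rw [← hp2]
        exact Nat.pow_log_le_self 2 (by omega)
      have h6 : y / p < 2 ^ (j + 1) := by
        rw [← hp2]
        exact Nat.lt_pow_succ_log_self (by norm_num) _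
      have h7 : 2 ^ j * p ≤ y := (Nat.le_div_iff_mul_le h2).1 h5
      have h8 : y < 2 ^ (j + 1) * p := (Nat.div_lt_iff_lt_mul h2).1 h6
      refine ⟨by exact_mod_cast h7, by exact_mod_cast h8, by exact_mod_cast h2, ?_⟩
      rw [hS, mem_filter, mem_PP (Real.sqrt_nonneg _)] at hp1
      exact hp1.1.2.2
    rcases (S.filter (fun p => Nat.log 2 (y / p) = j)).eq_empty_or_nonempty with he | ⟨p0, hp0⟩
    · rw [he, sum_empty]
      positivity
    · set v : ℝ := (y : ℝ) / 2 ^ j with hv
      have hsv : Real.sqrt x ≤ v := by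
        obtain ⟨k1, -, -, -⟩ := key p0 hp0
        have k2 := (hmem p0 (mem_filter.1 hp0).1).1
        rw [hv, le_div_iff₀ (by positivity)]
        have : Real.sqrt x * 2 ^ j ≤ p0 * 2 ^ j := mul_le_mul_of_nonneg_right k2.le (by positivity)
        linarith
      have hv2 : 2 ≤ v := hsq.trans hsv
      have hlv : L / 2 ≤ Real.log v := by
        have h1 := Real.log_le_log (by positivity) hsv
        rwa [Real.log_sqrt hx0.le] at h1
      have h1 : ∑ p ∈ S.filter (fun p => Nat.log 2 (y / p) = j),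
          1 / ((p : ℝ) * Real.log ((y : ℝ) / p)) ≤
          ∑ p ∈ S.filter (fun p => Nat.log 2 (y / p) = j),
            (1 / ((j : ℝ) * Real.log 2)) * (1 / (p : ℝ)) := by
        apply sum_le_sum
        intro p hp
        obtain ⟨k1, k2, k3, -⟩ := key p hp
        have k4 : (2 : ℝ) ^ j ≤ y / p := by
          rw [le_div_iff₀ k3]
          exact k1
        have k5 := Real.log_le_log (by positivity) k4
        rw [Real.log_pow] at k5
        rw [← one_div_mul_one_div_rev, mul_comm (1 / ((j : ℝ) * Real.log 2)), mul_comm]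
        apply mul_le_mul_of_nonneg_left _ (by positivity)
        exact one_div_le_one_div_of_le (by positivity) k5
      have h2 : ∑ p ∈ S.filter (fun p => Nat.log 2 (y / p) = j), (1 / (p : ℝ)) ≤
          SS (PP (v / 2) v) := by
        unfold SS
        apply sum_le_sum_of_subset_of_nonneg
        · intro p hp
          obtain ⟨k1, k2, k3, k4⟩ := key p hp
          rw [mem_PP (by positivity)]
          refine ⟨?_, ?_, k4⟩
          · rw [hv, div_div, div_lt_iff₀ (by positivity)]
            rw [pow_succ] at k2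
            linarith
          · rw [hv, le_div_iff₀ (by positivity)]
            linarith
        · intro p _ _
          positivity
      have h3 : SS (PP (v / 2) v) ≤ 2 * C / L := by
        refine (hDB v hv2).trans ?_
        rw [div_le_div_iff₀ (by linarith) hL0]
        nlinarith
      rw [← mul_sum] at h1
      refine h1.trans ?_
      calc (1 / ((j : ℝ) * Real.log 2)) * ∑ p ∈ S.filter (fun p => Nat.log 2 (y / p) = j), (1 / (p : ℝ))
          ≤ (1 / ((j : ℝ) * Real.log 2)) * (2 * C / L) :=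
            mul_le_mul_of_nonneg_left (h2.trans h3) (by positivity)
        _ = (1 / (j : ℝ)) * (2 * C / (L * Real.log 2)) := by
            field_simp
  rw [← sum_fiberwise_of_maps_to hg]
  refine (sum_le_sum hblock).trans ?_
  rw [← sum_mul]
  have hharm : ∑ j ∈ Icc 1 J, (1 / (j : ℝ)) ≤ 1 + Real.log J := by
    have h1 := harmonic_le_one_add_log J
    rw [harmonic_eq_sum_Icc] at h1
    push_cast at h1
    simpa [one_div] using h1
  have hfin : ∑ j ∈ Icc 1 J, (1 / (j : ℝ)) ≤ 3 * LL x := by linarith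
  calc (∑ j ∈ Icc 1 J, (1 / (j : ℝ))) * (2 * C / (L * Real.log 2))
      ≤ (3 * LL x) * (2 * C / (L * Real.log 2)) := mul_le_mul_of_nonneg_right hfin (by positivity)
    _ = 6 * C / Real.log 2 * LL x / L := by
      field_simp
      ring

end Pool.Agent.Helper69.RM
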