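import Pool.Agent.Helper69.RM.St

set_option autoImplicit false

namespace Pool.Agent.Helper69.RM

open Finset

theorem hDB (hPC : StPC) : StDB := by
  obtain ⟨C, hC, h⟩ := hPC
  refine ⟨2 * C, by linarith, fun v hv => ?_⟩
  have hv0 : (0 : ℝ) < v := by linarith
  have hlog : 0 < Real.log v := Real.log_pos (by linarith)
  have h1 := h v hv
  have hsub : PP (v / 2) v ⊆ PP 1 v := by
    intro p hp
    rw [mem_PP (by linarith)] at hp
    rw [mem_PP zero_le_one]
    exact ⟨by linarith [hp.1], hp.2⟩
  have hcard : ((PP (v / 2) v).card : ℝ) ≤ C * v / Real.log v :=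
    le_trans (by exact_mod_cast card_le_card hsub) h1
  unfold SS
  have hb : ∀ p ∈ PP (v / 2) v, 1 / (p : ℝ) ≤ 2 / v := by
    intro p hp
    rw [mem_PP (by linarith)] at hp
    have hp0 : (0 : ℝ) < p := by linarith [hp.1]
    rw [div_le_div_iff₀ hp0 hv0]
    linarith [hp.1]
  refine (sum_le_sum hb).trans ?_
  rw [sum_const, nsmul_eq_mul]
  calc ((PP (v / 2) v).card : ℝ) * (2 / v) ≤ (C * v / Real.log v) * (2 / v) :=
        mul_le_mul_of_nonneg_right hcard (by positivity)
    _ = 2 * C / Real.log v := by field_simp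

end Pool.Agent.Helper69.RM
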