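import Pool.Agent.Helper69.RM.St

set_option autoImplicit false

namespace Pool.Agent.Helper69.RM

open Finset

private theorem sum_class_EL (W : Finset ℕ) (s : ℕ) (hs : 1 ≤ s) :
    ∑ c ∈ range s, ((W.filter (fun m => m ≡ c [MOD s])).card : ℝ) = W.card := by
  have h1 := card_eq_sum_card_fiberwise (f := fun m => m % s) (s := W) (t := range s)
    (fun m _ => by
      simp only [coe_range, Set.mem_Iio]
      exact Nat.mod_lt _ hs)
  rw [h1, Nat.cast_sum]
  refine sum_congr rfl fun c hc => ?_
  congr 2
  refine filter_congr fun m _ => ?_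
  unfold Nat.ModEq
  rw [Nat.mod_eq_of_lt (mem_range.1 hc)]

private theorem surv_insert_EL {R : Finset ℕ} {s : ℕ} (hs : s ∉ R) (a : ℕ → ℕ) (c : ℕ) (W : Finset ℕ) :
    surv (insert s R) (Function.update a s c) W = surv R a (W.filter (fun m => ¬ m ≡ c [MOD s])) := by
  ext m
  simp only [mem_surv, mem_filter, mem_insert]
  constructor
  · rintro ⟨h1, h2⟩
    refine ⟨⟨h1, ?_⟩, fun t ht => ?_⟩
    · have := h2 s (Or.inl rfl)
      rwa [Function.update_self] at this
    · have := h2 t (Or.inr ht)
      have hts : t ≠ s := fun e => hs (e ▸ ht)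
      rwa [Function.update_of_ne hts] at this
  · rintro ⟨⟨h1, h2⟩, h3⟩
    refine ⟨h1, fun t ht => ?_⟩
    by_cases hts : t = s
    · subst hts
      rwa [Function.update_self]
    · rw [Function.update_of_ne hts]
      exact h3 t (ht.resolve_left hts)

theorem hEL : StEL := by
  intro R W b t η hR ht hη0 hη1 htb
  induction R using Finset.induction_on generalizing W with
  | empty =>
    intro _
    simp [CH_empty, surv]
  | insert s R hs ih =>
    intro hb
    have hRR : ∀ s ∈ R, 2 ≤ s := fun r hr => hR r (mem_insert_of_mem hr)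
    have hs2 : 2 ≤ s := hR s (mem_insert_self s R)
    have hs2R : (2 : ℝ) ≤ s := by exact_mod_cast hs2
    have hspos : (0 : ℝ) < s := by linarith
    set P : ℝ := ∏ r ∈ R, (1 - (1 + η) / (r : ℝ)) with hP
    have hPnn : 0 ≤ P := by
      refine prod_nonneg fun r hr => ?_
      have h2 : (2 : ℝ) ≤ r := by exact_mod_cast hRR r hr
      have : (1 + η) / (r : ℝ) ≤ 1 := by
        rw [div_le_one (by linarith)]
        linarith
      linarith
    have hP1 : P ≤ 1 := by
      refine prod_le_one (fun r hr => ?_) fun r hr => ?_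
      · have h2 : (2 : ℝ) ≤ r := by exact_mod_cast hRR r hr
        have : (1 + η) / (r : ℝ) ≤ 1 := by
          rw [div_le_one (by linarith)]
          linarith
        linarith
      · have h2 : (2 : ℝ) ≤ r := by exact_mod_cast hRR r hr
        have : 0 ≤ (1 + η) / (r : ℝ) := by positivity
        linarith
    set v : ℝ := t * P with hv
    have hv0 : 0 ≤ v := mul_nonneg ht hPnn
    have hvt : v ≤ t := by
      rw [hv]
      nlinarith
    set w : ℕ → ℝ := fun c => ((W.filter (fun m => m ≡ c [MOD s])).card : ℝ) with hw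
    have hprodnn : (0 : ℝ) ≤ ∏ r ∈ R, (r : ℝ) := prod_nonneg fun r _ => Nat.cast_nonneg r
    rw [sum_CH_insert hs, prod_insert hs, prod_insert hs]
    have hstep : ∀ c ∈ range s, ∑ a ∈ CH R,
        Real.exp (-(t * ((surv (insert s R) (Function.update a s c) W).card : ℝ))) ≤
        (∏ r ∈ R, (r : ℝ)) * (Real.exp (-(v * W.card)) * (1 + v * w c * (1 + η))) := by
      intro c _
      have h1 := ih (W.filter (fun m => ¬ m ≡ c [MOD s])) hRR (fun r hr c' => by
        refine le_trans ?_ (hb r (mem_insert_of_mem hr) c')
        have : ((W.filter (fun m => ¬ m ≡ c [MOD s])).filter (fun m => m ≡ c' [MOD r])) ⊆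
            W.filter (fun m => m ≡ c' [MOD r]) := filter_subset_filter _ (filter_subset _ _)
        exact_mod_cast card_le_card this)
      have h2 : ∀ a ∈ CH R,
          Real.exp (-(t * ((surv (insert s R) (Function.update a s c) W).card : ℝ))) =
          Real.exp (-(t * ((surv R a (W.filter (fun m => ¬ m ≡ c [MOD s]))).card : ℝ))) := by
        intro a _
        rw [surv_insert_EL hs]
      rw [sum_congr rfl h2]
      refine h1.trans (mul_le_mul_of_nonneg_left ?_ hprodnn)
      have hcard : ((W.filter (fun m => ¬ m ≡ c [MOD s])).card : ℝ) = W.card - w c := by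
        have := card_filter_add_card_filter_not (s := W) (fun m => m ≡ c [MOD s])
        have h3 : ((W.filter (fun m => m ≡ c [MOD s])).card : ℝ) +
          ((W.filter (fun m => ¬ m ≡ c [MOD s])).card : ℝ) = W.card := by exact_mod_cast this
        simp only [hw]
        linarith
      rw [hcard]
      have hwc0 : 0 ≤ w c := Nat.cast_nonneg _
      have hwcb : w c ≤ b := hb s (mem_insert_self s R) c
      have hx0 : 0 ≤ v * w c := mul_nonneg hv0 hwc0
      have hx1 : v * w c ≤ η := by
        calc v * w c ≤ t * b := mul_le_mul hvt hwcb hwc0 ht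
          _ ≤ η := htb
      have hexp : Real.exp (v * w c) ≤ 1 + v * w c * (1 + η) := by
        have h4 := Real.abs_exp_sub_one_sub_id_le (x := v * w c)
          (by rw [abs_of_nonneg hx0]; linarith)
        have h5 := (abs_le.1 h4).2
        nlinarith
      have e1 : -(t * ((W.card : ℝ) - w c) * P) = -(v * W.card) + v * w c := by
        rw [hv]
        ring
      rw [e1, Real.exp_add]
      exact mul_le_mul_of_nonneg_left hexp (Real.exp_pos _).le
    refine (sum_le_sum hstep).trans ?_
    rw [← mul_sum, ← mul_sum]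
    have hsum : ∑ c ∈ range s, (1 + v * w c * (1 + η)) = s * (1 + v * W.card * (1 + η) / s) := by
      rw [sum_add_distrib, sum_const, card_range, nsmul_eq_mul, mul_one, ← sum_mul, ← mul_sum]
      have : ∑ c ∈ range s, w c = W.card := sum_class_EL W s (by omega)
      rw [this]
      field_simp
    rw [hsum]
    have hexp2 : 1 + v * W.card * (1 + η) / s ≤ Real.exp (v * W.card * (1 + η) / s) := by
      have := Real.add_one_le_exp (v * W.card * (1 + η) / s)
      linarith
    have e2 : -(t * (W.card : ℝ) * ((1 - (1 + η) / (s : ℝ)) * P)) =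
        -(v * W.card) + v * W.card * (1 + η) / s := by
      rw [hv]
      ring
    rw [e2, Real.exp_add]
    calc (∏ r ∈ R, (r : ℝ)) * (Real.exp (-(v * W.card)) * (s * (1 + v * W.card * (1 + η) / s)))
        ≤ (∏ r ∈ R, (r : ℝ)) * (Real.exp (-(v * W.card)) *
          (s * Real.exp (v * W.card * (1 + η) / s))) := by
          gcongr
      _ = _ := by ring

end Pool.Agent.Helper69.RM
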