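import Pool.Agent.Helper69.RM.St

set_option autoImplicit false

/-! Project RM (helper69), module EU: exponential moment of the random sieve, upper side. -/

namespace Pool.Agent.Helper69.RM

open Finset

private theorem exp_EU {x η : ℝ} (hx : 0 ≤ x) (h : x ≤ 2 * η) : Real.exp (-x) ≤ 1 - x * (1 - η) := by
  have h1 : Real.exp (-x) ≤ 1 - x + x ^ 2 / 2 := by
    have h2 := Real.quadratic_le_exp_of_nonneg hx
    have h3 : 0 < 1 + x + x ^ 2 / 2 := by positivity
    rw [Real.exp_neg]
    have h4 : (Real.exp x)⁻¹ ≤ (1 + x + x ^ 2 / 2)⁻¹ := inv_anti₀ h3 h2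
    refine h4.trans ?_
    rw [inv_le_iff_one_le_mul₀ h3]
    nlinarith [sq_nonneg (x ^ 2)]
  nlinarith

private theorem surv_EU {R : Finset ℕ} {s c : ℕ} (hs : s ∉ R) (a : ℕ → ℕ) (W : Finset ℕ) :
    surv (insert s R) (Function.update a s c) W = surv R a (W.filter (fun m => ¬ m ≡ c [MOD s])) := by
  ext m
  simp only [mem_surv, mem_filter, mem_insert]
  constructor
  · rintro ⟨h1, h2⟩
    refine ⟨⟨h1, ?_⟩, fun r hr => ?_⟩
    · have := h2 s (Or.inl rfl)
      rwa [Function.update_self] at this
    · have hrs : r ≠ s := fun h => hs (h ▸ hr)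
      have := h2 r (Or.inr hr)
      rwa [Function.update_of_ne hrs] at this
  · rintro ⟨⟨h1, h2⟩, h3⟩
    refine ⟨h1, fun r hr => ?_⟩
    rcases hr with rfl | hr
    · rwa [Function.update_self]
    · have hrs : r ≠ s := fun h => hs (h ▸ hr)
      rw [Function.update_of_ne hrs]
      exact h3 r hr

private theorem card_EU {s : ℕ} (hs : 1 ≤ s) (W : Finset ℕ) :
    ∑ c ∈ range s, (W.filter (fun m => m ≡ c [MOD s])).card = W.card := by
  have h := card_eq_sum_card_fiberwise (s := W) (t := range s) (f := fun m => m % s)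
    (fun m _ => by
      simp only [coe_range, Set.mem_Iio]
      exact Nat.mod_lt _ hs)
  rw [h]
  refine sum_congr rfl (fun c hc => ?_)
  congr 1
  refine filter_congr (fun m _ => ?_)
  have hc' : c % s = c := Nat.mod_eq_of_lt (mem_range.mp hc)
  unfold Nat.ModEq
  rw [hc']

theorem hEU : StEU := by
  intro R
  induction R using Finset.induction_on with
  | empty =>
    intro W b t η _ _ _ _ _ _
    rw [CH_empty, sum_singleton, prod_empty, prod_empty, one_mul, mul_one]
    have : surv ∅ (fun _ => 0) W = W := by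
      ext m
      simp [mem_surv]
    rw [this]
  | insert s R hs ih =>
    intro W b t η hR ht h0 h1 htb hW
    have hs1 : 1 ≤ s := hR s (mem_insert_self s R)
    have hsp : (0 : ℝ) < s := by exact_mod_cast hs1
    have hs1' : (1 : ℝ) ≤ s := by exact_mod_cast hs1
    set Q : ℝ := ∏ r ∈ R, (1 - (1 - η) / (r : ℝ)) with hQ
    have hfac : ∀ r ∈ R, 0 ≤ 1 - (1 - η) / (r : ℝ) ∧ 1 - (1 - η) / (r : ℝ) ≤ 1 := by
      intro r hr
      have hr1 : (1 : ℝ) ≤ r := by exact_mod_cast hR r (mem_insert_of_mem hr)
      have hr0 : (0 : ℝ) < r := by linarith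
      have h2 : (1 - η) / (r : ℝ) ≤ 1 := by
        rw [div_le_one hr0]
        linarith
      have h3 : 0 ≤ (1 - η) / (r : ℝ) := div_nonneg (by linarith) hr0.le
      exact ⟨by linarith, by linarith⟩
    have hQ0 : 0 ≤ Q := prod_nonneg fun r hr => (hfac r hr).1
    have hQ1 : Q ≤ 1 := prod_le_one (fun r hr => (hfac r hr).1) (fun r hr => (hfac r hr).2)
    set v : ℝ := t * Q with hv
    have hv0 : 0 ≤ v := mul_nonneg ht hQ0
    have hvt : v ≤ t := by
      rw [hv]
      nlinarith
    set P : ℝ := ∏ r ∈ R, (r : ℝ) with hP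
    have hP0 : 0 ≤ P := prod_nonneg fun r _ => Nat.cast_nonneg r
    set w : ℕ → ℝ := fun c => ((W.filter (fun m => m ≡ c [MOD s])).card : ℝ) with hw
    have hw0 : ∀ c, 0 ≤ w c := fun c => Nat.cast_nonneg _
    have hwb : ∀ c, w c ≤ b := fun c => hW s (mem_insert_self s R) c
    have hwsum : ∑ c ∈ range s, w c = W.card := by
      rw [hw]
      simp only
      rw [← Nat.cast_sum, card_EU hs1 W]
    rw [sum_CH_insert hs]
    have hterm : ∀ c ∈ range s, ∑ a ∈ CH R,
        Real.exp (t * ((surv (insert s R) (Function.update a s c) W).card : ℝ)) ≤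
        P * (Real.exp (v * W.card) * (1 - v * w c * (1 - η))) := by
      intro c _
      have hcard : (((W.filter (fun m => ¬ m ≡ c [MOD s])).card : ℕ) : ℝ) = W.card - w c := by
        have := card_filter_add_card_filter_not (s := W) (fun m => m ≡ c [MOD s])
        have h2 : (w c) + (((W.filter (fun m => ¬ m ≡ c [MOD s])).card : ℕ) : ℝ) = W.card := by
          rw [hw]
          simp only
          exact_mod_cast this
        linarith
      have hih := ih (W.filter (fun m => ¬ m ≡ c [MOD s])) b t η
        (fun r hr => hR r (mem_insert_of_mem hr)) ht h0 h1 htb (by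
          intro r hr c'
          refine le_trans ?_ (hW r (mem_insert_of_mem hr) c')
          exact_mod_cast card_le_card (filter_subset_filter _ (filter_subset _ _)))
      have heq : ∑ a ∈ CH R,
          Real.exp (t * ((surv (insert s R) (Function.update a s c) W).card : ℝ)) =
          ∑ a ∈ CH R, Real.exp (t * ((surv R a (W.filter (fun m => ¬ m ≡ c [MOD s]))).card : ℝ)) := by
        refine sum_congr rfl (fun a _ => ?_)
        rw [surv_EU hs]
      rw [heq]
      refine hih.trans ?_
      refine mul_le_mul_of_nonneg_left ?_ hP0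
      rw [hcard]
      have h2 : t * ((W.card : ℝ) - w c) * Q = v * W.card + -(v * w c) := by rw [hv]; ring
      rw [← hQ, h2, Real.exp_add]
      refine mul_le_mul_of_nonneg_left ?_ (Real.exp_pos _).le
      refine exp_EU (mul_nonneg hv0 (hw0 c)) ?_
      calc v * w c ≤ t * b := mul_le_mul hvt (hwb c) (hw0 c) ht
        _ ≤ 2 * η := htb
    refine (sum_le_sum hterm).trans ?_
    rw [← mul_sum, ← mul_sum]
    have hsum : ∑ c ∈ range s, (1 - v * w c * (1 - η)) = s - v * W.card * (1 - η) := by
      rw [sum_sub_distrib, ← sum_mul, ← mul_sum, hwsum]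
      simp
    rw [hsum]
    have hlast : (s : ℝ) - v * W.card * (1 - η) ≤ s * Real.exp (-(v * W.card * (1 - η) / s)) := by
      have := Real.add_one_le_exp (-(v * W.card * (1 - η) / s))
      have h3 : (s : ℝ) * (-(v * W.card * (1 - η) / s) + 1) ≤ s * Real.exp (-(v * W.card * (1 - η) / s)) :=
        mul_le_mul_of_nonneg_left this hsp.le
      have h4 : (s : ℝ) * (-(v * W.card * (1 - η) / s) + 1) = s - v * W.card * (1 - η) := by
        field_simp
        ring
      linarith
    rw [prod_insert hs, prod_insert hs, ← hP, ← hQ]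
    calc P * (Real.exp (v * W.card) * (s - v * W.card * (1 - η)))
        ≤ P * (Real.exp (v * W.card) * (s * Real.exp (-(v * W.card * (1 - η) / s)))) := by
          refine mul_le_mul_of_nonneg_left (mul_le_mul_of_nonneg_left hlast (Real.exp_pos _).le) hP0
      _ = s * P * (Real.exp (v * W.card) * Real.exp (-(v * W.card * (1 - η) / s))) := by ring
      _ = s * P * Real.exp (t * W.card * ((1 - (1 - η) / s) * Q)) := by
          rw [← Real.exp_add]
          congr 2
          rw [hv]
          field_simp
          ring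

end Pool.Agent.Helper69.RM
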