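import Pool.Agent.Helper69.RM.St

set_option autoImplicit false

namespace Pool.Agent.Helper69.RM

open Finset

open Classical in
private theorem Pr_insert_EXT {S : Finset ℕ} {s : ℕ} (hs : s ∉ S) (h1 : 1 ≤ s) (E : (ℕ → ℕ) → Prop)
    (hE : ∀ (a : ℕ → ℕ) (c : ℕ), E (Function.update a s c) ↔ E a) : Pr (insert s S) E = Pr S E := by
  unfold Pr
  have h2 : (((CH (insert s S)).filter E).card : ℝ) = (s : ℝ) * (((CH S).filter E).card : ℝ) := by
    rw [← sum_boole, ← sum_boole, sum_CH_insert hs]
    have h3 : ∀ c ∈ range s, (∑ a ∈ CH S, if E (Function.update a s c) then (1 : ℝ) else 0) =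
        ∑ a ∈ CH S, if E a then (1 : ℝ) else 0 := by
      intro c _
      refine sum_congr rfl (fun a _ => ?_)
      simp only [hE]
    rw [sum_congr rfl h3, sum_const, card_range, nsmul_eq_mul]
  rw [h2, prod_insert hs, mul_div_mul_left]
  have : (0 : ℝ) < s := by exact_mod_cast h1
  exact this.ne'

theorem hEXT : StEXT := by
  intro R R' E hRR h1 hE
  have key : ∀ D : Finset ℕ, Disjoint D R → (∀ s ∈ D, 1 ≤ s) → Pr (R ∪ D) E = Pr R E := by
    intro D
    induction D using Finset.induction_on with
    | empty =>
      intro _ _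
      rw [union_empty]
    | insert s D hs ih =>
      intro hd hD
      rw [disjoint_insert_left] at hd
      have hsRD : s ∉ R ∪ D := by
        rw [mem_union, not_or]
        exact ⟨hd.1, hs⟩
      rw [union_insert, Pr_insert_EXT hsRD (hD s (mem_insert_self s D)) E]
      · exact ih hd.2 (fun t ht => hD t (mem_insert_of_mem ht))
      · intro a c
        refine hE _ _ (fun t ht => ?_)
        rw [Function.update_of_ne]
        intro h
        rw [h] at ht
        exact hd.1 ht
  have h2 := key (R' \ R) sdiff_disjoint (fun s hs => h1 s (mem_sdiff.mp hs).1)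
  rw [union_sdiff_of_subset hRR] at h2
  exact h2

end Pool.Agent.Helper69.RM
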