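import Pool.Agent.Helper69.RM.St

set_option autoImplicit false

namespace Pool.Agent.Helper69.RM

open Finset

private theorem sum_prod_KS (R : Finset ℕ) (h : ℕ → ℕ → ℝ) :
    ∑ a ∈ CH R, ∏ s ∈ R, h s (a s) = ∏ s ∈ R, ∑ c ∈ range s, h s c := by
  induction R using Finset.induction_on with
  | empty => simp [CH_empty]
  | insert s R hs ih =>
    rw [sum_CH_insert hs, prod_insert hs, ← ih, sum_mul]
    refine sum_congr rfl fun c _ => ?_
    rw [mul_sum]
    refine sum_congr rfl fun a _ => ?_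
    rw [prod_insert hs, Function.update_self]
    congr 1
    refine prod_congr rfl fun t ht => ?_
    have hts : t ≠ s := fun e => hs (e ▸ ht)
    rw [Function.update_of_ne hts]

private theorem count_KS (s k : ℕ) (hs : 1 ≤ s) (T : Finset ℕ) (hT : T.card = k)
    (hd : ∀ m ∈ T, ∀ m' ∈ T, m ≡ m' [MOD s] → m = m') :
    (((range s).filter (fun c => ∀ m ∈ T, ¬ m ≡ c [MOD s])).card : ℝ) ≤
      (s : ℝ) * (1 - 1 / (s : ℝ)) ^ k := by
  have hinj : Set.InjOn (fun m => m % s) (T : Set ℕ) := by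
    intro m hm m' hm' h
    exact hd m hm m' hm' h
  have himg : (T.image (fun m => m % s)) ⊆ range s := by
    intro c hc
    rw [mem_image] at hc
    obtain ⟨m, _, rfl⟩ := hc
    exact mem_range.2 (Nat.mod_lt _ hs)
  have hcard : (T.image (fun m => m % s)).card = k := by
    rw [card_image_of_injOn hinj, hT]
  have hsub : (range s).filter (fun c => ∀ m ∈ T, ¬ m ≡ c [MOD s]) ⊆
      range s \ (T.image (fun m => m % s)) := by
    intro c hc
    rw [mem_filter] at hc
    rw [mem_sdiff]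
    refine ⟨hc.1, fun h => ?_⟩
    rw [mem_image] at h
    obtain ⟨m, hm, hmc⟩ := h
    refine hc.2 m hm ?_
    have hcs : c < s := mem_range.1 hc.1
    unfold Nat.ModEq
    rw [Nat.mod_eq_of_lt hcs]
    exact hmc
  have h1 := card_le_card hsub
  rw [card_sdiff_of_subset himg, hcard, card_range] at h1
  have hks : k ≤ s := by
    have := card_le_card himg
    rwa [hcard, card_range] at this
  have hsR : (0 : ℝ) < s := by exact_mod_cast hs
  have h2 : (((range s).filter (fun c => ∀ m ∈ T, ¬ m ≡ c [MOD s])).card : ℝ) ≤ (s : ℝ) - k := by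
    have : (((range s).filter (fun c => ∀ m ∈ T, ¬ m ≡ c [MOD s])).card : ℝ) ≤ ((s - k : ℕ) : ℝ) := by
      exact_mod_cast h1
    rwa [Nat.cast_sub hks] at this
  refine h2.trans ?_
  have h3 : (1 : ℝ) + k * (-(1 / (s : ℝ))) ≤ (1 + (-(1 / (s : ℝ)))) ^ k := by
    refine one_add_mul_le_pow ?_ k
    have h4 : 1 / (s : ℝ) ≤ 1 := by
      rw [div_le_one hsR]
      exact_mod_cast hs
    linarith
  have h5 : (s : ℝ) - k = s * (1 + k * (-(1 / (s : ℝ)))) := by
    field_simp
    ring
  rw [h5, sub_eq_add_neg]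
  exact mul_le_mul_of_nonneg_left h3 hsR.le

open Classical in
private theorem fixed_KS (R W : Finset ℕ) (k : ℕ) (hR : ∀ s ∈ R, 1 ≤ s)
    (hd : ∀ s ∈ R, ∀ m ∈ W, ∀ m' ∈ W, m ≡ m' [MOD s] → m = m') (T : Finset ℕ) (hTW : T ⊆ W)
    (hT : T.card = k) : Pr R (fun a => T ⊆ surv R a W) ≤ VV R ^ k := by
  have key := Pr_le_of_sum hR (fun a => T ⊆ surv R a W)
    (fun a => ∏ s ∈ R, if (∀ m ∈ T, ¬ m ≡ a s [MOD s]) then (1 : ℝ) else 0) 1 (VV R ^ k) one_pos
    (fun a => prod_nonneg fun s _ => by positivity) ?_ ?_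
  · simpa using key
  · intro a _ hE
    refine le_of_eq (prod_eq_one fun s hs => ?_).symm
    rw [if_pos]
    intro m hm
    exact (mem_surv.1 (hE hm)).2 s hs
  · rw [sum_prod_KS R (fun s c => if (∀ m ∈ T, ¬ m ≡ c [MOD s]) then (1 : ℝ) else 0)]
    unfold VV
    rw [← prod_pow, ← prod_mul_distrib]
    refine prod_le_prod (fun s _ => sum_nonneg fun c _ => by positivity) fun s hs => ?_
    rw [sum_boole]
    exact count_KS s k (hR s hs) T hT fun m hm m' hm' => hd s hs m (hTW hm) m' (hTW hm')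

theorem hKS : StKS := by
  intro R W k hR hd hk
  classical
  have h1 : Pr R (fun a => k ≤ (surv R a W).card) ≤
      Pr R (fun a => ∃ T ∈ powersetCard k W, T ⊆ surv R a W) := by
    refine Pr_mono fun a _ h => ?_
    obtain ⟨T, hT1, hT2⟩ := exists_subset_card_eq h
    exact ⟨T, mem_powersetCard.2 ⟨hT1.trans surv_subset, hT2⟩, hT1⟩
  have h2 := Pr_exists_le (R := R) (powersetCard k W) (fun T a => T ⊆ surv R a W)
  have h3 : ∑ T ∈ powersetCard k W, Pr R (fun a => T ⊆ surv R a W) ≤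
      (W.card.choose k : ℝ) * VV R ^ k := by
    have : ∀ T ∈ powersetCard k W, Pr R (fun a => T ⊆ surv R a W) ≤ VV R ^ k := by
      intro T hT
      rw [mem_powersetCard] at hT
      exact fixed_KS R W k hR hd T hT.1 hT.2
    refine (sum_le_card_nsmul _ _ _ this).trans ?_
    rw [card_powersetCard, nsmul_eq_mul]
  have hV : 0 ≤ VV R := by
    unfold VV
    refine prod_nonneg fun s hs => ?_
    have hsR : (1 : ℝ) ≤ s := by exact_mod_cast hR s hs
    have : 1 / (s : ℝ) ≤ 1 := by
      rw [div_le_one (by linarith)]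
      exact hsR
    linarith
  have hkR : (0 : ℝ) < k := by exact_mod_cast hk
  have h4 : (W.card.choose k : ℝ) ≤ (Real.exp 1 * W.card / k) ^ k := by
    refine (Nat.choose_le_pow_div k W.card).trans ?_
    have h5 : (k : ℝ) ^ k / (k.factorial : ℝ) ≤ Real.exp k :=
      Real.pow_div_factorial_le_exp k hkR.le k
    have hf : (0 : ℝ) < k.factorial := by exact_mod_cast Nat.factorial_pos k
    rw [div_pow, mul_pow, ← Real.exp_nat_mul, mul_one]
    rw [div_le_div_iff₀ hf (pow_pos hkR k)]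
    rw [div_le_iff₀ hf] at h5
    have h6 : (0 : ℝ) ≤ (W.card : ℝ) ^ k := by positivity
    calc (W.card : ℝ) ^ k * (k : ℝ) ^ k ≤ (W.card : ℝ) ^ k * (Real.exp k * k.factorial) :=
          mul_le_mul_of_nonneg_left h5 h6
      _ = _ := by ring
  calc Pr R (fun a => k ≤ (surv R a W).card) ≤ (W.card.choose k : ℝ) * VV R ^ k :=
        h1.trans (h2.trans h3)
    _ ≤ (Real.exp 1 * W.card / k) ^ k * VV R ^ k :=
        mul_le_mul_of_nonneg_right h4 (pow_nonneg hV k)
    _ = (Real.exp 1 * W.card * VV R / k) ^ k := by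
        rw [← mul_pow]
        congr 1
        ring

end Pool.Agent.Helper69.RM
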