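import Pool.Agent.Helper69.RM.St

set_option autoImplicit false

namespace Pool.Agent.Helper69.RM

open Finset

namespace MAIN

/-- elementary consequences of `Par`-type bounds for large `x` -/
theorem large (C : ℝ) : ∃ X : ℕ, ∀ x : ℕ, X ≤ x → 2 ≤ x ∧ 10 ≤ LL x ∧ C + 1 ≤ Real.log x ∧ 1 ≤ Real.log x := by
  have h1 : Filter.Tendsto (fun x : ℕ => Real.log (x : ℝ)) Filter.atTop Filter.atTop :=
    Real.tendsto_log_atTop.comp tendsto_natCast_atTop_atTop
  have h2 : Filter.Tendsto (fun x : ℕ => LL (x : ℝ)) Filter.atTop Filter.atTop :=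
    Real.tendsto_log_atTop.comp h1
  have h3 := (Filter.eventually_ge_atTop 2).and ((h2.eventually_ge_atTop 10).and
    ((h1.eventually_ge_atTop (C + 1)).and (h1.eventually_ge_atTop 1)))
  obtain ⟨X, hX⟩ := Filter.eventually_atTop.mp h3
  exact ⟨X, fun x hx => hX x hx⟩

theorem sum_le_of_subset {ι : Type} {A B : Finset ι} (h : A ⊆ B) (f : ι → ℝ) (hf : ∀ i ∈ B, 0 ≤ f i) :
    ∑ i ∈ A, f i ≤ ∑ i ∈ B, f i :=
  sum_le_sum_of_subset_of_nonneg h fun i hi _ => hf i hi

theorem sum_union_le (A B : Finset ℕ) (f : ℕ → ℝ) (hf : ∀ i ∈ A ∪ B, 0 ≤ f i) :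
    ∑ i ∈ A ∪ B, f i ≤ ∑ i ∈ A, f i + ∑ i ∈ B, f i := by
  rw [← sum_union_inter]
  have : 0 ≤ ∑ i ∈ A ∩ B, f i := sum_nonneg fun i hi => hf i (by
    rw [mem_inter] at hi
    exact mem_union_left _ hi.1)
  linarith

end MAIN

open MAIN in
theorem hMAIN (hPE : StPE) (hPA : StPA) (hPB : StPB) (hPM : StPM) (hPD : StPD) (hSB : StSB) (hSC : StSC)
    (hSD : StSD) (hWIN : StWIN) (hGAP : StGAP) (hCOV : StCOV) (hVB : StVB) : StMAIN := by
  classical
  intro θ h1 h2
  have hθ0 : 0 < θ := (Real.exp_pos _).trans h1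
  have hlam : Real.log (1 / θ) < 1 := by
    rw [one_div, Real.log_inv]
    have := Real.log_lt_log (Real.exp_pos _) h1
    rw [Real.log_exp] at this
    linarith
  have hlam0 : 0 < Real.log (1 / θ) := Real.log_pos (by rw [lt_div_iff₀ hθ0]; linarith)
  set lam := Real.log (1 / θ) with hlamdef
  set η : ℝ := (1 - lam) / 20 with hη
  have hη0 : 0 < η := by rw [hη]; linarith
  have hη1 : η < 1 / 20 := by rw [hη]; linarith
  obtain ⟨C1, hC1, XB, hXB⟩ := hPB θ hθ0 h2
  obtain ⟨δ0, hδ0, hSB'⟩ := hSB θ C1 η hθ0 h2 hC1 hη0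
  set δ : ℝ := min δ0 (min (1 / 2) ((1 - θ) / 2)) with hδ
  have hδpos : 0 < δ := by
    rw [hδ]
    refine lt_min hδ0 (lt_min (by norm_num) (by linarith))
  have hδ1 : δ ≤ δ0 := min_le_left _ _
  have hδ2 : δ ≤ 1 / 2 := (min_le_right _ _).trans (min_le_left _ _)
  have hδ3 : δ ≤ (1 - θ) / 2 := (min_le_right _ _).trans (min_le_right _ _)
  have hδθ : θ < 1 - δ := by linarith
  obtain ⟨XSB, hXSB⟩ := hSB' δ hδpos hδ1 hδ2 hδθ
  obtain ⟨C0, hC0, XSD, hXSD⟩ := hSD θ η hθ0 h2 hη0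
  obtain ⟨XSC, hXSC⟩ := hSC θ η hθ0 h2 hη0
  obtain ⟨XE, hXE⟩ := hPE θ η hθ0 h2 hη0 (by linarith)
  obtain ⟨XA, hXA⟩ := hPA θ δ η hθ0 h2 hδpos (by linarith) hη0 (by linarith)
  obtain ⟨XM, hXM⟩ := hPM θ hθ0 h2
  obtain ⟨XD, hXD⟩ := hPD θ (2 * C0) hθ0 h2 (by linarith)
  obtain ⟨XW, hXW⟩ := hWIN θ δ η hθ0 hδpos hδθ hη0
  obtain ⟨XG, hXG⟩ := hGAP η hη0
  obtain ⟨cV, CV, hcV, hCV, XV, hXV⟩ := hVB θ hθ0 h2
  obtain ⟨XL, hXL⟩ := large C0
  refine ⟨C0, by linarith, XB + XSB + XSD + XSC + XE + XA + XM + XD + XW + XG + XV + XL, ?_⟩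
  intro x hx u hu1 hu2 y hy
  obtain ⟨hx2, hLL, hLC, hL1⟩ := hXL x (by omega)
  set L := Real.log (x : ℝ) with hL
  have hL0 : 0 < L := by linarith
  have hxR : (2 : ℝ) ≤ x := by exact_mod_cast hx2
  have hx0 : (0 : ℝ) < x := by linarith
  have hu243 : (100000 : ℝ) ≤ u := by
    have : (10 : ℝ) ^ 5 ≤ LL x ^ 5 := pow_le_pow_left₀ (by norm_num) hLL 5
    norm_num at this
    linarith
  have hu0 : 0 < u := by linarith
  have huL : u ≤ L := by
    have : u * 1 ≤ u * LL x ^ 2 := by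
      apply mul_le_mul_of_nonneg_left _ hu0.le
      nlinarith
    linarith
  have hlogu1 : 1 ≤ Real.log u := by
    rw [Real.le_log_iff_exp_le hu0]
    have := Real.exp_one_lt_d9
    linarith
  have hloguL : Real.log u ≤ L := (Real.log_le_sub_one_of_pos hu0).trans (by linarith)
  have hlogu0 : 0 < Real.log u := by linarith
  -- the reduced length
  set y0 : ℕ := ⌈C0 * x * L / Real.log u⌉₊ with hy0
  have hy0low : C0 * x * L / Real.log u ≤ y0 := Nat.le_ceil _
  have hy0up : (y0 : ℝ) < C0 * x * L / Real.log u + 1 := Nat.ceil_lt_add_one (by positivity)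
  have hy0y : y0 ≤ y := by
    rw [hy0, Nat.ceil_le, div_le_iff₀ hlogu0]
    exact hy
  have hlow : C0 * x * L ≤ y0 * Real.log u := by
    rwa [div_le_iff₀ hlogu0] at hy0low
  have hxL : (x : ℝ) * L ≤ C0 * x * L := by
    have : 0 ≤ (C0 - 1) * (x * L) := mul_nonneg (by linarith) (by positivity)
    nlinarith
  have hup : (y0 : ℝ) * Real.log u ≤ 2 * C0 * x * L := by
    have h3 : (y0 : ℝ) * Real.log u ≤ (C0 * x * L / Real.log u + 1) * Real.log u :=
      mul_le_mul_of_nonneg_right hy0up.le hlogu0.le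
    have h4 : (C0 * x * L / Real.log u + 1) * Real.log u = C0 * x * L + Real.log u := by
      field_simp
    have h5 : L ≤ x * L := by nlinarith
    nlinarith
  have hxy0 : x ≤ y0 := by
    have h3 : (x : ℝ) * L ≤ y0 * Real.log u := hxL.trans hlow
    have h4 : (y0 : ℝ) * Real.log u ≤ y0 * L := mul_le_mul_of_nonneg_left hloguL (Nat.cast_nonneg _)
    have h5 : (x : ℝ) * L ≤ y0 * L := h3.trans h4
    exact_mod_cast le_of_mul_le_mul_right h5 hL0
  have hy0L2 : (y0 : ℝ) ≤ x * L ^ 2 := by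
    have h3 : C0 * x * L / Real.log u ≤ C0 * x * L := div_le_self (by positivity) hlogu1
    have h5 : 1 ≤ x * L := by nlinarith
    have h6 : (C0 + 1) * (x * L) ≤ L * (x * L) := mul_le_mul_of_nonneg_right hLC (by positivity)
    nlinarith
  have hPar : Par x y0 u := ⟨hu1, hu2, hxy0, hy0L2⟩
  obtain ⟨hV1, hV2, hV3, hV4⟩ := hXV x (by omega) y0 u hPar
  have hVR0 : 0 < VV (RR x u θ) := lt_of_lt_of_le (by positivity) hV1
  have hVP0 : 0 < VV (P0 x u) := lt_of_lt_of_le (by positivity) hV3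
  have hVP : 0 < VP x u θ := mul_pos hVP0 hVR0
  have hy0pos : (0 : ℝ) < y0 := by
    have : (x : ℝ) ≤ y0 := by exact_mod_cast hxy0
    linarith
  -- log z0 ≥ 0
  have hz0 : 0 ≤ Real.log (z0 x u) := by
    unfold z0 zz
    rw [Real.log_div (Real.exp_pos _).ne' (by positivity), Real.log_exp, Real.log_pow]
    have h3 : LL x ^ 2 ≤ L / u := by
      rw [le_div_iff₀ hu0]
      linarith
    have h4 : Real.log L = LL x := rfl
    rw [← hL, h4]
    push_cast
    nlinarith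
  have hz0pos : 0 < z0 x u := by
    unfold z0 zz
    positivity
  have hzz : 0 < zz x u := Real.exp_pos _
  -- covering primes
  set R := RR x u θ with hR
  set Q : Finset ℕ := (PP 1 x).filter (fun p : ℕ => z0 x u < p ∧ p ∉ R) with hQ
  set K : ℕ → ℝ := fun p => if (p : ℝ) ≤ (x : ℝ) ^ (1 - δ) then (1 + η) * VP x u θ * ((y0 : ℝ) / p)
    else if (p : ℝ) * L ^ 8 ≤ y0 then C1 * VV R * ((y0 : ℝ) / p) *
      (1 / Real.log (z0 x u) + LL x ^ 2 / Real.log ((y0 : ℝ) / p))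
    else if (p : ℝ) * Real.sqrt u < x then 8 * (VV R * ((y0 : ℝ) / p + 1)) + 4 * L + 1
    else 13 * L / Real.log u with hK
  have hmemQ : ∀ p ∈ Q, p.Prime ∧ p ≤ x ∧ z0 x u < p ∧ p ∉ R := by
    intro p hp
    rw [hQ, mem_filter, mem_PP zero_le_one] at hp
    exact ⟨hp.1.2.2, by exact_mod_cast hp.1.2.1, hp.2.1, hp.2.2⟩
  have hxpow : (x : ℝ) ^ θ ≤ (x : ℝ) ^ (1 - δ) :=
    Real.rpow_le_rpow_of_exponent_le (by linarith) hδθ.le
  have hsqrt : Real.sqrt x ≤ (x : ℝ) ^ (1 - δ) := by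
    rw [Real.sqrt_eq_rpow]
    exact Real.rpow_le_rpow_of_exponent_le (by linarith) (by linarith)
  -- Claim 1
  have hcl1 : ∀ p ∈ Q, ∀ c : ℕ, Pr R (fun a => ∃ β : ℕ → ℕ,
      K p ≤ ((surv R a (surv (P0 x u) β (AP y0 p c))).card : ℝ)) ≤ 1 / (x : ℝ) ^ 4 := by
    intro p hp c
    obtain ⟨hp1, hp2, hp3, hp4⟩ := hmemQ p hp
    rw [hK]
    dsimp only
    split_ifs with c1 c2 c3
    · exact hXA x (by omega) y0 u hPar p hp1 hp3 hp4 c1 c
    · exact hXB x (by omega) y0 u hPar p hp1 (lt_of_le_of_lt hxpow (not_le.mp c1))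
        (hsqrt.trans (not_le.mp c1).le) hp2 c2 c
    · exact hXM x (by omega) y0 u hPar p hp1 (lt_of_le_of_lt hxpow (not_le.mp c1)) (not_le.mp c2) c
    · exact hXD x (by omega) y0 u hPar hup p hp1 (lt_of_le_of_lt hxpow (not_le.mp c1)) (not_lt.mp c3) c
  -- Claim 3
  have hcl3 : ∑ p ∈ Q, K p ≤ ((1 + η) * (lam + 2 * η) + 3 * η) * (VP x u θ * y0) := by
    rw [hK]
    rw [sum_ite, sum_ite, sum_ite]
    -- piece 1
    have p1 : ∑ p ∈ Q.filter (fun p : ℕ => (p : ℝ) ≤ (x : ℝ) ^ (1 - δ)), (1 + η) * VP x u θ * ((y0 : ℝ) / p) ≤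
        (1 + η) * (lam + 2 * η) * (VP x u θ * y0) := by
      have hsub : Q.filter (fun p : ℕ => (p : ℝ) ≤ (x : ℝ) ^ (1 - δ)) ⊆
          PP (z0 x u) (zz x u) ∪ PP ((x : ℝ) ^ θ) ((x : ℝ) ^ (1 - δ)) := by
        intro p hp
        rw [mem_filter] at hp
        obtain ⟨hp1, hp2, hp3, hp4⟩ := hmemQ p hp.1
        rw [mem_union, mem_PP hz0pos.le, mem_PP (by positivity)]
        by_cases hc : (p : ℝ) ≤ zz x u
        · exact Or.inl ⟨hp3, hc, hp1⟩
        · right
          refine ⟨?_, hp.2, hp1⟩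
          by_contra hcon
          apply hp4
          rw [hR]
          unfold RR
          rw [mem_PP hzz.le]
          exact ⟨not_le.mp hc, not_lt.mp hcon, hp1⟩
      have hs : ∑ p ∈ Q.filter (fun p : ℕ => (p : ℝ) ≤ (x : ℝ) ^ (1 - δ)), 1 / (p : ℝ) ≤ lam + 2 * η := by
        refine (sum_le_of_subset hsub _ (fun i _ => by positivity)).trans ?_
        refine (MAIN.sum_union_le _ _ _ ?_).trans ?_
        · intro i _ ; positivity
        · have g1 := hXG x (by omega) y0 u hPar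
          have g2 := (hXW x (by omega)).1
          unfold SS at g1 g2
          have g3 : Real.log ((1 - δ) / θ) ≤ lam := by
            rw [hlamdef]
            apply Real.log_le_log (div_pos (by linarith) hθ0)
            exact div_le_div_of_nonneg_right (by linarith) hθ0.le
          linarith
      calc ∑ p ∈ Q.filter (fun p : ℕ => (p : ℝ) ≤ (x : ℝ) ^ (1 - δ)), (1 + η) * VP x u θ * ((y0 : ℝ) / p)
          = (1 + η) * (VP x u θ * y0) * ∑ p ∈ Q.filter (fun p : ℕ => (p : ℝ) ≤ (x : ℝ) ^ (1 - δ)), 1 / (p : ℝ) := by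
            rw [mul_sum]
            refine sum_congr rfl fun p _ => ?_
            ring
        _ ≤ (1 + η) * (VP x u θ * y0) * (lam + 2 * η) :=
            mul_le_mul_of_nonneg_left hs (by positivity)
        _ = _ := by ring
    -- piece 2
    have p2 := hXSB x (by omega) y0 u hPar
    have p2' : ∑ p ∈ (Q.filter (fun p : ℕ => ¬ (p : ℝ) ≤ (x : ℝ) ^ (1 - δ))).filter
        (fun p : ℕ => (p : ℝ) * L ^ 8 ≤ y0), C1 * VV R * ((y0 : ℝ) / p) *
        (1 / Real.log (z0 x u) + LL x ^ 2 / Real.log ((y0 : ℝ) / p)) ≤ η * VP x u θ * y0 := by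
      refine le_trans (sum_le_of_subset ?_ _ ?_) p2
      · intro p hp
        rw [mem_filter, mem_filter] at hp
        obtain ⟨hp1, hp2, hp3, hp4⟩ := hmemQ p hp.1.1
        rw [mem_filter, mem_PP (by positivity)]
        exact ⟨⟨not_le.mp hp.1.2, by exact_mod_cast hp2, hp1⟩, hp.2⟩
      · intro p hp
        rw [mem_filter, mem_PP (by positivity)] at hp
        obtain ⟨⟨hp1, hp2, hp3⟩, _⟩ := hp
        have hp0 : (0 : ℝ) < p := by exact_mod_cast hp3.pos
        have hlog : 0 ≤ Real.log ((y0 : ℝ) / p) := by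
          apply Real.log_nonneg
          rw [le_div_iff₀ hp0, one_mul]
          exact hp2.trans (by exact_mod_cast hxy0)
        positivity
    -- piece 3
    have p3 := hXSC x (by omega) y0 u hPar (hxL.trans hlow)
    have p3' : ∑ p ∈ ((Q.filter (fun p : ℕ => ¬ (p : ℝ) ≤ (x : ℝ) ^ (1 - δ))).filter
        (fun p : ℕ => ¬ (p : ℝ) * L ^ 8 ≤ y0)).filter (fun p : ℕ => (p : ℝ) * Real.sqrt u < x),
        (8 * (VV R * ((y0 : ℝ) / p + 1)) + 4 * L + 1) ≤ η * VP x u θ * y0 := by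
      refine le_trans (sum_le_of_subset ?_ _ ?_) p3
      · intro p hp
        rw [mem_filter, mem_filter, mem_filter] at hp
        obtain ⟨⟨⟨hp0, _⟩, hp1⟩, hp2⟩ := hp
        rw [hQ, mem_filter] at hp0
        rw [mem_filter]
        exact ⟨hp0.1, not_le.mp hp1, hp2⟩
      · intro p _
        positivity
    -- piece 4
    have p4 := hXSD x (by omega) y0 u hPar hlow
    have p4' : ∑ p ∈ ((Q.filter (fun p : ℕ => ¬ (p : ℝ) ≤ (x : ℝ) ^ (1 - δ))).filter
        (fun p : ℕ => ¬ (p : ℝ) * L ^ 8 ≤ y0)).filter (fun p : ℕ => ¬ (p : ℝ) * Real.sqrt u < x),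
        13 * L / Real.log u ≤ η * VP x u θ * y0 := by
      refine le_trans (sum_le_of_subset ?_ _ ?_) p4
      · intro p hp
        rw [mem_filter, mem_filter, mem_filter] at hp
        obtain ⟨⟨⟨hp0, _⟩, _⟩, _⟩ := hp
        rw [hQ, mem_filter] at hp0
        exact hp0.1
      · intro p _
        positivity
    calc _ ≤ (1 + η) * (lam + 2 * η) * (VP x u θ * y0) + (η * VP x u θ * y0 + (η * VP x u θ * y0 +
            η * VP x u θ * y0)) := by
          gcongr
      _ = _ := by ring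
  -- Claim 2
  have hcl2 : ∀ a ∈ CH R, (∃ b : ℕ → ℕ, (∀ s ∈ R, b s = a s) ∧ Cov x y b) →
      ((∃ β : ℕ → ℕ, ((surv R a (surv (P0 x u) β (Icc 1 y0))).card : ℝ) ≤ (1 - η) * VP x u θ * y0) ∨
      ∃ p ∈ Q, ∃ c ∈ range p, ∃ β : ℕ → ℕ, K p ≤ ((surv R a (surv (P0 x u) β (AP y0 p c))).card : ℝ)) := by
    rintro a _ ⟨b, hba, hcov⟩
    by_contra hcon
    rw [not_or] at hcon
    obtain ⟨hc1, hc2⟩ := hcon
    push Not at hc1 hc2
    have hcov0 : Cov x y0 b := fun m hm1 hm2 => hcov m hm1 (hm2.trans hy0y)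
    have hab : ∀ W, surv R b W = surv R a W := fun W =>
      surv_congr (fun s hs => by rw [hba s hs]) W
    have hstep := hCOV x y0 b (P0 x u) R Q (by
      intro p hp hpx
      by_cases hz : (p : ℝ) ≤ z0 x u
      · left
        unfold P0
        rw [mem_PP zero_le_one]
        exact ⟨by exact_mod_cast hp.one_lt, hz, hp⟩
      · by_cases hpR : p ∈ R
        · exact Or.inr (Or.inl hpR)
        · right; right
          rw [hQ, mem_filter, mem_PP zero_le_one]
          exact ⟨⟨by exact_mod_cast hp.one_lt, by exact_mod_cast hpx, hp⟩, not_le.mp hz, hpR⟩) hcov0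
    rw [hab] at hstep
    have hstep' : ((surv R a (surv (P0 x u) b (Icc 1 y0))).card : ℝ) ≤
        ∑ p ∈ Q, ((surv R a (surv (P0 x u) b (AP y0 p (b p)))).card : ℝ) := by
      have : ∀ p ∈ Q, (surv R b (surv (P0 x u) b (AP y0 p (b p)))).card =
          (surv R a (surv (P0 x u) b (AP y0 p (b p)))).card := fun p _ => by rw [hab]
      rw [sum_congr rfl this] at hstep
      exact_mod_cast hstep
    have hle : ∑ p ∈ Q, ((surv R a (surv (P0 x u) b (AP y0 p (b p)))).card : ℝ) ≤ ∑ p ∈ Q, K p := by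
      refine sum_le_sum fun p hp => ?_
      obtain ⟨hp1, _, _, _⟩ := hmemQ p hp
      have hAP : AP y0 p (b p) = AP y0 p (b p % p) := by
        ext m
        rw [mem_AP, mem_AP]
        have : (b p) % p ≡ b p [MOD p] := Nat.mod_modEq _ _
        constructor
        · rintro ⟨g1, g2, g3⟩
          exact ⟨g1, g2, g3.trans this.symm⟩
        · rintro ⟨g1, g2, g3⟩
          exact ⟨g1, g2, g3.trans this⟩
      rw [hAP]
      exact (hc2 p hp (b p % p) (mem_range.mpr (Nat.mod_lt _ hp1.pos)) b).le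
    have hfinal : (1 - η) * VP x u θ * y0 < ((1 + η) * (lam + 2 * η) + 3 * η) * (VP x u θ * y0) :=
      lt_of_lt_of_le (hc1 b) (hstep'.trans (hle.trans hcl3))
    have hVy : 0 < VP x u θ * y0 := mul_pos hVP hy0pos
    have hcoef : (1 + η) * (lam + 2 * η) + 3 * η ≤ 1 - η := by
      have : lam = 1 - 20 * η := by rw [hη]; ring
      rw [this]
      nlinarith
    nlinarith
  -- probability
  refine (Pr_mono hcl2).trans ((Pr_or_le _ _).trans ?_)
  have hE := hXE x (by omega) y0 u hPar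
  have hsum : Pr R (fun a => ∃ p ∈ Q, ∃ c ∈ range p, ∃ β : ℕ → ℕ,
      K p ≤ ((surv R a (surv (P0 x u) β (AP y0 p c))).card : ℝ)) ≤ 1 / (x : ℝ) ^ 2 := by
    refine (Pr_exists_le Q _).trans ?_
    have hb : ∀ p ∈ Q, Pr R (fun a => ∃ c ∈ range p, ∃ β : ℕ → ℕ,
        K p ≤ ((surv R a (surv (P0 x u) β (AP y0 p c))).card : ℝ)) ≤ x * (1 / (x : ℝ) ^ 4) := by
      intro p hp
      refine (Pr_exists_le (range p) _).trans ?_
      refine (sum_le_sum fun c _ => hcl1 p hp c).trans ?_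
      rw [sum_const, card_range, nsmul_eq_mul]
      apply mul_le_mul_of_nonneg_right _ (by positivity)
      exact_mod_cast (hmemQ p hp).2.1
    refine (sum_le_sum hb).trans ?_
    rw [sum_const, nsmul_eq_mul]
    have hcard : Q.card ≤ x := by
      have : Q ⊆ Icc 1 x := by
        intro p hp
        obtain ⟨hp1, hp2, _, _⟩ := hmemQ p hp
        rw [mem_Icc]
        exact ⟨hp1.one_lt.le, hp2⟩
      exact (card_le_card this).trans (by simp)
    calc (Q.card : ℝ) * (x * (1 / (x : ℝ) ^ 4)) ≤ x * (x * (1 / (x : ℝ) ^ 4)) := by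
          apply mul_le_mul_of_nonneg_right _ (by positivity)
          exact_mod_cast hcard
      _ = 1 / (x : ℝ) ^ 2 := by
          field_simp
  calc _ ≤ 1 / (x : ℝ) ^ 4 + 1 / (x : ℝ) ^ 2 := add_le_add hE hsum
    _ ≤ 1 / x := by
        rw [div_add_div _ _ (by positivity) (by positivity), div_le_div_iff₀ (by positivity) hx0]
        have : (x : ℝ) ^ 3 ≥ 2 * x ^ 2 := by nlinarith [pow_pos hx0 2]
        nlinarith [pow_pos hx0 2, pow_pos hx0 3, pow_pos hx0 4]

end Pool.Agent.Helper69.RM
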