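import Pool.Agent.Helper69.RM.St

set_option autoImplicit false

/-! Project RM (helper69), MP_924f75_nt, module PA (helper73): covering primes up to `x^(1-δ)`. -/

namespace Pool.Agent.Helper69.RM

open Finset Filter

namespace PA

theorem tendsto_LL : Tendsto (fun x : ℕ => LL (x : ℝ)) atTop atTop :=
  Real.tendsto_log_atTop.comp (Real.tendsto_log_atTop.comp tendsto_natCast_atTop_atTop)

theorem eventually_LL_le (M : ℝ) (hM : 0 < M) : ∀ᶠ x : ℕ in atTop, M * LL (x : ℝ) ≤ Real.log x := by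
  have h1 : ∀ᶠ y : ℝ in atTop, ‖Real.log y‖ ≤ (1 / M) * ‖y‖ :=
    Real.isLittleO_log_id_atTop.bound (by positivity)
  have h2 : Tendsto (fun x : ℕ => Real.log (x : ℝ)) atTop atTop :=
    Real.tendsto_log_atTop.comp tendsto_natCast_atTop_atTop
  filter_upwards [h2.eventually h1, h2.eventually_ge_atTop 0] with x hx hx0
  rw [Real.norm_eq_abs, Real.norm_eq_abs, abs_of_nonneg hx0] at hx
  have h3 : LL (x : ℝ) ≤ (1 / M) * Real.log x := le_trans (le_abs_self _) hx
  calc M * LL (x : ℝ) ≤ M * ((1 / M) * Real.log x) := mul_le_mul_of_nonneg_left h3 hM.le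
    _ = Real.log x := by field_simp

/-- a class modulo `s` inside the progression -/
theorem class_le (hAPC : StAPC) {y q c : ℕ} {β : ℕ → ℕ} {P : Finset ℕ} {s : ℕ} (hq : q.Prime) (hs : s.Prime)
    (hsq : s ≠ q) (c' : ℕ) :
    (((surv P β (AP y q c)).filter (fun m => m ≡ c' [MOD s])).card : ℝ) ≤ (y : ℝ) / q / s + 1 := by
  have hnd : ¬ s ∣ q := by
    intro h
    rcases (Nat.dvd_prime hq).mp h with h1 | h1
    · exact hs.one_lt.ne' h1
    · exact hsq h1
  have h := hAPC y q c {s} (fun _ => c') hq.one_lt.le (by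
    intro t ht
    rw [mem_singleton] at ht
    subst ht
    exact ⟨hs, hnd⟩)
  rw [prod_singleton] at h
  have hsub : (surv P β (AP y q c)).filter (fun m => m ≡ c' [MOD s]) ⊆
      (AP y q c).filter (fun m => ∀ t ∈ ({s} : Finset ℕ), m ≡ (fun _ => c') t [MOD t]) := by
    intro m hm
    rw [mem_filter, mem_surv] at hm
    rw [mem_filter]
    refine ⟨hm.1.1, fun t ht => ?_⟩
    rw [mem_singleton] at ht
    subst ht
    exact hm.2
  have h2 : (((surv P β (AP y q c)).filter (fun m => m ≡ c' [MOD s])).card : ℝ) ≤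
      (((AP y q c).filter (fun m => ∀ t ∈ ({s} : Finset ℕ), m ≡ (fun _ => c') t [MOD t])).card : ℝ) := by
    exact_mod_cast card_le_card hsub
  have h3 := (abs_le.mp h).2
  have h4 : (y : ℝ) / (q * (s : ℝ)) = (y : ℝ) / q / s := by rw [div_div]
  rw [h4] at h3
  linarith

/-- the arithmetic of the parameters -/
theorem params {x y : ℕ} {u δ : ℝ} (hδ0 : 0 < δ) (hPar : Par x y u) (hl6 : 6 ≤ LL (x : ℝ))
    (hlδ : 4 / δ ≤ LL (x : ℝ)) (hδ1 : δ < 1) :
    0 < Real.log x ∧ 7 ≤ Real.log x ∧ 1 < (x : ℝ) ∧ 0 < u ∧ Real.log x ^ 6 ≤ zz x u ∧ 2 ≤ z0 x u ∧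
    Real.log (z0 x u) ≤ Real.log x / u ∧ Real.log x / u * (4 * LL (x : ℝ) ^ 2) ≤ δ * Real.log x ∧
    zz x u ≤ (x : ℝ) ^ δ ∧ 1 ≤ δ * Real.log x ∧ 2 * LL (x : ℝ) ≤ Real.log x ∧ 1 ≤ u := by
  obtain ⟨hu1, hu2, hxy, hyx⟩ := hPar
  have hl0 : 0 < LL (x : ℝ) := by linarith
  have hL0 : 0 < Real.log x := by
    by_contra hcon
    rw [not_lt] at hcon
    rcases Nat.eq_zero_or_pos x with h | h
    · subst h
      unfold LL at hl0
      simp at hl0
    · have : 0 ≤ Real.log (x : ℝ) := Real.log_nonneg (by exact_mod_cast h)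
      have h0 : Real.log (x : ℝ) = 0 := le_antisymm hcon this
      unfold LL at hl0
      rw [h0] at hl0
      simp at hl0
  have hLe : Real.exp (LL (x : ℝ)) = Real.log x := by
    unfold LL
    exact Real.exp_log hL0
  have hL7 : 7 ≤ Real.log (x : ℝ) := by
    have := Real.add_one_le_exp (LL (x : ℝ))
    rw [hLe] at this
    linarith
  have hx1 : 1 < (x : ℝ) := by
    by_contra hcon
    rw [not_lt] at hcon
    have := Real.log_nonpos (Nat.cast_nonneg x) hcon
    linarith
  have hx0 : (0 : ℝ) < x := by linarith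
  have hl5 : LL (x : ℝ) ≤ LL (x : ℝ) ^ 5 := by
    have : LL (x : ℝ) ^ 1 ≤ LL (x : ℝ) ^ 5 := pow_le_pow_right₀ (by linarith) (by norm_num)
    simpa using this
  have hu0 : 0 < u := by linarith
  have hu1' : 1 ≤ u := by linarith
  have h1 : LL (x : ℝ) ^ 2 ≤ Real.log x / u := by
    rw [le_div_iff₀ hu0]
    linarith [mul_comm u (LL (x : ℝ) ^ 2)]
  have h2 : Real.log x ^ 6 ≤ zz x u := by
    unfold zz
    rw [← hLe, ← Real.exp_nat_mul]
    apply Real.exp_le_exp.mpr
    rw [hLe]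
    push_cast
    nlinarith
  have hz0 : 2 ≤ z0 x u := by
    unfold z0
    rw [le_div_iff₀ (by positivity)]
    have : (2 : ℝ) * Real.log x ^ 5 ≤ Real.log x ^ 6 := by
      have h5 : 0 < Real.log (x : ℝ) ^ 5 := by positivity
      nlinarith
    linarith
  have hlogz0 : Real.log (z0 x u) ≤ Real.log x / u := by
    have hz : z0 x u ≤ zz x u := by
      unfold z0
      apply div_le_self
      · unfold zz
        positivity
      · exact one_le_pow₀ (by linarith)
    calc Real.log (z0 x u) ≤ Real.log (zz x u) := Real.log_le_log (by linarith) hz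
      _ = Real.log x / u := by
        unfold zz
        rw [Real.log_exp]
  have h3 : Real.log x / u * (4 * LL (x : ℝ) ^ 2) ≤ δ * Real.log x := by
    have h4 : 4 ≤ δ * LL (x : ℝ) := by
      rw [div_le_iff₀ hδ0] at hlδ
      linarith
    have h5 : 4 * LL (x : ℝ) ^ 2 ≤ δ * u := by
      have h6 : LL (x : ℝ) ^ 3 ≤ u := by
        refine le_trans ?_ hu1
        exact pow_le_pow_right₀ (by linarith) (by norm_num)
      calc 4 * LL (x : ℝ) ^ 2 ≤ (δ * LL (x : ℝ)) * LL (x : ℝ) ^ 2 :=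
            mul_le_mul_of_nonneg_right h4 (by positivity)
        _ = δ * LL (x : ℝ) ^ 3 := by ring
        _ ≤ δ * u := mul_le_mul_of_nonneg_left h6 hδ0.le
    calc Real.log x / u * (4 * LL (x : ℝ) ^ 2) ≤ Real.log x / u * (δ * u) :=
          mul_le_mul_of_nonneg_left h5 (by positivity)
      _ = δ * Real.log x := by
        field_simp
  have h7 : zz x u ≤ (x : ℝ) ^ δ := by
    unfold zz
    rw [Real.rpow_def_of_pos hx0]
    apply Real.exp_le_exp.mpr
    rw [div_le_iff₀ hu0]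
    have h8 : 1 ≤ δ * u := by
      have h9 : 4 / δ ≤ u := by linarith
      rw [div_le_iff₀ hδ0] at h9
      linarith
    nlinarith
  have h10 : 1 ≤ δ * Real.log x := by
    have h11 : LL (x : ℝ) + 1 ≤ Real.log x := by
      have := Real.add_one_le_exp (LL (x : ℝ))
      rwa [hLe] at this
    have h9 : 4 / δ ≤ Real.log x := by linarith
    rw [div_le_iff₀ hδ0] at h9
    linarith
  have h12 : 2 * LL (x : ℝ) ≤ Real.log x := by
    have h13 := Real.quadratic_le_exp_of_nonneg hl0.le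
    rw [hLe] at h13
    nlinarith
  exact ⟨hL0, hL7, hx1, hu0, h2, hz0, hlogz0, h3, h7, h10, h12, hu1'⟩

end PA

theorem hPA (hTU : StTU) (hUP : StUP) (hAPC : StAPC) (hBA : StBA) (hVB : StVB) (hSL : StSL) : StPA := by
  intro θ δ η hθ0 hθ1 hδ0 hδ1 hη0 hη1
  obtain ⟨H0, hH0, hBA⟩ := hBA (η / 8) (by positivity)
  obtain ⟨c0, C0, hc0, hC0, X1, hVB⟩ := hVB θ hθ0 hθ1
  obtain ⟨C1, hC1, hSL⟩ := hSL
  have hev : ∀ᶠ x : ℕ in atTop, 6 ≤ LL (x : ℝ) ∧ C1 ≤ LL (x : ℝ) ∧ 4 / δ ≤ LL (x : ℝ) ∧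
      (128 / (η ^ 2 * c0 ^ 2)) * LL (x : ℝ) ≤ Real.log x ∧ H0 ≤ (x : ℝ) ^ δ ∧ X1 ≤ x ∧ 3 ≤ x := by
    have hr : Tendsto (fun x : ℕ => (x : ℝ) ^ δ) atTop atTop :=
      (tendsto_rpow_atTop hδ0).comp tendsto_natCast_atTop_atTop
    filter_upwards [PA.tendsto_LL.eventually_ge_atTop 6, PA.tendsto_LL.eventually_ge_atTop C1,
      PA.tendsto_LL.eventually_ge_atTop (4 / δ), PA.eventually_LL_le (128 / (η ^ 2 * c0 ^ 2)) (by positivity),
      hr.eventually_ge_atTop H0, eventually_ge_atTop X1, eventually_ge_atTop 3] with x h1 h2 h3 h4 h5 h6 h7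
    exact ⟨h1, h2, h3, h4, h5, h6, h7⟩
  obtain ⟨X, hX⟩ := eventually_atTop.mp hev
  refine ⟨X, fun x hx y u hPar p hp hz0p hpR hpx c => ?_⟩
  obtain ⟨hl6, hlC, hlδ, hLl, hxH, hxX1, hx3⟩ := hX x hx
  obtain ⟨hL0, hL7, hx1, hu0, hz6, hz02, hlogz0, h4l, hzx, hδL, h2l, hu1⟩ := PA.params hδ0 hPar hl6 hlδ hδ1
  have hVBx := hVB x hxX1 y u hPar
  obtain ⟨hV1, hV2, hV3, hV4⟩ := hVBx
  obtain ⟨hPu1, hPu2, hxy, hyx⟩ := hPar
  have hx0 : (0 : ℝ) < x := by linarith
  have hl0 : 0 < LL (x : ℝ) := by linarith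
  have hp0 : (0 : ℝ) < p := by exact_mod_cast hp.pos
  have hxy' : (x : ℝ) ≤ y := by exact_mod_cast hxy
  have hy0 : (0 : ℝ) < y := by linarith
  -- the number H
  have hHlow : (x : ℝ) ^ δ ≤ (y : ℝ) / p := by
    rw [le_div_iff₀ hp0]
    calc (x : ℝ) ^ δ * p ≤ (x : ℝ) ^ δ * (x : ℝ) ^ (1 - δ) :=
          mul_le_mul_of_nonneg_left hpx (by positivity)
      _ = x := by
        rw [← Real.rpow_add hx0]
        simp
      _ ≤ y := hxy'
  have hH0' : (0 : ℝ) < (y : ℝ) / p := by positivity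
  have hzH : zz x u ≤ (y : ℝ) / p := hzx.trans hHlow
  have hlogH1 : δ * Real.log x ≤ Real.log ((y : ℝ) / p) := by
    rw [← Real.log_rpow hx0]
    exact Real.log_le_log (by positivity) hHlow
  have hlogH2 : Real.log ((y : ℝ) / p) ≤ 2 * Real.log x := by
    have h1 : (y : ℝ) / p ≤ y := div_le_self hy0.le (by exact_mod_cast hp.one_lt.le)
    calc Real.log ((y : ℝ) / p) ≤ Real.log (x * Real.log x ^ 2) :=
          Real.log_le_log hH0' (h1.trans hyx)
      _ = Real.log x + 2 * LL (x : ℝ) := by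
        rw [Real.log_mul hx0.ne' (by positivity), Real.log_pow]
        unfold LL
        push_cast
        ring
      _ ≤ _ := by linarith
  have hLLH0 : 0 ≤ LL ((y : ℝ) / p) := by
    unfold LL
    exact Real.log_nonneg (by linarith)
  have hLLH1 : LL ((y : ℝ) / p) ≤ 2 * LL (x : ℝ) := by
    unfold LL
    calc Real.log (Real.log ((y : ℝ) / p)) ≤ Real.log (2 * Real.log x) :=
          Real.log_le_log (by linarith) hlogH2
      _ = Real.log 2 + Real.log (Real.log x) := Real.log_mul (by norm_num) hL0.ne'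
      _ ≤ 2 * Real.log (Real.log x) := by
        have h1 : Real.log 2 ≤ 1 := by
          have := Real.log_two_lt_d9
          linarith
        have h2 : 6 ≤ Real.log (Real.log (x : ℝ)) := hl6
        linarith
  have hLLsq : LL ((y : ℝ) / p) ^ 2 ≤ 4 * LL (x : ℝ) ^ 2 := by nlinarith
  have hBAc : Real.log (z0 x u) * LL ((y : ℝ) / p) ^ 2 ≤ Real.log ((y : ℝ) / p) := by
    calc Real.log (z0 x u) * LL ((y : ℝ) / p) ^ 2 ≤ Real.log x / u * (4 * LL (x : ℝ) ^ 2) := by
          apply mul_le_mul hlogz0 hLLsq (sq_nonneg _) (by positivity)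
      _ ≤ δ * Real.log x := h4l
      _ ≤ _ := hlogH1
  -- the set R
  have hRprime : ∀ s ∈ RR x u θ, zz x u < s ∧ s.Prime := by
    intro s hs
    unfold RR at hs
    rw [mem_PP (by unfold zz; positivity)] at hs
    exact ⟨hs.1, hs.2.2⟩
  have hz0lt : z0 x u ≤ zz x u := by
    unfold z0
    apply div_le_self
    · unfold zz
      positivity
    · exact one_le_pow₀ (by linarith)
  have hzpos : 0 < zz x u := by
    unfold zz
    positivity
  have hSS : SS (RR x u θ) ≤ 2 * LL (x : ℝ) := by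
    have h1 : SS (RR x u θ) ≤ SS (PP 1 x) := by
      unfold SS
      apply sum_le_sum_of_subset_of_nonneg
      · intro s hs
        unfold RR at hs
        rw [mem_PP hzpos.le] at hs
        rw [mem_PP (by norm_num)]
        refine ⟨by exact_mod_cast hs.2.2.one_lt, hs.2.1.trans ?_, hs.2.2⟩
        calc (x : ℝ) ^ θ ≤ (x : ℝ) ^ (1 : ℝ) := Real.rpow_le_rpow_of_exponent_le hx1.le hθ1.le
          _ = x := Real.rpow_one _
      · intro s _ _
        positivity
    have h2 := hSL x (by exact_mod_cast hx3)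
    linarith
  -- the parameters of the tail bound
  have hη1' : 0 < η / (64 * LL (x : ℝ)) := by positivity
  have hη1'' : η / (64 * LL (x : ℝ)) ≤ 1 := by
    rw [div_le_one (by positivity)]
    linarith
  have hb : 0 < 2 * ((y : ℝ) / p) / zz x u := by positivity
  have hVR0 : 0 < VV (RR x u θ) := lt_of_lt_of_le (by positivity) hV1
  have hVP0 : 0 < VV (P0 x u) := lt_of_lt_of_le (by positivity) hV3
  have hVP : c0 ^ 2 / Real.log x ≤ VP x u θ := by
    unfold VP
    calc c0 ^ 2 / Real.log x = (c0 * u / Real.log x) * (c0 / u) := by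
          field_simp
      _ ≤ VV (P0 x u) * VV (RR x u θ) := mul_le_mul hV3 hV1 (by positivity) hVP0.le
  have hVPpos : 0 < VP x u θ := lt_of_lt_of_le (by positivity) hVP
  -- fixed β
  have hfix : ∀ β : ℕ → ℕ, Pr (RR x u θ) (fun a => (1 + η) * VP x u θ * ((y : ℝ) / p) ≤
      ((surv (RR x u θ) a (surv (PP 1 (z0 x u)) β (AP y p c))).card : ℝ)) ≤
      Real.exp (-(zz x u / Real.log x ^ 2)) := by
    intro β
    have hW := hBA y p c β (z0 x u) hp.one_lt.le hz02 (by
      intro s hs hdvd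
      rw [mem_PP (by norm_num)] at hs
      rcases (Nat.dvd_prime hp).mp hdvd with h1 | h1
      · exact hs.2.2.one_lt.ne' h1
      · subst h1
        exact absurd hs.2.1 (not_le.mpr hz0p)) (hxH.trans hHlow) hBAc
    have hWle := (abs_le.mp hW).2
    have hW2 : ((surv (PP 1 (z0 x u)) β (AP y p c)).card : ℝ) ≤ (1 + η / 8) * (VV (P0 x u) * ((y : ℝ) / p)) := by
      change _ ≤ (1 + η / 8) * (VV (PP 1 (z0 x u)) * ((y : ℝ) / p))
      linarith
    refine (hTU (RR x u θ) (surv (PP 1 (z0 x u)) β (AP y p c)) (2 * ((y : ℝ) / p) / zz x u)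
      (η / (64 * LL (x : ℝ))) ((1 + η) * VP x u θ * ((y : ℝ) / p)) ?_ hb hη1' hη1'' ?_).trans ?_
    · intro s hs
      exact (hRprime s hs).2.two_le
    · intro s hs c'
      obtain ⟨hs1, hs2⟩ := hRprime s hs
      have hsp : s ≠ p := by
        intro h
        subst h
        exact hpR hs
      refine (PA.class_le hAPC hp hs2 hsp c').trans ?_
      have h1 : (y : ℝ) / p / s ≤ (y : ℝ) / p / zz x u :=
        div_le_div_of_nonneg_left hH0'.le hzpos hs1.le
      have h2 : 1 ≤ (y : ℝ) / p / zz x u := by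
        rw [le_div_iff₀ hzpos]
        linarith
      calc (y : ℝ) / p / s + 1 ≤ (y : ℝ) / p / zz x u + (y : ℝ) / p / zz x u := add_le_add h1 h2
        _ = 2 * ((y : ℝ) / p) / zz x u := by ring
    · apply Real.exp_le_exp.mpr
      rw [neg_le_neg_iff]
      have hexp : Real.exp (2 * (η / (64 * LL (x : ℝ))) * SS (RR x u θ)) ≤ 1 + η / 8 := by
        have h1 : 2 * (η / (64 * LL (x : ℝ))) * SS (RR x u θ) ≤ η / 16 := by
          calc 2 * (η / (64 * LL (x : ℝ))) * SS (RR x u θ) ≤ 2 * (η / (64 * LL (x : ℝ))) * (2 * LL (x : ℝ)) :=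
                mul_le_mul_of_nonneg_left hSS (by positivity)
            _ = η / 16 := by
              field_simp
              ring
        calc Real.exp (2 * (η / (64 * LL (x : ℝ))) * SS (RR x u θ)) ≤ Real.exp (η / 16) := Real.exp_le_exp.mpr h1
          _ ≤ 1 + η / 16 + (η / 16) ^ 2 := by
            have h3 := Real.abs_exp_sub_one_sub_id_le (x := η / 16) (by rw [abs_of_pos (by positivity)]; linarith)
            have h4 := (abs_le.mp h3).2
            linarith
          _ ≤ 1 + η / 8 := by nlinarith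
      have hmain : ((surv (PP 1 (z0 x u)) β (AP y p c)).card : ℝ) * VV (RR x u θ) *
          Real.exp (2 * (η / (64 * LL (x : ℝ))) * SS (RR x u θ)) ≤ (1 + η / 2) * VP x u θ * ((y : ℝ) / p) := by
        calc ((surv (PP 1 (z0 x u)) β (AP y p c)).card : ℝ) * VV (RR x u θ) *
              Real.exp (2 * (η / (64 * LL (x : ℝ))) * SS (RR x u θ))
            ≤ ((1 + η / 8) * (VV (P0 x u) * ((y : ℝ) / p))) * VV (RR x u θ) * (1 + η / 8) := by
              apply mul_le_mul _ hexp (Real.exp_pos _).le (by positivity)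
              exact mul_le_mul_of_nonneg_right hW2 hVR0.le
          _ = (1 + η / 8) ^ 2 * (VP x u θ * ((y : ℝ) / p)) := by
            unfold VP
            ring
          _ ≤ (1 + η / 2) * (VP x u θ * ((y : ℝ) / p)) := by
            apply mul_le_mul_of_nonneg_right _ (by positivity)
            nlinarith
          _ = _ := by ring
      have hdiff : η / 2 * (VP x u θ * ((y : ℝ) / p)) ≤ (1 + η) * VP x u θ * ((y : ℝ) / p) -
          ((surv (PP 1 (z0 x u)) β (AP y p c)).card : ℝ) * VV (RR x u θ) *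
          Real.exp (2 * (η / (64 * LL (x : ℝ))) * SS (RR x u θ)) := by
        have e1 : (1 + η) * VP x u θ * ((y : ℝ) / p) = (1 + η / 2) * VP x u θ * ((y : ℝ) / p) +
            η / 2 * (VP x u θ * ((y : ℝ) / p)) := by ring
        rw [e1]
        linarith
      have hcoef : 0 < 2 * (η / (64 * LL (x : ℝ))) / (2 * ((y : ℝ) / p) / zz x u) := by positivity
      refine le_trans ?_ (mul_le_mul_of_nonneg_left hdiff hcoef.le)
      have e2 : 2 * (η / (64 * LL (x : ℝ))) / (2 * ((y : ℝ) / p) / zz x u) * (η / 2 * (VP x u θ * ((y : ℝ) / p))) =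
          η ^ 2 / (128 * LL (x : ℝ)) * VP x u θ * zz x u := by
        have hpne : (p : ℝ) ≠ 0 := hp0.ne'
        have hyne : (y : ℝ) ≠ 0 := hy0.ne'
        have hlne : LL (x : ℝ) ≠ 0 := hl0.ne'
        have hzne : zz x u ≠ 0 := hzpos.ne'
        field_simp
        ring
      rw [e2]
      have h5 : 1 / Real.log x ^ 2 ≤ η ^ 2 / (128 * LL (x : ℝ)) * VP x u θ := by
        calc 1 / Real.log x ^ 2 ≤ η ^ 2 / (128 * LL (x : ℝ)) * (c0 ^ 2 / Real.log x) := by
              rw [div_mul_div_comm, div_le_div_iff₀ (by positivity) (by positivity)]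
              have h6 : 128 * LL (x : ℝ) ≤ Real.log x * (η ^ 2 * c0 ^ 2) := by
                rw [div_mul_eq_mul_div, div_le_iff₀ (by positivity)] at hLl
                exact hLl
              calc 1 * (128 * LL (x : ℝ) * Real.log x) = 128 * LL (x : ℝ) * Real.log x := by ring
                _ ≤ Real.log x * (η ^ 2 * c0 ^ 2) * Real.log x := mul_le_mul_of_nonneg_right h6 hL0.le
                _ = η ^ 2 * c0 ^ 2 * Real.log x ^ 2 := by ring
          _ ≤ _ := mul_le_mul_of_nonneg_left hVP (by positivity)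
      calc zz x u / Real.log x ^ 2 = (1 / Real.log x ^ 2) * zz x u := by ring
        _ ≤ _ := mul_le_mul_of_nonneg_right h5 hzpos.le
  have hfin := hUP (z0 x u) (RR x u θ) (AP y p c)
    (fun S => (1 + η) * VP x u θ * ((y : ℝ) / p) ≤ (S.card : ℝ))
    (Real.exp (-(zz x u / Real.log x ^ 2))) (by linarith) (Real.exp_pos _).le hfix
  refine hfin.trans ?_
  rw [← Real.exp_add]
  have hx4 : 1 / (x : ℝ) ^ 4 = Real.exp (-(4 * Real.log x)) := by
    rw [Real.exp_neg, one_div]
    congr 1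
    have h1 : (4 : ℝ) * Real.log x = ((4 : ℕ) : ℝ) * Real.log x := by norm_num
    rw [h1, Real.exp_nat_mul, Real.exp_log hx0]
  rw [hx4]
  apply Real.exp_le_exp.mpr
  -- 2 z0 - z / L^2 ≤ -4 L
  have h7 : 2 * z0 x u = zz x u / Real.log x ^ 2 * (2 / Real.log x ^ 3) := by
    unfold z0
    field_simp
  have h8 : 2 / Real.log (x : ℝ) ^ 3 ≤ 1 / 2 := by
    rw [div_le_div_iff₀ (by positivity) (by norm_num)]
    have h9 : (7 : ℝ) ^ 3 ≤ Real.log (x : ℝ) ^ 3 := pow_le_pow_left₀ (by norm_num) hL7 3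
    linarith
  have h10 : Real.log (x : ℝ) ^ 4 ≤ zz x u / Real.log x ^ 2 := by
    rw [le_div_iff₀ (by positivity)]
    calc Real.log (x : ℝ) ^ 4 * Real.log x ^ 2 = Real.log x ^ 6 := by ring
      _ ≤ _ := hz6
  have h11 : 8 * Real.log (x : ℝ) ≤ Real.log x ^ 4 := by
    have h12 : (7 : ℝ) ^ 3 ≤ Real.log (x : ℝ) ^ 3 := pow_le_pow_left₀ (by norm_num) hL7 3
    nlinarith
  have h13 : 2 * z0 x u ≤ zz x u / Real.log x ^ 2 * (1 / 2) := by
    rw [h7]
    exact mul_le_mul_of_nonneg_left h8 (by positivity)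
  linarith

end Pool.Agent.Helper69.RM
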