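import Pool.Agent.Helper69.RM.St

set_option autoImplicit false

namespace Pool.Agent.Helper69.RM

open Finset

/-- `LL x` is large for large `x` -/
private theorem LL_large_PB (M : ℝ) : ∃ X : ℕ, ∀ x : ℕ, X ≤ x → M ≤ LL x := by
  obtain ⟨X, hX⟩ := exists_nat_ge (Real.exp (Real.exp M))
  refine ⟨X, fun x hx => ?_⟩
  have h1 : Real.exp (Real.exp M) ≤ x := hX.trans (by exact_mod_cast hx)
  have hx0 : (0 : ℝ) < x := lt_of_lt_of_le (Real.exp_pos _) h1
  have h2 : Real.exp M ≤ Real.log x := (Real.le_log_iff_exp_le hx0).mpr h1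
  have h3 : 0 < Real.log x := lt_of_lt_of_le (Real.exp_pos _) h2
  unfold LL
  exact (Real.le_log_iff_exp_le h3).mpr h2

private theorem pow_exp_PB (l : ℝ) (n : ℕ) : Real.exp l ^ n = Real.exp (n * l) := by
  rw [← Real.exp_nat_mul]

/-- `2 w - min(H,z)/L² ≤ -4 L` -/
private theorem fin_PB {L z H w : ℝ} (hL : 4 ≤ L) (hz : L ^ 10 ≤ z) (hH : L ^ 8 ≤ H) (hw1 : w ≤ z / L ^ 5)
    (hw2 : w ^ 4 ≤ H) (hw0 : 0 ≤ w) : 2 * w - min H z / L ^ 2 ≤ -(4 * L) := by
  have hL0 : 0 < L := by linarith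
  rcases le_total z H with h | h
  · rw [min_eq_right h]
    have hz0 : 0 < z := lt_of_lt_of_le (by positivity) hz
    have h1 : z / L ^ 5 ≤ z / L ^ 2 / 4 := by
      rw [div_div, div_le_div_iff₀ (by positivity) (by positivity)]
      have h2 : L ^ 2 * 4 ≤ L ^ 5 := by
        calc L ^ 2 * 4 ≤ L ^ 2 * L := mul_le_mul_of_nonneg_left hL (by positivity)
          _ = L ^ 3 := by ring
          _ ≤ L ^ 5 := pow_le_pow_right₀ (by linarith) (by norm_num)
      exact mul_le_mul_of_nonneg_left h2 hz0.le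
    have h2 : 8 * L ≤ z / L ^ 2 := by
      rw [le_div_iff₀ (by positivity)]
      calc 8 * L * L ^ 2 ≤ (L * L) * L * L ^ 2 := by
            refine mul_le_mul_of_nonneg_right (mul_le_mul_of_nonneg_right ?_ hL0.le) (by positivity)
            nlinarith
        _ = L ^ 5 := by ring
        _ ≤ L ^ 10 := pow_le_pow_right₀ (by linarith) (by norm_num)
        _ ≤ z := hz
    linarith
  · rw [min_eq_left h]
    have hH0 : 0 < H := lt_of_lt_of_le (by positivity) hH
    -- w ≤ H / (4 L^2) - ...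
    have h1 : 2 * w + 4 * L ≤ H / L ^ 2 := by
      rw [le_div_iff₀ (by positivity)]
      rcases le_total w (L ^ 2) with hw | hw
      · calc (2 * w + 4 * L) * L ^ 2 ≤ (2 * L ^ 2 + L * L) * L ^ 2 := by
              refine mul_le_mul_of_nonneg_right ?_ (by positivity)
              have := mul_le_mul_of_nonneg_right hL hL0.le
              linarith
          _ = 3 * L ^ 4 := by ring
          _ ≤ L ^ 8 := by
              have : L ^ 8 = L ^ 4 * L ^ 4 := by ring
              rw [this]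
              refine mul_le_mul_of_nonneg_right ?_ (by positivity)
              calc (3 : ℝ) ≤ L ^ 1 := by rw [pow_one]; linarith
                _ ≤ L ^ 4 := pow_le_pow_right₀ (by linarith) (by norm_num)
          _ ≤ H := hH
      · calc (2 * w + 4 * L) * L ^ 2 ≤ (2 * w + w) * L ^ 2 := by
              refine mul_le_mul_of_nonneg_right ?_ (by positivity)
              have : 4 * L ≤ L * L := mul_le_mul_of_nonneg_right hL hL0.le
              nlinarith
          _ ≤ (3 * w) * w := by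
              have : (2 * w + w) * L ^ 2 = (3 * w) * L ^ 2 := by ring
              rw [this]
              exact mul_le_mul_of_nonneg_left hw (by positivity)
          _ ≤ w ^ 4 := by
              have h3 : 3 ≤ w ^ 2 := by
                have : 4 ≤ w := by
                  calc (4 : ℝ) ≤ L ^ 1 := by rw [pow_one]; exact hL
                    _ ≤ L ^ 2 := pow_le_pow_right₀ (by linarith) (by norm_num)
                    _ ≤ w := hw
                nlinarith
              have : w ^ 4 = w ^ 2 * w ^ 2 := by ring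
              rw [this]
              have h4 : (3 * w) * w = 3 * w ^ 2 := by ring
              rw [h4]
              exact mul_le_mul_of_nonneg_right h3 (by positivity)
          _ ≤ H := hw2
    linarith

/-- `min(H,z)/2 ≤ H/(H/z+1)` -/
private theorem min_PB {H z : ℝ} (hH : 0 < H) (hz : 0 < z) : min H z / 2 * (H / z + 1) ≤ H := by
  rcases le_total z H with h | h
  · rw [min_eq_right h]
    have : z / 2 * (H / z + 1) = (H + z) / 2 := by
      field_simp
    rw [this]
    linarith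
  · rw [min_eq_left h]
    have h1 : H / z ≤ 1 := by rw [div_le_one hz]; exact h
    have : H / 2 * (H / z + 1) ≤ H / 2 * 2 := mul_le_mul_of_nonneg_left (by linarith) (by linarith)
    linarith

/-- class counts -/
private theorem cls_PB (hAPC : StAPC) {y p c s : ℕ} (hp : p.Prime) (hs : s.Prime) (hsp : s ≠ p) {z : ℝ} (hz : 0 < z)
    (hzs : z ≤ s) (P : Finset ℕ) (β : ℕ → ℕ) (c' : ℕ) :
    (((surv P β (AP y p c)).filter (fun m => m ≡ c' [MOD s])).card : ℝ) ≤ (y : ℝ) / p / z + 1 := by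
  have h1 := hAPC y p c {s} (fun _ => c') hp.one_lt.le (by
    intro t ht
    rw [mem_singleton] at ht
    subst ht
    exact ⟨hs, fun h => hsp ((Nat.prime_dvd_prime_iff_eq hs hp).mp h)⟩)
  rw [prod_singleton] at h1
  have h2 := (abs_le.mp h1).2
  have h3 : (((surv P β (AP y p c)).filter (fun m => m ≡ c' [MOD s])).card : ℝ) ≤
      (((AP y p c).filter (fun m => ∀ t ∈ ({s} : Finset ℕ), m ≡ c' [MOD t])).card : ℝ) := by
    have : ((surv P β (AP y p c)).filter (fun m => m ≡ c' [MOD s])) ⊆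
        ((AP y p c).filter (fun m => ∀ t ∈ ({s} : Finset ℕ), m ≡ c' [MOD t])) := by
      intro m hm
      rw [mem_filter] at hm ⊢
      refine ⟨surv_subset hm.1, fun t ht => ?_⟩
      rw [mem_singleton] at ht
      subst ht
      exact hm.2
    exact_mod_cast card_le_card this
  have h4 : (y : ℝ) / (p * s) ≤ (y : ℝ) / p / z := by
    rw [← div_div]
    exact div_le_div_of_nonneg_left (by positivity) hz hzs
  linarith

private theorem n1_PB {l L : ℝ} (h : l ^ 2 / 2 ≤ L) (hl : 32 ≤ l) : 4 * l ≤ L := by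
  have : 32 * l ≤ l ^ 2 := by
    rw [pow_two]
    exact mul_le_mul_of_nonneg_right hl (by linarith)
  linarith

private theorem n2_PB {l : ℝ} (hl : 32 ≤ l) : 10 * l ≤ l ^ 2 := by
  rw [pow_two]
  exact mul_le_mul_of_nonneg_right (by linarith) (by linarith)

private theorem n3_PB {h : ℝ} (hh : 256 ≤ h) : Real.exp 2 ≤ h := by
  have h3 : Real.exp 1 ≤ 3 := by
    have := Real.exp_one_lt_d9
    linarith
  have h4 : Real.exp 2 = Real.exp 1 * Real.exp 1 := by
    rw [← Real.exp_add]
    norm_num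
  have h5 := Real.exp_pos 1
  rw [h4]
  nlinarith

private theorem n4_PB {g s h : ℝ} (h1 : g ^ 2 ≤ 16 * s) (h2 : 16 ≤ s) (h3 : s * s = h) : g ^ 2 ≤ h := by
  have : 16 * s ≤ s * s := mul_le_mul_of_nonneg_right h2 (by linarith)
  linarith

private theorem n5_PB {l L : ℝ} (h : l ^ 3 / 6 ≤ L) (hl : 32 ≤ l) : l * l ≤ L := by
  have h1 : l * l * 32 ≤ l * l * l := mul_le_mul_of_nonneg_left hl (by positivity)
  have h2 : l ^ 3 = l * l * l := by ring
  rw [h2] at h
  have h3 : 0 ≤ l * l := by positivity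
  linarith

private theorem n6_PB {g h : ℝ} (hg : 2 ≤ g) (hh : 0 ≤ h) : 4 * h ≤ h * g ^ 2 := by
  have h1 : (4 : ℝ) ≤ g ^ 2 := by nlinarith
  have := mul_le_mul_of_nonneg_left h1 hh
  linarith

theorem hPB (hTU : StTU) (hUP : StUP) (hAPC : StAPC) (hBA : StBA) (hVM : StVM) (hVB : StVB) (hSL : StSL) :
    StPB := by
  intro θ hθ0 hθ1
  obtain ⟨cV, CV, hcV, hCV, hV⟩ := hVM
  obtain ⟨c0, C0, hc0, hC0, X0, hX0⟩ := hVB θ hθ0 hθ1
  obtain ⟨CS, hCS, hS⟩ := hSL
  obtain ⟨H0, hH0, hBA1⟩ := hBA 1 one_pos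
  refine ⟨12 * CV, by positivity, ?_⟩
  obtain ⟨M, hM1, hM2, hM3, hM4, hM5⟩ : ∃ M : ℝ, 32 ≤ M ∧ CS ≤ M ∧ H0 ≤ M ∧ 1 / θ ≤ M ∧
      8 / (c0 * (12 * CV)) ≤ M :=
    ⟨max (max (max 32 CS) (max H0 (1 / θ))) (8 / (c0 * (12 * CV))),
      le_max_of_le_left (le_max_of_le_left (le_max_left _ _)),
      le_max_of_le_left (le_max_of_le_left (le_max_right _ _)),
      le_max_of_le_left (le_max_of_le_right (le_max_left _ _)),
      le_max_of_le_left (le_max_of_le_right (le_max_right _ _)), le_max_right _ _⟩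
  obtain ⟨X1, hX1⟩ := LL_large_PB M
  refine ⟨max X0 X1, fun x hx y u hPar p hp hpθ hpx hpx' hpy c => ?_⟩
  have hVR := (hX0 x ((le_max_left _ _).trans hx) y u hPar).1
  have hlM := hX1 x ((le_max_right _ _).trans hx)
  obtain ⟨l, hldef⟩ : ∃ l : ℝ, l = LL x := ⟨_, rfl⟩
  obtain ⟨L, hLdef⟩ : ∃ L : ℝ, L = Real.log x := ⟨_, rfl⟩
  obtain ⟨hP1, hP2, hP3, hP4⟩ := hPar
  rw [← hldef] at hlM hP1 hP2 ⊢
  rw [← hLdef] at hP2 hP4 hpy
  have hl0 : 32 ≤ l := hM1.trans hlM
  have hLpos : 0 < L := by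
    rw [hLdef]
    by_contra hcon
    have h1 : Real.log x = 0 := le_antisymm (not_lt.mp hcon) (Real.log_natCast_nonneg x)
    have h2 : LL x = 0 := by
      unfold LL
      rw [h1, Real.log_zero]
    rw [hldef, h2] at hl0
    linarith
  have hLl : L = Real.exp l := by
    rw [hldef, hLdef]
    unfold LL
    rw [Real.exp_log]
    rw [← hLdef]
    exact hLpos
  have hxpos : (0 : ℝ) < x := by
    by_contra hcon
    have h1 : (x : ℝ) = 0 := le_antisymm (not_lt.mp hcon) (Nat.cast_nonneg x)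
    rw [hLdef, h1, Real.log_zero] at hLpos
    exact absurd hLpos (lt_irrefl 0)
  have hxL : (x : ℝ) = Real.exp L := by rw [hLdef, Real.exp_log hxpos]
  have hul : l ≤ u := by
    calc l = l ^ 1 := (pow_one l).symm
      _ ≤ l ^ 5 := pow_le_pow_right₀ (by linarith) (by norm_num)
      _ ≤ u := hP1
  have hu0 : 0 < u := by linarith
  have hLbig : l ^ 2 / 2 ≤ L := by
    rw [hLl]
    have := Real.quadratic_le_exp_of_nonneg (show 0 ≤ l by linarith)
    linarith
  have hL4l : 4 * l ≤ L := n1_PB hLbig hl0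
  have hL4 : 4 ≤ L := by linarith
  -- z
  obtain ⟨z, hzdef⟩ : ∃ z : ℝ, z = zz x u := ⟨_, rfl⟩
  have hz1 : z = Real.exp (L / u) := by
    rw [hzdef]
    unfold zz
    rw [← hLdef]
  have hz0v : z0 x u = z / L ^ 5 := by
    unfold z0
    rw [← hzdef, ← hLdef]
  have hzpos : 0 < z := by rw [hz1]; exact Real.exp_pos _
  have hzbig : L ^ 10 ≤ z := by
    have h1 : l ^ 2 ≤ L / u := by
      rw [le_div_iff₀ hu0]
      linarith
    rw [hz1, hLl, pow_exp_PB]
    refine Real.exp_le_exp.mpr ?_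
    rw [← hLl]
    refine le_trans ?_ h1
    push_cast
    exact n2_PB hl0
  have hz0big : L ^ 5 ≤ z / L ^ 5 := by
    rw [le_div_iff₀ (by positivity)]
    calc L ^ 5 * L ^ 5 = L ^ 10 := by ring
      _ ≤ z := hzbig
  have hL51 : 4 ≤ L ^ 5 := by
    calc (4 : ℝ) ≤ L ^ 1 := by rw [pow_one]; exact hL4
      _ ≤ L ^ 5 := pow_le_pow_right₀ (by linarith) (by norm_num)
  have hz0pos : 0 < z / L ^ 5 := by positivity
  have hlogz0 : 0 < Real.log (z / L ^ 5) := Real.log_pos (by linarith)
  have hz0z : z / L ^ 5 ≤ z := div_le_self hzpos.le (by linarith)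
  have hlogz0' : Real.log (z / L ^ 5) ≤ L / u := by
    calc Real.log (z / L ^ 5) ≤ Real.log z := Real.log_le_log hz0pos hz0z
      _ = L / u := by rw [hz1, Real.log_exp]
  -- H
  have hp0 : (0 : ℝ) < p := by exact_mod_cast hp.pos
  obtain ⟨H, hHdef⟩ : ∃ H : ℝ, H = (y : ℝ) / p := ⟨_, rfl⟩
  have hH8 : L ^ 8 ≤ H := by
    rw [hHdef, le_div_iff₀ hp0]
    linarith
  have hHpos : 0 < H := lt_of_lt_of_le (by positivity) hH8
  have hsx : 0 < Real.sqrt x := Real.sqrt_pos.mpr hxpos
  have hHx : H ≤ x := by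
    rw [hHdef, div_le_iff₀ hp0]
    have h1 : L ^ 2 ≤ Real.sqrt x := by
      refine Real.le_sqrt_of_sq_le ?_
      rw [← pow_mul, hxL, hLl, pow_exp_PB]
      refine Real.exp_le_exp.mpr ?_
      rw [← hLl]
      push_cast
      linarith
    calc (y : ℝ) ≤ x * L ^ 2 := hP4
      _ ≤ x * Real.sqrt x := mul_le_mul_of_nonneg_left h1 hxpos.le
      _ ≤ x * p := mul_le_mul_of_nonneg_left hpx hxpos.le
  obtain ⟨h, hhdef⟩ : ∃ h : ℝ, h = Real.log H := ⟨_, rfl⟩
  have hh8 : 8 * l ≤ h := by
    rw [hhdef, Real.le_log_iff_exp_le hHpos]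
    calc Real.exp (8 * l) = Real.exp l ^ 8 := by rw [pow_exp_PB]; norm_num
      _ = L ^ 8 := by rw [hLl]
      _ ≤ H := hH8
  have hhL : h ≤ L := by
    rw [hhdef, hLdef]
    exact Real.log_le_log hHpos hHx
  have hh256 : 256 ≤ h := by linarith
  have hhpos : 0 < h := by linarith
  obtain ⟨g, hgdef⟩ : ∃ g : ℝ, g = Real.log h := ⟨_, rfl⟩
  have hgl : g ≤ l := by
    rw [hgdef]
    calc Real.log h ≤ Real.log L := Real.log_le_log hhpos hhL
      _ = l := by rw [hLl, Real.log_exp]
  have hg2 : 2 ≤ g := by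
    rw [hgdef, Real.le_log_iff_exp_le hhpos]
    exact n3_PB hh256
  have hgpos : 0 < g := by linarith
  have hgh : g ^ 2 ≤ h := by
    -- g = log h ≤ 4 (h^(1/4)), so g^2 ≤ 16 sqrt h ≤ h
    have h1 : g = 4 * Real.log (Real.sqrt (Real.sqrt h)) := by
      rw [Real.log_sqrt (Real.sqrt_nonneg _), Real.log_sqrt hhpos.le, hgdef]
      ring
    have hs1 : 0 < Real.sqrt h := Real.sqrt_pos.mpr hhpos
    have hs2 : 0 < Real.sqrt (Real.sqrt h) := Real.sqrt_pos.mpr hs1
    have h2 := Real.log_le_sub_one_of_pos hs2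
    have h3 : g ≤ 4 * Real.sqrt (Real.sqrt h) := by linarith
    have h4 : g ^ 2 ≤ (4 * Real.sqrt (Real.sqrt h)) ^ 2 := pow_le_pow_left₀ hgpos.le h3 2
    have h5 : (4 * Real.sqrt (Real.sqrt h)) ^ 2 = 16 * Real.sqrt h := by
      rw [mul_pow, Real.sq_sqrt hs1.le]
      norm_num
    have h6 : 16 ≤ Real.sqrt h := by
      refine Real.le_sqrt_of_sq_le ?_
      linarith
    have h7 : Real.sqrt h * Real.sqrt h = h := Real.mul_self_sqrt hhpos.le
    rw [h5] at h4
    exact n4_PB h4 h6 h7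
  -- w
  obtain ⟨w, hwdef⟩ : ∃ w : ℝ, w = min (z / L ^ 5) (Real.exp (h / g ^ 2)) := ⟨_, rfl⟩
  have hw1 : w ≤ z / L ^ 5 := by rw [hwdef]; exact min_le_left _ _
  have hw2 : w ≤ Real.exp (h / g ^ 2) := by rw [hwdef]; exact min_le_right _ _
  have hwge : 2 ≤ w := by
    rw [hwdef]
    refine le_min (by linarith) ?_
    have h1 : 1 ≤ h / g ^ 2 := by rw [le_div_iff₀ (by positivity)]; linarith
    calc (2 : ℝ) ≤ Real.exp 1 := by
          have := Real.add_one_le_exp (1 : ℝ)
          linarith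
      _ ≤ _ := Real.exp_le_exp.mpr h1
  have hwpos : 0 < w := by linarith
  have hlogw : 0 < Real.log w := Real.log_pos (by linarith)
  have hlogw1 : Real.log w ≤ h / g ^ 2 := by
    rw [Real.log_le_iff_le_exp hwpos]
    exact hw2
  have hw4 : w ^ 4 ≤ H := by
    have h1 : w ^ 4 ≤ Real.exp (h / g ^ 2) ^ 4 := pow_le_pow_left₀ hwpos.le hw2 4
    refine h1.trans ?_
    rw [pow_exp_PB]
    have h2 : H = Real.exp h := by rw [hhdef, Real.exp_log hHpos]
    rw [h2]
    refine Real.exp_le_exp.mpr ?_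
    push_cast
    rw [mul_div_assoc', div_le_iff₀ (by positivity)]
    exact n6_PB hg2 hhpos.le
  have hinv : 1 / Real.log w ≤ 1 / Real.log (z / L ^ 5) + l ^ 2 / h := by
    rcases min_choice (z / L ^ 5) (Real.exp (h / g ^ 2)) with h1 | h1
    · rw [hwdef, h1]
      have : 0 ≤ l ^ 2 / h := by positivity
      linarith
    · have h2 : Real.log w = h / g ^ 2 := by rw [hwdef, h1, Real.log_exp]
      rw [h2, one_div_div]
      have h3 : g ^ 2 / h ≤ l ^ 2 / h :=
        div_le_div_of_nonneg_right (pow_le_pow_left₀ hgpos.le hgl 2) hhpos.le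
      have : 0 ≤ 1 / Real.log (z / L ^ 5) := by positivity
      linarith
  -- primes of R
  obtain ⟨R, hRdef⟩ : ∃ R, R = RR x u θ := ⟨_, rfl⟩
  rw [← hRdef] at hVR ⊢
  have hRs : ∀ s ∈ R, z < s ∧ (s : ℝ) ≤ (x : ℝ) ^ θ ∧ s.Prime := by
    intro s hs
    rw [hRdef] at hs
    rw [hzdef]
    exact (mem_PP (Real.exp_pos _).le).mp hs
  have hVRpos : 0 < VV R := lt_of_lt_of_le (by positivity) hVR
  -- w < p
  have hzθ : z ≤ (x : ℝ) ^ θ := by
    rw [hz1, Real.rpow_def_of_pos hxpos, ← hLdef]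
    refine Real.exp_le_exp.mpr ?_
    rw [div_le_iff₀ hu0]
    have h1 : 1 ≤ θ * u := by
      have h2 : 1 / θ ≤ u := by linarith
      rw [div_le_iff₀ hθ0] at h2
      linarith
    have h3 : L * 1 ≤ L * (θ * u) := mul_le_mul_of_nonneg_left h1 hLpos.le
    calc L = L * 1 := (mul_one L).symm
      _ ≤ L * (θ * u) := h3
      _ = L * θ * u := by ring
  have hnd : ∀ s ∈ PP 1 w, ¬ s ∣ p := by
    intro s hs hsp
    obtain ⟨hs1, hs2, hs3⟩ := (mem_PP zero_le_one).mp hs
    have h1 : s = p := (Nat.prime_dvd_prime_iff_eq hs3 hp).mp hsp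
    rw [h1] at hs2
    linarith
  -- the sieve
  have hHH0 : H0 ≤ H := by
    have h1 : L ≤ L ^ 8 := by
      calc L = L ^ 1 := (pow_one L).symm
        _ ≤ L ^ 8 := pow_le_pow_right₀ (by linarith) (by norm_num)
    linarith
  have hBAw : ∀ β : ℕ → ℕ, ((surv (PP 1 w) β (AP y p c)).card : ℝ) ≤ 2 * (VV (PP 1 w) * H) := by
    intro β
    have h1 := hBA1 y p c β w hp.one_lt.le hwge hnd (by rw [← hHdef]; exact hHH0) (by
      rw [← hHdef]
      unfold LL
      rw [← hhdef, ← hgdef]
      rw [le_div_iff₀ (by positivity)] at hlogw1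
      exact hlogw1)
    rw [← hHdef, one_mul] at h1
    have h2 := (abs_le.mp h1).2
    linarith
  have hWcard : ∀ β : ℕ → ℕ, ((surv (PP 1 w) β (AP y p c)).card : ℝ) ≤ 2 * CV * H * (1 / Real.log w) := by
    intro β
    refine (hBAw β).trans ?_
    have h1 := (hV w hwge).2
    have h2 := mul_le_mul_of_nonneg_right h1 hHpos.le
    calc 2 * (VV (PP 1 w) * H) ≤ 2 * (CV / Real.log w * H) := by linarith
      _ = 2 * CV * H * (1 / Real.log w) := by ring
  -- SS R
  have hSSR : SS R ≤ 2 * l := by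
    have h1 : SS R ≤ SS (PP 1 x) := by
      unfold SS
      refine sum_le_sum_of_subset_of_nonneg ?_ (fun s _ _ => by positivity)
      intro s hs
      obtain ⟨h2, h3, h4⟩ := hRs s hs
      rw [mem_PP zero_le_one]
      refine ⟨by exact_mod_cast h4.one_lt, ?_, h4⟩
      have h5 : (x : ℝ) ^ θ ≤ (x : ℝ) ^ (1 : ℝ) := by
        refine Real.rpow_le_rpow_of_exponent_le ?_ hθ1.le
        rw [hxL]
        exact Real.one_le_exp hLpos.le
      rw [Real.rpow_one] at h5
      linarith
    have h2 := hS x (by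
      rw [hxL]
      have := Real.add_one_le_exp L
      linarith)
    rw [← hldef] at h2
    linarith
  have hSSR0 : 0 ≤ SS R := by
    unfold SS
    exact sum_nonneg (fun s _ => by positivity)
  -- K
  obtain ⟨G, hGdef⟩ : ∃ G : ℝ, G = 1 / Real.log (z / L ^ 5) + l ^ 2 / h := ⟨_, rfl⟩
  obtain ⟨K, hKdef⟩ : ∃ K : ℝ, K = 12 * CV * VV R * H * G := ⟨_, rfl⟩
  have hG0 : 1 / Real.log (z / L ^ 5) ≤ G := by
    rw [hGdef]
    have : 0 ≤ l ^ 2 / h := by positivity
    linarith
  rw [hz0v, ← hHdef, ← hhdef, ← hGdef, ← hKdef]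
  rw [← hGdef] at hinv
  have hKpos : 0 < K := by
    rw [hKdef]
    have : 0 < G := lt_of_lt_of_le (by positivity) hG0
    positivity
  obtain ⟨η, hηdef⟩ : ∃ η : ℝ, η = 1 / (4 * l) := ⟨_, rfl⟩
  have hη0 : 0 < η := by rw [hηdef]; positivity
  have hη1 : η ≤ 1 := by
    rw [hηdef, div_le_one (by positivity)]
    linarith
  have hexp3 : Real.exp (2 * η * SS R) ≤ 3 := by
    have h1 : 2 * η * SS R ≤ 1 := by
      calc 2 * η * SS R ≤ 2 * η * (2 * l) := mul_le_mul_of_nonneg_left hSSR (by positivity)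
        _ = 1 := by
            rw [hηdef]
            field_simp
            norm_num
    have h2 : Real.exp 1 ≤ 3 := by
      have := Real.exp_one_lt_d9
      linarith
    exact (Real.exp_le_exp.mpr h1).trans h2
  obtain ⟨b, hbdef⟩ : ∃ b : ℝ, b = H / z + 1 := ⟨_, rfl⟩
  have hbpos : 0 < b := by rw [hbdef]; positivity
  have hTUβ : ∀ β : ℕ → ℕ, Pr R (fun a => K ≤ ((surv R a (surv (PP 1 w) β (AP y p c))).card : ℝ)) ≤
      Real.exp (-(η / b * K)) := by
    intro β
    have h1 := hTU R (surv (PP 1 w) β (AP y p c)) b η K (fun s hs => (hRs s hs).2.2.two_le) hbpos hη0 hη1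
      (by
        intro s hs c'
        obtain ⟨hs1, hs2, hs3⟩ := hRs s hs
        have hsp : s ≠ p := by
          intro h
          rw [h] at hs2
          linarith
        have := cls_PB hAPC hp hs3 hsp hzpos hs1.le (PP 1 w) β c' (y := y) (c := c)
        rw [← hHdef] at this
        rw [hbdef]
        exact this)
    refine h1.trans (Real.exp_le_exp.mpr ?_)
    have h2 : ((surv (PP 1 w) β (AP y p c)).card : ℝ) * VV R * Real.exp (2 * η * SS R) ≤ K / 2 := by
      calc ((surv (PP 1 w) β (AP y p c)).card : ℝ) * VV R * Real.exp (2 * η * SS R)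
          ≤ (2 * CV * H * (1 / Real.log w)) * VV R * 3 := by
            refine mul_le_mul (mul_le_mul_of_nonneg_right (hWcard β) hVRpos.le) hexp3
              (Real.exp_pos _).le (by positivity)
        _ = 6 * CV * VV R * H * (1 / Real.log w) := by ring
        _ ≤ 6 * CV * VV R * H * G := mul_le_mul_of_nonneg_left hinv (by positivity)
        _ = K / 2 := by rw [hKdef]; ring
    have h3 : 2 * η / b * (K / 2) ≤
        2 * η / b * (K - ((surv (PP 1 w) β (AP y p c)).card : ℝ) * VV R * Real.exp (2 * η * SS R)) :=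
      mul_le_mul_of_nonneg_left (by linarith) (by positivity)
    have h4 : 2 * η / b * (K / 2) = η / b * K := by ring
    linarith
  have hUP' := hUP w R (AP y p c) (fun S => K ≤ (S.card : ℝ)) (Real.exp (-(η / b * K))) hwpos.le
    (Real.exp_pos _).le hTUβ
  -- monotonicity
  have hmono : Pr R (fun a => ∃ β : ℕ → ℕ, K ≤ ((surv R a (surv (P0 x u) β (AP y p c))).card : ℝ)) ≤
      Pr R (fun a => ∃ β : ℕ → ℕ, K ≤ ((surv R a (surv (PP 1 w) β (AP y p c))).card : ℝ)) := by
    refine Pr_mono ?_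
    rintro a _ ⟨β, hβ⟩
    refine ⟨β, hβ.trans ?_⟩
    have h1 : PP 1 w ⊆ P0 x u := by
      unfold P0 PP
      refine filter_subset_filter _ (Ioc_subset_Ioc_right (Nat.floor_mono ?_))
      rw [hz0v]
      exact hw1
    have h2 : surv (P0 x u) β (AP y p c) ⊆ surv (PP 1 w) β (AP y p c) := surv_mono h1 (Subset.refl _)
    exact_mod_cast card_le_card (surv_mono (Subset.refl R) h2)
  refine hmono.trans (hUP'.trans ?_)
  rw [← Real.exp_add]
  have h4L : 1 / (x : ℝ) ^ 4 = Real.exp (-(4 * L)) := by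
    rw [Real.exp_neg, one_div, hxL, pow_exp_PB]
    norm_num
  rw [h4L]
  refine Real.exp_le_exp.mpr ?_
  -- lower bound of eta K / b
  have hKb : min H z / L ^ 2 ≤ η / b * K := by
    have h1 : c0 * (12 * CV) * H / L ≤ K := by
      have h2 : u / L ≤ G := by
        refine le_trans ?_ hG0
        rw [div_le_div_iff₀ hLpos hlogz0]
        rw [le_div_iff₀ hu0] at hlogz0'
        linarith
      calc c0 * (12 * CV) * H / L = 12 * CV * (c0 / u) * H * (u / L) := by
            field_simp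
        _ ≤ 12 * CV * VV R * H * (u / L) := by
            refine mul_le_mul_of_nonneg_right (mul_le_mul_of_nonneg_right ?_ hHpos.le) (by positivity)
            exact mul_le_mul_of_nonneg_left hVR (by positivity)
        _ ≤ 12 * CV * VV R * H * G := mul_le_mul_of_nonneg_left h2 (by positivity)
        _ = K := hKdef.symm
    have h2 : 8 * l ≤ c0 * (12 * CV) * L := by
      have hcc : 0 < c0 * (12 * CV) := by positivity
      rw [div_le_iff₀ hcc] at hM5
      have h3 : 8 ≤ l * (c0 * (12 * CV)) := by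
        have := mul_le_mul_of_nonneg_right hlM hcc.le
        linarith
      have h4 : l * l ≤ L := by
        -- L = exp l ≥ l^2
        have h5 : l ^ 3 / 6 ≤ Real.exp l := by
          have := Real.pow_div_factorial_le_exp l (by linarith) 3
          have h6 : ((Nat.factorial 3 : ℕ) : ℝ) = 6 := by norm_num [Nat.factorial]
          rw [h6] at this
          exact this
        rw [← hLl] at h5
        exact n5_PB h5 hl0
      calc 8 * l ≤ (l * (c0 * (12 * CV))) * l := mul_le_mul_of_nonneg_right h3 (by linarith)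
        _ = c0 * (12 * CV) * (l * l) := by ring
        _ ≤ c0 * (12 * CV) * L := mul_le_mul_of_nonneg_left h4 hcc.le
    have h3 := min_PB hHpos hzpos
    rw [← hbdef] at h3
    have hm0 : 0 < min H z := lt_min hHpos hzpos
    have h5 : min H z / L ^ 2 * b ≤ η * K := by
      calc min H z / L ^ 2 * b = (min H z / 2 * b) * (2 / L ^ 2) := by ring
        _ ≤ H * (2 / L ^ 2) := mul_le_mul_of_nonneg_right h3 (by positivity)
        _ = (8 * l) * (H / (4 * l * L ^ 2)) := by
            field_simp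
            ring
        _ ≤ (c0 * (12 * CV) * L) * (H / (4 * l * L ^ 2)) := mul_le_mul_of_nonneg_right h2 (by positivity)
        _ = η * (c0 * (12 * CV) * H / L) := by
            rw [hηdef]
            field_simp
        _ ≤ η * K := mul_le_mul_of_nonneg_left h1 hη0.le
    calc min H z / L ^ 2 = min H z / L ^ 2 * b / b := by field_simp
      _ ≤ η * K / b := div_le_div_of_nonneg_right h5 hbpos.le
      _ = η / b * K := by ring
  have hfin := fin_PB hL4 hzbig hH8 hw1 hw4 hwpos.le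
  linarith

end Pool.Agent.Helper69.RM
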