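import Pool.Agent.Helper69.RM.Defs

set_option autoImplicit false

/-! Project RM (helper69), MP_924f75_nt: statements of the modules, with complete proofs in words.

THEOREM. Let 1/e < θ < 1.  There are C, X such that for x >= X, (log log x)^5 <= u <= log x/(log log x)^2 and
y >= C x log x/log u: if the classes of the primes in (x^(1/u), x^θ] (or of a larger set of primes) are random, then with
probability >= 1 - 1/x there is NO choice of the classes of all the other primes p <= x (small and large, adversarial) such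
that [1,y] is covered.

PROOF.  L = log x, z = x^(1/u), z0 = z/L^5, P0 = primes <= z0 (adversarial small primes), R = primes in (z, x^θ] (random),
Q = all other primes <= x: (z0, z] and (x^θ, x] (covering primes).  V_P = VV P0, V_R = VV R, VP = V_P V_R >= c/L.
We may take y ~ C x L/log u.  If b covers [1,y], then the set S of the m <= y which survive P0 and R satisfies
|S| <= sum_(p in Q) |S ∩ (b_p mod p)|.  With probability >= 1 - x^(-1), FOR ALL classes on P0 and all c: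
(E) |S| >= (1-η) VP y; (A) |S ∩ (c mod p)| <= (1+η) VP y/p for p <= x^(1-δ); (B) <= C1 V_R (y/p)(1/log z0 + L2²/log(y/p)) for
x^(1-δ) < p <= y/L^8 (L2 = log log x); (C) <= 8 V_R (y/p+1) + 4L + 1 for y/L^8 < p <= x/√u; (D) <= 13 L/log u for p > x/√u.
Sum over p: (A) (1+η) VP y (log(1/θ) + 2η) (Mertens; log(1/θ) < 1), (B), (C) small, (D) <= 13 L/log u * C_π x/L < κ VP y if C
is large.  Contradiction. -/

namespace Pool.Agent.Helper69.RM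

open Finset

/-! ### A. The random sieve -/

/-- MODULE EU.  Exponential moment, upper side.
Proof.  Induction on R, for all W.  For `insert s R` (`sum_CH_insert`): surv (insert s R) (update a s c) W = surv R a (W \ W_c),
W_c := {m ∈ W : m ≡ c mod s} (a, update a s c agree on R).  The class bound is inherited by subsets.  Let
Π := ∏_(s ∈ R) (1-(1-η)/s) ∈ [0,1], v := tΠ <= t.  By induction the sum is <= ∏_R s * ∑_(c<s) exp(v(|W| - |W_c|)), and with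
w = |W_c| <= b: v w <= 2η, exp(-vw) <= 1 - vw + (vw)²/2 <= 1 - vw(1-η).  As ∑_(c<s) |W_c| = |W|:
∑_(c<s) exp(-v|W_c|) <= s (1 - v|W|(1-η)/s) <= s exp(-v|W|(1-η)/s). -/
def StEU : Prop :=
  ∀ (R W : Finset ℕ) (b t η : ℝ), (∀ s ∈ R, 1 ≤ s) → 0 ≤ t → 0 ≤ η → η ≤ 1 → t * b ≤ 2 * η →
    (∀ s ∈ R, ∀ c : ℕ, ((W.filter (fun m => m ≡ c [MOD s])).card : ℝ) ≤ b) →
    ∑ a ∈ CH R, Real.exp (t * ((surv R a W).card : ℝ)) ≤
      (∏ s ∈ R, (s : ℝ)) * Real.exp (t * W.card * ∏ s ∈ R, (1 - (1 - η) / (s : ℝ)))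

/-- MODULE EL.  Exponential moment, lower side.
Proof.  As EU with exp(vw) <= 1 + vw + (vw)² <= 1 + vw(1+η) for 0 <= vw <= tb <= η <= 1:
∑_(c<s) exp(-v(|W|-|W_c|)) <= s exp(-v|W|) (1 + v|W|(1+η)/s) <= s exp(-v|W|(1-(1+η)/s)); the factors 1-(1+η)/s are in [0,1]
since s >= 2, η <= 1. -/
def StEL : Prop :=
  ∀ (R W : Finset ℕ) (b t η : ℝ), (∀ s ∈ R, 2 ≤ s) → 0 ≤ t → 0 ≤ η → η ≤ 1 → t * b ≤ η →
    (∀ s ∈ R, ∀ c : ℕ, ((W.filter (fun m => m ≡ c [MOD s])).card : ℝ) ≤ b) →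
    ∑ a ∈ CH R, Real.exp (-(t * ((surv R a W).card : ℝ))) ≤
      (∏ s ∈ R, (s : ℝ)) * Real.exp (-(t * W.card * ∏ s ∈ R, (1 - (1 + η) / (s : ℝ))))

/-- MODULE TU (hypothesis StEU).  Upper tail.
Proof.  t := 2η/b, Markov (`Pr_le_of_sum`, g = exp(t|surv|), c = exp(tK)).  (1-(1-η)/s) = (1-1/s)(1+η/(s-1)) <= (1-1/s) exp(2η/s)
for s >= 2, so the product is <= VV R exp(2η SS R). -/
def StTU : Prop :=
  ∀ (R W : Finset ℕ) (b η K : ℝ), (∀ s ∈ R, 2 ≤ s) → 0 < b → 0 < η → η ≤ 1 →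
    (∀ s ∈ R, ∀ c : ℕ, ((W.filter (fun m => m ≡ c [MOD s])).card : ℝ) ≤ b) →
    Pr R (fun a => K ≤ ((surv R a W).card : ℝ)) ≤
      Real.exp (-(2 * η / b * (K - W.card * VV R * Real.exp (2 * η * SS R))))

/-- MODULE TL (hypothesis StEL).  Lower tail.
Proof.  t := η/b, Markov with g = exp(-t|surv|), c = exp(-tK).  (1-(1+η)/s) = (1-1/s)(1-η/(s-1)) >= (1-1/s)(1-2η/s) >=
(1-1/s) exp(-4η/s) (s >= 2, η <= 1/2: 2η/s <= 1/2 and 1-v >= exp(-2v) for 0 <= v <= 1/2). -/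
def StTL : Prop :=
  ∀ (R W : Finset ℕ) (b η K : ℝ), (∀ s ∈ R, 2 ≤ s) → 0 < b → 0 < η → η ≤ 1 / 2 →
    (∀ s ∈ R, ∀ c : ℕ, ((W.filter (fun m => m ≡ c [MOD s])).card : ℝ) ≤ b) →
    Pr R (fun a => ((surv R a W).card : ℝ) ≤ K) ≤
      Real.exp (η / b * (K - W.card * VV R * Real.exp (-(4 * η * SS R))))

/-- MODULE KS.  Union bound over k-subsets.
Proof.  If |surv R a W| >= k then T ⊆ surv R a W for some T ⊆ W, |T| = k (`Pr_exists_le` over `powersetCard k W`).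
For fixed T: the number of a ∈ CH R with a s not ≡ m mod s for all m ∈ T, s ∈ R is ∏ (s - k) (the elements of T lie in k distinct
classes mod s), so Pr <= ∏ (1 - k/s) <= ∏ (1-1/s)^k = VV^k (Bernoulli; induction on R with `sum_CH_insert` or a product
structure).  binom(n,k) <= n^k/k! <= (e n/k)^k. -/
def StKS : Prop :=
  ∀ (R W : Finset ℕ) (k : ℕ), (∀ s ∈ R, 1 ≤ s) →
    (∀ s ∈ R, ∀ m ∈ W, ∀ m' ∈ W, m ≡ m' [MOD s] → m = m') → 1 ≤ k →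
    Pr R (fun a => k ≤ (surv R a W).card) ≤ (Real.exp 1 * W.card * VV R / k) ^ k

/-- MODULE UP.  Union over the adversarial classes of the primes <= w.
Proof.  P := PP 1 w.  `surv P β A` only depends on β mod s, s ∈ P: replace β by β' ∈ CH P, β' s = β s % s on P, 0 outside
(`surv_congr`, `mem_CH`).  `Pr_exists_le` over I = CH P, |CH P| = ∏_(p <= w) p = primorial <= 4^w <= exp(2w)
(`card_CH`, `primorial_le_four_pow`). -/
def StUP : Prop :=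
  ∀ (w : ℝ) (R A : Finset ℕ) (G : Finset ℕ → Prop) (B : ℝ), 0 ≤ w → 0 ≤ B →
    (∀ β : ℕ → ℕ, Pr R (fun a => G (surv R a (surv (PP 1 w) β A))) ≤ B) →
    Pr R (fun a => ∃ β : ℕ → ℕ, G (surv R a (surv (PP 1 w) β A))) ≤ Real.exp (2 * w) * B

/-! ### B. The pure sieve of Brun, uniformly in the classes -/

/-- MODULE APC.  Counting in a progression.
Proof.  Chinese remainder theorem: the conditions m ≡ c mod q, m ≡ β s mod s (s ∈ T) are one class mod M = q ∏ s; the number of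
m in [1,y] in a class mod M is within 1 of y/M.  (Induction on T or `Nat.chineseRemainderOfFinset`.) -/
def StAPC : Prop :=
  ∀ (y q c : ℕ) (T : Finset ℕ) (β : ℕ → ℕ), 1 ≤ q → (∀ s ∈ T, s.Prime ∧ ¬ s ∣ q) →
    |(((AP y q c).filter (fun m => ∀ s ∈ T, m ≡ β s [MOD s])).card : ℝ) - (y : ℝ) / (q * ∏ s ∈ T, (s : ℝ))| ≤ 1

/-- the truncated inclusion-exclusion sum -/
noncomputable def FF (A D : Finset ℕ) (β : ℕ → ℕ) (r : ℕ) : ℝ :=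
  ∑ T ∈ D.powerset.filter (fun T => T.card ≤ r),
    (-1 : ℝ) ^ T.card * ((A.filter (fun m => ∀ s ∈ T, m ≡ β s [MOD s])).card : ℝ)

/-- MODULE BON.  Bonferroni inequalities.
Proof.  Exchange the sums: for m ∈ A let K_m = {s ∈ D : m ≡ β s mod s}, k = |K_m|; the contribution of m is
∑_(j <= r) (-1)^j binom(k,j) = 1 if k = 0 and (-1)^r binom(k-1,r) otherwise. -/
def StBON : Prop :=
  ∀ (A D : Finset ℕ) (β : ℕ → ℕ) (r : ℕ), (Even r → ((surv D β A).card : ℝ) ≤ FF A D β r) ∧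
    (Odd r → FF A D β r ≤ ((surv D β A).card : ℝ))

/-- MODULE TRU.  The truncated product.
Proof.  F_r(D) := ∑_(|T| <= r) (-1)^|T| ∏_(s∈T) 1/s.  Induction on D: F_r(D ∪ s) = F_r(D) - F_(r-1)(D)/s (r >= 1), F_0 = 1, gives
F_r >= VV for r even, F_r <= VV for r odd.  So VV lies between F_r and F_(r+1), and |F_(r+1) - F_r| = e_(r+1)(1/s : s ∈ D)
<= SS^(r+1)/(r+1)! ((j+1) e_(j+1) <= e_j SS). -/
def StTRU : Prop :=
  ∀ (D : Finset ℕ) (r : ℕ), (∀ s ∈ D, 1 ≤ s) →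
    |∑ T ∈ D.powerset.filter (fun T => T.card ≤ r), (-1 : ℝ) ^ T.card * ∏ s ∈ T, (1 / (s : ℝ)) - VV D| ≤
      SS D ^ (r + 1) / ((r + 1).factorial : ℝ)

/-- MODULE BR (hypotheses StAPC, StBON, StTRU).  The pure sieve of Brun.
Proof.  H = y/q.  For r' ∈ {r-1, r}: |FF (AP y q c) D β r' - H F_(r')| <= #{T ⊆ D : |T| <= r'} <= (|D|+1)^r
(StAPC; ∑_(j<=r) binom(d,j) <= (d+1)^r), and |F_(r') - VV D| <= SS^(r'+1)/(r'+1)!, r'+1 ∈ {r, r+1}.  Upper bound: r' even,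
lower bound: r' odd. -/
def StBR : Prop :=
  ∀ (y q c : ℕ) (D : Finset ℕ) (β : ℕ → ℕ) (r : ℕ), 1 ≤ q → (∀ s ∈ D, s.Prime ∧ ¬ s ∣ q) → 1 ≤ r →
    |((surv D β (AP y q c)).card : ℝ) - VV D * ((y : ℝ) / q)| ≤
      ((y : ℝ) / q) * (SS D ^ r / (r.factorial : ℝ) + SS D ^ (r + 1) / ((r + 1).factorial : ℝ)) +
        ((D.card : ℝ) + 1) ^ r

/-! ### C. Primes -/

/-- MODULE PC.  Chebyshev (Mathlib: `Chebyshev.pi_le_log4_mul_div`, `Chebyshev.eventually_primeCounting_le`, ...;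
library: search for primeCounting). -/
def StPC : Prop := ∃ C : ℝ, 0 < C ∧ ∀ x : ℝ, 2 ≤ x → ((PP 1 x).card : ℝ) ≤ C * x / Real.log x

/-- MODULE SL.  Mertens, upper bound (`Pool.Agent.Helper15.AB.hMT`; primes in (1,x] = primes in [1,x]). -/
def StSL : Prop := ∃ C : ℝ, 0 < C ∧ ∀ x : ℝ, 3 ≤ x → SS (PP 1 x) ≤ LL x + C

/-- MODULE VM.  Mertens' product up to constants (`Pool.Agent.Helper15.AB.hMT`: |∑_(p<=x) 1/p - log log x| <= C; and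
1-1/p <= exp(-1/p), 1-1/p >= exp(-1/p-1/p²) (p >= 2), ∑ 1/p² <= 1; see also Helper13/JC/Mert.lean `prod_ge`, `prod_le`;
2 <= w < 3 by hand). -/
def StVM : Prop := ∃ c C : ℝ, 0 < c ∧ 0 < C ∧ ∀ w : ℝ, 2 ≤ w →
  c / Real.log w ≤ VV (PP 1 w) ∧ VV (PP 1 w) ≤ C / Real.log w

/-- MODULE VB (hypothesis StVM).  The products for admissible parameters.
Proof.  RR = PP z (x^θ) and PP 1 (x^θ) = PP 1 z ∪ PP z (x^θ) (disjoint, as z <= x^θ because u >= 1/θ for large x), so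
VV RR = VV (PP 1 (x^θ))/VV (PP 1 z) with log z = log x/u.  log z0 = log x/u - 5 LL x >= log x/(2u), since log x/u >= (LL x)^2
>= 10 LL x for large x (and <= log x/u). -/
def StVB : Prop := ∀ θ : ℝ, 0 < θ → θ < 1 → ∃ c C : ℝ, 0 < c ∧ 0 < C ∧ ∃ X : ℕ, ∀ x : ℕ, X ≤ x → ∀ (y : ℕ) (u : ℝ),
  Par x y u → c / u ≤ VV (RR x u θ) ∧ VV (RR x u θ) ≤ C / u ∧
    c * u / Real.log x ≤ VV (P0 x u) ∧ VV (P0 x u) ≤ C * u / Real.log x

/-- MODULE GAP (input `Pool.Agent.Helper60.GP.hM1 : StM1`, Mertens' first theorem).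
Proof.  ∑_(z0 < p <= z) 1/p <= (1/log z0) ∑_(z0<p<=z) log p/p <= (log z - log z0 + 2C)/log z0 = (5 LL x + 2C)/log z0, and
log z0 = log x/u - 5 LL x >= (LL x)^2 - 5 LL x.  (See `window` in Helper80/QC/M_PRB.lean.) -/
def StGAP : Prop := ∀ η : ℝ, 0 < η → ∃ X : ℕ, ∀ x : ℕ, X ≤ x → ∀ (y : ℕ) (u : ℝ),
  Par x y u → SS (PP (z0 x u) (zz x u)) ≤ η

/-- MODULE WIN (input `Pool.Agent.Helper60.GP.hM2 : StM2`, Mertens for windows).
Proof.  PP (x^θ) (x^(1-δ)) ⊆ {p prime : x^θ <= p, p < ⌈x^(1-δ)⌉} up to the end point p = x^(1-δ) (contribution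
<= x^(-(1-δ)) <= η/2; or use the exponent 1-δ+small). -/
def StWIN : Prop := ∀ θ δ η : ℝ, 0 < θ → 0 < δ → θ < 1 - δ → 0 < η → ∃ X : ℕ, ∀ x : ℕ, X ≤ x →
  SS (PP ((x : ℝ) ^ θ) ((x : ℝ) ^ (1 - δ))) ≤ Real.log ((1 - δ) / θ) + η ∧
    SS (PP ((x : ℝ) ^ (1 - δ)) x) ≤ Real.log (1 / (1 - δ)) + η

/-- MODULE DB (hypothesis StPC).  A dyadic block.
Proof.  At most C v/log v primes <= v, each with 1/p <= 2/v (p > v/2). -/
def StDB : Prop := ∃ C : ℝ, 0 < C ∧ ∀ v : ℝ, 2 ≤ v → SS (PP (v / 2) v) ≤ C / Real.log v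

/-- MODULE D1 (hypothesis StDB).  Proof.  (x/M, x] is covered by the blocks (x/2^(j+1), x/2^j], 0 <= j <= log M/log 2, with
x/2^j >= x/M >= √x, so each block contributes <= C/log √x = 2C/log x; 1 + log M/log 2 blocks. -/
def StD1 : Prop := ∃ C : ℝ, 0 < C ∧ ∃ X : ℕ, ∀ x : ℕ, X ≤ x → ∀ M : ℝ, 1 ≤ M → M ≤ Real.sqrt x →
  SS (PP (x / M) x) ≤ C * (1 + Real.log M) / Real.log x

/-- MODULE D2 (hypothesis StDB).
Proof.  For p in the sum H = y/p >= (log x)^8 >= 2 and H <= √x (log x)^2 <= x.  Group the p by j = ⌊log H/log 2⌋ >= 1, i.e.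
y/2^(j+1) < p <= y/2^j, v = y/2^j >= p >= √x: the block contributes <= C/log √x = 2C/log x and log H >= j log 2.
∑_(1<=j<=log x/log 2) 1/(j log 2) <= (1 + log(log x/log 2))/log 2 <= 4 LL x. -/
def StD2 : Prop := ∃ C : ℝ, 0 < C ∧ ∃ X : ℕ, ∀ x : ℕ, X ≤ x → ∀ y : ℕ, x ≤ y → (y : ℝ) ≤ x * Real.log x ^ 2 →
  ∑ p ∈ (PP (Real.sqrt x) x).filter (fun p : ℕ => (p : ℝ) * Real.log x ^ 8 ≤ y),
    1 / ((p : ℝ) * Real.log ((y : ℝ) / p)) ≤ C * LL x / Real.log x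

/-- MODULE BA (hypotheses StBR, StVM, StSL).  The sieve with relative error η.
Proof.  H = y/q, h = log H, l = LL H, D = PP 1 w, |D|+1 <= w.  log w <= h/l² <= h, so S = SS D <= log log w + C1 <= l + C1 (w >= 3;
for w < 3, S <= 1).  Take r = ⌈8(l + C1)⌉: S^r/r! <= (eS/r)^r <= (e/8)^r <= e^(-r) <= h^(-8), the same for r+1 (n! >= (n/e)^n).
VV D >= c/log w >= c/h, so the main error is <= 2 H h^(-8) <= (η/2) VV D H.  w^r = exp(r log w) <= exp((8l+8C1+1) h/l²) <=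
exp(h/2) = √H <= (η/2)(c/h) H for large H. -/
def StBA : Prop := ∀ η : ℝ, 0 < η → ∃ H0 : ℝ, 1 ≤ H0 ∧ ∀ (y q c : ℕ) (β : ℕ → ℕ) (w : ℝ), 1 ≤ q → 2 ≤ w →
  (∀ s ∈ PP 1 w, ¬ s ∣ q) → H0 ≤ (y : ℝ) / q →
  Real.log w * LL ((y : ℝ) / q) ^ 2 ≤ Real.log ((y : ℝ) / q) →
  |((surv (PP 1 w) β (AP y q c)).card : ℝ) - VV (PP 1 w) * ((y : ℝ) / q)| ≤ η * (VV (PP 1 w) * ((y : ℝ) / q))

/-! ### D. Probabilities.  L = log x, L2 = LL x; R = RR x u θ. -/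

/-- MODULE PE (hypotheses StTL, StUP, StBA, StVB, StSL).  Lower bound for the survivors.
Proof.  AP y 1 0 = Icc 1 y.  Fixed β: W = surv P0 β [1,y], |W| >= (1-η/4) V_P y by StBA (q = 1, w = z0: log z0 <= L/u <= L/L2^5,
LL y <= 2 L2, so log z0 (LL y)² <= 4L/L2³ <= L <= log y).  SS R <= SS (PP 1 x) <= 2 L2.  StTL with η1 = η/(32 L2)
(4 η1 SS R <= η/4), b = 2y/z (a class mod s > z in [1,y] has <= y/s+1 <= 2y/z elements): K = (1-η) VP y,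
|W| V_R e^(-η/4) >= (1-η/4)² VP y >= (1-η/2) VP y, so the exponent is <= -(η1 z/(2y))(η/2) VP y = -η1 η z VP/4 <= -z/L² for large x
(VP >= c²/L).  StUP with w = z0 = z/L^5: total <= exp(2z/L^5 - z/L²) <= exp(-4L), as z = exp(L/u) >= exp(L2²) >= L^10. -/
def StPE : Prop := ∀ θ η : ℝ, 0 < θ → θ < 1 → 0 < η → η < 1 → ∃ X : ℕ, ∀ x : ℕ, X ≤ x → ∀ (y : ℕ) (u : ℝ), Par x y u →
  Pr (RR x u θ) (fun a => ∃ β : ℕ → ℕ,
    ((surv (RR x u θ) a (surv (P0 x u) β (Icc 1 y))).card : ℝ) ≤ (1 - η) * VP x u θ * y) ≤ 1 / (x : ℝ) ^ 4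

/-- MODULE PA (hypotheses StTU, StUP, StAPC, StBA, StVB, StSL).  Covering primes up to x^(1-δ).
Proof.  H = y/p >= x^δ, A = AP y p c.  Fixed β: |surv P0 β A| <= (1+η/8) V_P H (StBA, q = p, w = z0 < p; log z0 <= L/L2^5, LL H <= 2 L2,
log H >= δ L).  StTU: η1 = η/(64 L2), 2 η1 SS R <= η/16, e^(η/16) <= 1+η/8; b = 2H/z (s ∈ R, s ≠ p prime, so by StAPC with T = {s} a
class mod s in A has <= H/s + 1 <= 2H/z elements, as H >= x^δ >= z); K = (1+η) VP H, K - |W| V_R (1+η/8) >= (η/2) VP H.  Exponent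
<= -(2η1 z/(2H)) (η/2) VP H = -η1 η z VP/2 <= -z/L².  StUP (w = z0) as in PE. -/
def StPA : Prop := ∀ θ δ η : ℝ, 0 < θ → θ < 1 → 0 < δ → δ < 1 → 0 < η → η ≤ 1 →
  ∃ X : ℕ, ∀ x : ℕ, X ≤ x → ∀ (y : ℕ) (u : ℝ), Par x y u →
  ∀ p : ℕ, p.Prime → z0 x u < p → p ∉ RR x u θ → (p : ℝ) ≤ (x : ℝ) ^ (1 - δ) → ∀ c : ℕ,
  Pr (RR x u θ) (fun a => ∃ β : ℕ → ℕ,
    (1 + η) * VP x u θ * ((y : ℝ) / p) ≤ ((surv (RR x u θ) a (surv (P0 x u) β (AP y p c))).card : ℝ)) ≤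
      1 / (x : ℝ) ^ 4

/-- MODULE PB (hypotheses StTU, StUP, StAPC, StBA, StVM, StVB, StSL).  Covering primes with L^8 <= H = y/p <= √x L².
Proof.  w := min(z0, exp(log H/(LL H)²)) >= 2; W = surv (PP 1 w) β A ⊇ surv P0 β A (`surv_mono`, w <= z0).  StBA (η = 1):
|W| <= 2 VV(PP 1 w) H <= 2C H/log w, and 1/log w <= 1/log z0 + (LL H)²/log H <= 1/log z0 + L2²/log H (H <= x).
K := C1 V_R H (1/log z0 + L2²/log H) >= C1 V_R H/log w with C1 = 12 C, so 3|W|V_R <= K/2.  StTU with η1 = 1/(4 L2)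
(2 η1 SS R <= 1, e <= 3), b = H/z + 1: exponent <= -(2η1/b)(K/2) = -η1 K/b.  K >= C1 V_R H/log z0 >= C1 (c/u) H u/L = c C1 H/L, so
η1 K/b >= min(H,z)/L² for large x.  StUP with this w: 2w <= 2z/L^5 and 2w <= 2 H^(1/4); hence 2w - min(H,z)/L² <= -4L
(if z <= H use z >= L^10; if H < z use H >= L^8).  Monotonicity (`Pr_mono`) from surv P0 to surv (PP 1 w). -/
def StPB : Prop := ∀ θ : ℝ, 0 < θ → θ < 1 → ∃ C1 : ℝ, 0 < C1 ∧ ∃ X : ℕ, ∀ x : ℕ, X ≤ x → ∀ (y : ℕ) (u : ℝ), Par x y u →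
  ∀ p : ℕ, p.Prime → (x : ℝ) ^ θ < p → Real.sqrt x ≤ p → p ≤ x → (p : ℝ) * Real.log x ^ 8 ≤ y → ∀ c : ℕ,
  Pr (RR x u θ) (fun a => ∃ β : ℕ → ℕ,
    C1 * VV (RR x u θ) * ((y : ℝ) / p) * (1 / Real.log (z0 x u) + LL x ^ 2 / Real.log ((y : ℝ) / p)) ≤
      ((surv (RR x u θ) a (surv (P0 x u) β (AP y p c))).card : ℝ)) ≤ 1 / (x : ℝ) ^ 4

/-- MODULE PM (hypothesis StKS).  Covering primes with H = y/p < L^8.
Proof.  surv R a (surv P0 β A) ⊆ surv R a A, A = AP y p c, |A| <= H + 1.  Distinct classes: m ≡ m' mod s and mod p, s ≠ p primes (s <= x^θ < p),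
so ps | m - m', |m-m'| < y < p L^8 <= p s (s > z >= L^8): m = m'.  k := ⌈e²|A|V_R + 4L⌉ <= 8 V_R (H+1) + 4L + 1; StKS:
(e|A|V_R/k)^k <= e^(-k) <= e^(-4L). -/
def StPM : Prop := ∀ θ : ℝ, 0 < θ → θ < 1 → ∃ X : ℕ, ∀ x : ℕ, X ≤ x → ∀ (y : ℕ) (u : ℝ), Par x y u →
  ∀ p : ℕ, p.Prime → (x : ℝ) ^ θ < p → (y : ℝ) < p * Real.log x ^ 8 → ∀ c : ℕ,
  Pr (RR x u θ) (fun a => ∃ β : ℕ → ℕ,
    8 * (VV (RR x u θ) * ((y : ℝ) / p + 1)) + 4 * Real.log x + 1 ≤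
      ((surv (RR x u θ) a (surv (P0 x u) β (AP y p c))).card : ℝ)) ≤ 1 / (x : ℝ) ^ 4

/-- MODULE PD (hypotheses StKS, StVB).  The largest covering primes, p >= x/√u.
Proof.  H = y/p <= C √u L/log u, |A| <= H+1 <= 2(C+1) √u L/log u, V_R <= C0/u; distinct classes as in PM (y/p <= L^2 <= z for large x).
k := ⌈12 L/log u⌉ <= 13 L/log u (log u <= L2 <= L for large x, so L/log u >= 1).  e|A|V_R/k <= C' u^(-1/2) <= u^(-1/3) for large x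
(u >= L2^5), so Pr <= u^(-k/3) <= exp(-(log u/3) 12 L/log u) = exp(-4L). -/
def StPD : Prop := ∀ θ C : ℝ, 0 < θ → θ < 1 → 0 < C → ∃ X : ℕ, ∀ x : ℕ, X ≤ x → ∀ (y : ℕ) (u : ℝ), Par x y u →
  (y : ℝ) * Real.log u ≤ C * x * Real.log x →
  ∀ p : ℕ, p.Prime → (x : ℝ) ^ θ < p → (x : ℝ) ≤ p * Real.sqrt u → ∀ c : ℕ,
  Pr (RR x u θ) (fun a => ∃ β : ℕ → ℕ,
    13 * Real.log x / Real.log u ≤ ((surv (RR x u θ) a (surv (P0 x u) β (AP y p c))).card : ℝ)) ≤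
      1 / (x : ℝ) ^ 4

/-! ### E. Sums over the covering primes -/

/-- MODULE SB (hypotheses StVB, StWIN, StD2).
Proof.  The sum is C1 V_R y [(1/log z0) ∑ 1/p + L2² ∑ 1/(p log(y/p))] <= C1 V_R y [(2u/L)(log(1/(1-δ)) + δ) + L2² C L2/L] (StWIN with
η = δ; log z0 >= L/(2u); x^(1-δ) >= √x), and VP = V_P V_R >= (c u/L) V_R.  With log(1/(1-δ)) <= 2δ the first part is
<= (6 C1 δ/c) VP y <= (κ/2) VP y for δ <= δ0, the second is <= (C1 C L2³/(c u)) VP y <= (κ/2) VP y for large x (u >= L2^5). -/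
def StSB : Prop := ∀ θ C1 κ : ℝ, 0 < θ → θ < 1 → 0 < C1 → 0 < κ → ∃ δ0 : ℝ, 0 < δ0 ∧ ∀ δ : ℝ, 0 < δ → δ ≤ δ0 →
  δ ≤ 1 / 2 → θ < 1 - δ → ∃ X : ℕ, ∀ x : ℕ, X ≤ x → ∀ (y : ℕ) (u : ℝ), Par x y u →
  ∑ p ∈ (PP ((x : ℝ) ^ (1 - δ)) x).filter (fun p : ℕ => (p : ℝ) * Real.log x ^ 8 ≤ y),
    C1 * VV (RR x u θ) * ((y : ℝ) / p) * (1 / Real.log (z0 x u) + LL x ^ 2 / Real.log ((y : ℝ) / p)) ≤
      κ * VP x u θ * y

/-- MODULE SC (hypotheses StVB, StD1, StPC).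
Proof.  The p are in (x/L^8, x] (y >= x), so ∑ 8 V_R y/p <= 8 V_R y C (1+8 L2)/L (StD1, M = L^8) <= (κ/2) VP y, as VP >= (c u/L) V_R
and u >= L2^5.  The rest: (8 V_R + 4L + 1) #{p <= x/√u} <= 13 L C x/(√u log(x/√u)) <= 26 C x/√u (V_R <= 1, log(x/√u) >= L/2), while
VP y >= (c²/L) y >= c² x/log u by the hypothesis x L <= y log u; log u/√u -> 0. -/
def StSC : Prop := ∀ θ κ : ℝ, 0 < θ → θ < 1 → 0 < κ → ∃ X : ℕ, ∀ x : ℕ, X ≤ x → ∀ (y : ℕ) (u : ℝ), Par x y u →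
  (x : ℝ) * Real.log x ≤ y * Real.log u →
  ∑ p ∈ (PP 1 x).filter (fun p : ℕ => (y : ℝ) < p * Real.log x ^ 8 ∧ (p : ℝ) * Real.sqrt u < x),
    (8 * (VV (RR x u θ) * ((y : ℝ) / p + 1)) + 4 * Real.log x + 1) ≤ κ * VP x u θ * y

/-- MODULE SD (hypotheses StVB, StPC).
Proof.  At most C_π x/L primes <= x, so the sum is <= 13 C_π x/log u, while VP y >= (c²/L) y >= c² C x/log u.  C0 = 13 C_π/(κ c²). -/
def StSD : Prop := ∀ θ κ : ℝ, 0 < θ → θ < 1 → 0 < κ → ∃ C0 : ℝ, 1 ≤ C0 ∧ ∃ X : ℕ, ∀ x : ℕ, X ≤ x → ∀ (y : ℕ) (u : ℝ),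
  Par x y u → C0 * x * Real.log x ≤ y * Real.log u →
  ∑ _p ∈ PP 1 x, 13 * Real.log x / Real.log u ≤ κ * VP x u θ * y

/-! ### F. The theorem -/

/-- `b` covers `[1,y]` with the primes up to `x` -/
def Cov (x y : ℕ) (b : ℕ → ℕ) : Prop := ∀ m : ℕ, 1 ≤ m → m ≤ y → ∃ p : ℕ, p.Prime ∧ p ≤ x ∧ m ≡ b p [MOD p]

/-- MODULE COV.  The deterministic step.
Proof.  m in the left set avoids b on P and R, so it is covered by some p ∈ Q: m ∈ AP y p (b p), and m survives P and R: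
the left set is contained in the union over p ∈ Q (`card_biUnion_le`). -/
def StCOV : Prop := ∀ (x y : ℕ) (b : ℕ → ℕ) (P R Q : Finset ℕ),
  (∀ p : ℕ, p.Prime → p ≤ x → p ∈ P ∨ p ∈ R ∨ p ∈ Q) → Cov x y b →
  (surv R b (surv P b (Icc 1 y))).card ≤ ∑ p ∈ Q, (surv R b (surv P b (AP y p (b p)))).card

/-- MODULE MAIN (hypotheses StPE, StPA, StPB, StPM, StPD, StSB, StSC, StSD, StWIN, StGAP, StCOV).
Proof.  λ = log(1/θ) < 1, η = κ = (1-λ)/20.  C1 from StPB, δ from StSB (δ <= δ0, δ <= 1/2, θ < 1-δ), C := max C0 1 from StSD.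
Let y0 be the least natural number with C x L <= y0 log u; y0 <= y, and Par x y0 u holds for large x (1 <= log u <= log L <= L:
y0 >= C x L/log u >= x, y0 <= C x L/log u + 1 <= x L²), y0 log u <= 2 C x L.  A covering of [1,y] covers [1,y0].
Q := primes in (z0, x] outside R.  Bad event: the event of StPE or, for some p ∈ Q and c < p, the event of StPA (p <= x^(1-δ)),
StPB (p > x^(1-δ), p L^8 <= y0), StPM (p > x^(1-δ), y0 < p L^8, p√u < x), StPD (p > x^(1-δ), y0 < p L^8, x <= p√u); its probability is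
<= x^(-4) + x² x^(-4) <= 1/x.  Outside, a covering b extending a gives (StCOV with P = P0, b p replaced by b p % p):
(1-η) VP y0 < |S| <= ∑_(p∈Q) K_p <= (1+η) VP y0 (SS(gap) + SS(PP x^θ x^(1-δ))) + 3κ VP y0 <= VP y0 ((1+η)(λ+2η) + 3κ) (StGAP, StWIN:
log((1-δ)/θ) <= λ), and (1+η)(λ+2η)+3η+η < 1: contradiction (VP y0 > 0). -/
def StMAIN : Prop := ∀ θ : ℝ, Real.exp (-1) < θ → θ < 1 → ∃ C : ℝ, 0 < C ∧ ∃ X : ℕ, ∀ x : ℕ, X ≤ x → ∀ u : ℝ,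
  LL x ^ 5 ≤ u → u * LL x ^ 2 ≤ Real.log x → ∀ y : ℕ, C * x * Real.log x ≤ y * Real.log u →
  Pr (RR x u θ) (fun a => ∃ b : ℕ → ℕ, (∀ s ∈ RR x u θ, b s = a s) ∧ Cov x y b) ≤ 1 / (x : ℝ)

/-- MODULE EXT.  Larger random sets.
Proof.  Restriction a ↦ (a on R, 0 outside) maps CH R' onto CH R, each fibre has ∏_(s ∈ R' \ R) s elements (or induction on R' \ R
with `sum_CH_insert`); E is invariant. -/
def StEXT : Prop := ∀ (R R' : Finset ℕ) (E : (ℕ → ℕ) → Prop), R ⊆ R' → (∀ s ∈ R', 1 ≤ s) →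
  (∀ a a' : ℕ → ℕ, (∀ s ∈ R, a s = a' s) → (E a ↔ E a')) → Pr R' E = Pr R E

/-- the final statement -/
def StFIN : Prop := ∀ θ : ℝ, Real.exp (-1) < θ → θ < 1 → ∃ C : ℝ, 0 < C ∧ ∃ X : ℕ, ∀ x : ℕ, X ≤ x → ∀ u : ℝ,
  LL x ^ 5 ≤ u → u * LL x ^ 2 ≤ Real.log x → ∀ y : ℕ, C * x * Real.log x ≤ y * Real.log u →
  ∀ R' : Finset ℕ, RR x u θ ⊆ R' → (∀ s ∈ R', 1 ≤ s) →
  Pr R' (fun a => ∃ b : ℕ → ℕ, (∀ s ∈ R', b s = a s) ∧ Cov x y b) ≤ 1 / (x : ℝ)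

end Pool.Agent.Helper69.RM
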