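import Mathlib
import Pool.Agent.Helper69.RM.St

set_option autoImplicit false

namespace Pool.Agent.Helper69.RM

open Finset

theorem hPC : StPC := by
  refine ⟨2 * Real.log 4 + 2, by positivity, fun x hx => ?_⟩
  have hx0 : (0 : ℝ) < x := by linarith
  have hlog : 0 < Real.log x := Real.log_pos (by linarith)
  have h1 : ((PP 1 x).card : ℝ) ≤ (Nat.primeCounting ⌊x⌋₊ : ℝ) := by
    have h2 : PP 1 x ⊆ (range (⌊x⌋₊ + 1)).filter Nat.Prime := by
      intro p hp
      unfold PP at hp
      rw [mem_filter, mem_Ioc] at hp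
      rw [mem_filter, mem_range]
      exact ⟨by omega, hp.2⟩
    have h3 := card_le_card h2
    have h4 : ((range (⌊x⌋₊ + 1)).filter Nat.Prime).card = Nat.primeCounting ⌊x⌋₊ := by
      unfold Nat.primeCounting Nat.primeCounting'
      rw [Nat.count_eq_card_filter_range]
    rw [h4] at h3
    exact_mod_cast h3
  have h5 := Chebyshev.pi_le_log4_mul_div (x := x) (by linarith)
  have h6 : Real.log (√x) = Real.log x / 2 := Real.log_sqrt hx0.le
  rw [h6] at h5
  have hs : 0 < √x := Real.sqrt_pos.2 hx0
  have h7 : Real.log x ≤ 2 * √x := by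
    have h8 := Real.log_le_sub_one_of_pos hs
    rw [h6] at h8
    linarith
  have h9 : √x ≤ 2 * x / Real.log x := by
    rw [le_div_iff₀ hlog]
    have h10 : √x * √x = x := Real.mul_self_sqrt hx0.le
    nlinarith
  calc ((PP 1 x).card : ℝ) ≤ _ := h1
    _ ≤ _ := h5
    _ ≤ Real.log 4 * x / (Real.log x / 2) + 2 * x / Real.log x := by linarith
    _ = (2 * Real.log 4 + 2) * x / Real.log x := by
      field_simp

end Pool.Agent.Helper69.RM
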