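import Pool.Agent.Helper69.RM.St

set_option autoImplicit false

namespace Pool.Agent.Helper69.RM

open Finset

/-- a progression modulo `p` has at most `y/p + 1` elements in `[1,y]` -/
private theorem card_AP_PD (y p c : ℕ) (hp : 1 ≤ p) : ((AP y p c).card : ℝ) ≤ (y : ℝ) / p + 1 := by
  have h2 : (AP y p c) ⊆ ((Ioc 0 y).filter (fun m => m ≡ c [MOD p])) := by
    intro m hm
    rw [mem_AP] at hm
    rw [mem_filter, mem_Ioc]
    exact ⟨⟨by omega, hm.2.1⟩, hm.2.2⟩
  have h3 := Nat.Ioc_filter_modEq_card 0 y (show 0 < p by omega) c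
  have hp0 : (0 : ℚ) < p := by exact_mod_cast hp
  have h4 : ((((Ioc 0 y).filter (fun m => m ≡ c [MOD p])).card : ℤ) : ℚ) ≤ (y : ℚ) / p + 1 := by
    rw [h3, Int.cast_max]
    refine max_le ?_ (by push_cast; positivity)
    have h5 := Int.floor_le ((((y : ℕ) : ℚ) - c) / p)
    have h6 := Int.lt_floor_add_one ((((0 : ℕ) : ℚ) - c) / p)
    have h7 : (((y : ℕ) : ℚ) - c) / p = (((0 : ℕ) : ℚ) - c) / p + (y : ℚ) / p := by
      rw [← add_div]
      congr 1
      push_cast
      ring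
    push_cast at h5 h6 h7 ⊢
    linarith
  have h5 : ((((Ioc 0 y).filter (fun m => m ≡ c [MOD p])).card : ℕ) : ℝ) ≤ (y : ℝ) / p + 1 := by
    have h6 : (((((Ioc 0 y).filter (fun m => m ≡ c [MOD p])).card : ℕ) : ℚ) : ℝ) ≤ (((y : ℚ) / p + 1 : ℚ) : ℝ) := by
      exact_mod_cast h4
    push_cast at h6
    exact h6
  exact le_trans (by exact_mod_cast card_le_card h2) h5

/-- `LL x` is large for large `x` -/
private theorem LL_large_PD (M : ℝ) : ∃ X : ℕ, ∀ x : ℕ, X ≤ x → M ≤ LL x := by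
  obtain ⟨X, hX⟩ := exists_nat_ge (Real.exp (Real.exp M))
  refine ⟨X, fun x hx => ?_⟩
  have h1 : Real.exp (Real.exp M) ≤ x := hX.trans (by exact_mod_cast hx)
  have hx0 : (0 : ℝ) < x := lt_of_lt_of_le (Real.exp_pos _) h1
  have h2 : Real.exp M ≤ Real.log x := (Real.le_log_iff_exp_le hx0).mpr h1
  have h3 : 0 < Real.log x := lt_of_lt_of_le (Real.exp_pos _) h2
  unfold LL
  exact (Real.le_log_iff_exp_le h3).mpr h2

/-- real analysis: `e (C √u L/v + 1) (C0/u) / k ≤ exp(-v/3)`, `v = log u`, `12 L/v ≤ k` -/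
private theorem ra_PD {C C0 u L k A V : ℝ} (hC : 0 < C) (hu : 1 < u) (hL : Real.log u ≤ L)
    (hk : 12 * L / Real.log u ≤ k) (hA0 : 0 ≤ A) (hA : A ≤ C * Real.sqrt u * L / Real.log u + 1)
    (hV0 : 0 ≤ V) (hV : V ≤ C0 / u) (hbig : C0 * (C + 1) ≤ Real.exp (Real.log u / 6)) :
    Real.exp 1 * A * V / k ≤ Real.exp (-(Real.log u / 3)) := by
  obtain ⟨v, hv⟩ : ∃ v : ℝ, v = Real.log u := ⟨_, rfl⟩
  have hv0 : 0 < v := by rw [hv]; exact Real.log_pos hu
  rw [← hv] at hL hk hA hbig ⊢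
  have hu0 : 0 < u := by linarith
  have hsq : Real.sqrt u = Real.exp (v / 2) := by
    rw [Real.sqrt_eq_rpow, Real.rpow_def_of_pos hu0, ← hv]
    congr 1
    ring
  have hue : u = Real.exp v := by rw [hv, Real.exp_log hu0]
  have hL0 : 0 < L := by linarith
  have hLv : 1 ≤ L / v := by rw [le_div_iff₀ hv0]; linarith
  have hs1 : 1 ≤ Real.exp (v / 2) := Real.one_le_exp (by linarith)
  have hk0 : 0 < k := lt_of_lt_of_le (by positivity) hk
  have hA2 : A ≤ (C + 1) * Real.exp (v / 2) * (L / v) := by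
    rw [hsq] at hA
    have h1 : C * Real.exp (v / 2) * L / v = C * Real.exp (v / 2) * (L / v) := by ring
    rw [h1] at hA
    have h2 : 1 ≤ Real.exp (v / 2) * (L / v) := one_le_mul_of_one_le_of_one_le hs1 hLv
    nlinarith
  have hV2 : V ≤ C0 * Real.exp (-v) := by
    rw [hue, div_eq_mul_inv, ← Real.exp_neg] at hV
    exact hV
  rw [div_le_iff₀ hk0]
  have he : Real.exp 1 ≤ 12 := by
    have := Real.exp_one_lt_d9
    linarith
  have h3 : A * V ≤ ((C + 1) * Real.exp (v / 2) * (L / v)) * (C0 * Real.exp (-v)) :=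
    mul_le_mul hA2 hV2 hV0 (by positivity)
  calc Real.exp 1 * A * V = Real.exp 1 * (A * V) := by ring
    _ ≤ 12 * (((C + 1) * Real.exp (v / 2) * (L / v)) * (C0 * Real.exp (-v))) :=
        mul_le_mul he h3 (mul_nonneg hA0 hV0) (by norm_num)
    _ = (C0 * (C + 1)) * (Real.exp (v / 2) * Real.exp (-v)) * (12 * L / v) := by ring
    _ ≤ Real.exp (v / 6) * (Real.exp (v / 2) * Real.exp (-v)) * (12 * L / v) := by
        refine mul_le_mul_of_nonneg_right ?_ (by positivity)
        exact mul_le_mul_of_nonneg_right hbig (by positivity)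
    _ = Real.exp (-(v / 3)) * (12 * L / v) := by
        rw [← Real.exp_add, ← Real.exp_add]
        congr 2
        ring
    _ ≤ Real.exp (-(v / 3)) * k := mul_le_mul_of_nonneg_left hk (Real.exp_pos _).le

theorem hPD (hKS : StKS) (hVB : StVB) : StPD := by
  intro θ C hθ0 hθ1 hC
  obtain ⟨c1, C0, hc1, hC0, X0, hX0⟩ := hVB θ hθ0 hθ1
  obtain ⟨M, hM1, hM2, hM3⟩ : ∃ M : ℝ, 10 ≤ M ∧ C + 3 ≤ M ∧ 6 * (C0 * (C + 1)) ≤ M :=
    ⟨max (max 10 (C + 3)) (6 * (C0 * (C + 1))), le_max_of_le_left (le_max_left _ _),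
      le_max_of_le_left (le_max_right _ _), le_max_right _ _⟩
  obtain ⟨X1, hX1⟩ := LL_large_PD (max M (Real.exp M))
  refine ⟨max X0 X1, fun x hx y u hPar hyu p hp hpθ hpu c => ?_⟩
  have hVR := (hX0 x ((le_max_left _ _).trans hx) y u hPar).2.1
  have hl := hX1 x ((le_max_right _ _).trans hx)
  have hlM : M ≤ LL x := (le_max_left _ _).trans hl
  have hlM' : Real.exp M ≤ LL x := (le_max_right _ _).trans hl
  obtain ⟨l, hldef⟩ : ∃ l : ℝ, l = LL x := ⟨_, rfl⟩
  obtain ⟨L, hLdef⟩ : ∃ L : ℝ, L = Real.log x := ⟨_, rfl⟩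
  obtain ⟨hP1, hP2, hP3, hP4⟩ := hPar
  rw [← hldef] at hlM hlM' hP1 hP2
  rw [← hLdef] at hP2 hP4 hyu ⊢
  have hl0 : 10 ≤ l := hM1.trans hlM
  have hLpos : 0 < L := by
    rw [hLdef]
    by_contra hcon
    have h1 : Real.log x = 0 := le_antisymm (not_lt.mp hcon) (Real.log_natCast_nonneg x)
    have h2 : LL x = 0 := by
      unfold LL
      rw [h1, Real.log_zero]
    rw [hldef, h2] at hl0
    linarith
  have hLl : L = Real.exp l := by
    rw [hldef, hLdef]
    unfold LL
    rw [Real.exp_log]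
    rw [← hLdef]
    exact hLpos
  have hxpos : (0 : ℝ) < x := by
    by_contra hcon
    have h1 : (x : ℝ) = 0 := le_antisymm (not_lt.mp hcon) (Nat.cast_nonneg x)
    rw [hLdef, h1, Real.log_zero] at hLpos
    exact absurd hLpos (lt_irrefl 0)
  have hx1 : 1 ≤ x := by
    have : 0 < x := by exact_mod_cast hxpos
    omega
  have hul : l ≤ u := by
    calc l = l ^ 1 := (pow_one l).symm
      _ ≤ l ^ 5 := pow_le_pow_right₀ (by linarith) (by norm_num)
      _ ≤ u := hP1
  have hu1 : 1 < u := by linarith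
  have hu0 : 0 < u := by linarith
  have hlu : 0 < Real.log u := Real.log_pos hu1
  have hMu : M ≤ Real.log u := by
    rw [Real.le_log_iff_exp_le hu0]
    linarith
  have huL : u ≤ L := by
    have : u * 1 ≤ u * l ^ 2 := mul_le_mul_of_nonneg_left (one_le_pow₀ (by linarith)) hu0.le
    linarith
  have hluL : Real.log u ≤ L := by
    have := Real.log_le_sub_one_of_pos hu0
    linarith
  -- the primes
  have hp1 : 1 ≤ p := hp.one_lt.le
  have hp0 : (0 : ℝ) < p := by exact_mod_cast hp.pos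
  have hsu : 0 < Real.sqrt u := Real.sqrt_pos.mpr hu0
  obtain ⟨R, hRdef⟩ : ∃ R, R = RR x u θ := ⟨_, rfl⟩
  rw [← hRdef] at hVR ⊢
  have hzpos : 0 ≤ zz x u := (Real.exp_pos _).le
  have hRs : ∀ s ∈ R, zz x u < s ∧ (s : ℝ) ≤ (x : ℝ) ^ θ ∧ s.Prime := by
    intro s hs
    rw [hRdef] at hs
    exact (mem_PP hzpos).mp hs
  have hz : L ^ 3 ≤ zz x u := by
    unfold zz
    rw [← hLdef]
    have h1 : l ^ 2 ≤ L / u := by
      rw [le_div_iff₀ hu0]
      linarith
    have h2 : L ^ 3 = Real.exp (3 * l) := by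
      rw [hLl, ← Real.exp_nat_mul]
      norm_num
    rw [h2]
    refine Real.exp_le_exp.mpr (le_trans ?_ h1)
    nlinarith
  -- y < p z
  have hypz : (y : ℝ) < p * zz x u := by
    have h1 : (y : ℝ) ≤ p * Real.sqrt u * L ^ 2 :=
      hP4.trans (mul_le_mul_of_nonneg_right hpu (by positivity))
    have h2 : Real.sqrt u < L := by
      have h3 : Real.sqrt u ≤ Real.sqrt L := Real.sqrt_le_sqrt huL
      have hL1 : 1 < L := by rw [hLl]; exact Real.one_lt_exp_iff.mpr (by linarith)
      have h4 : Real.sqrt L < L := by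
        rw [Real.sqrt_lt' hLpos]
        nlinarith
      linarith
    have h3 : (p : ℝ) * Real.sqrt u * L ^ 2 < p * L ^ 3 := by
      have h4 : (p : ℝ) * Real.sqrt u < p * L := mul_lt_mul_of_pos_left h2 hp0
      have h5 : (p : ℝ) * L ^ 3 = p * L * L ^ 2 := by ring
      rw [h5]
      exact mul_lt_mul_of_pos_right h4 (by positivity)
    have h4 : (p : ℝ) * L ^ 3 ≤ p * zz x u := mul_le_mul_of_nonneg_left hz hp0.le
    linarith
  -- distinct classes
  have hdist : ∀ s ∈ R, ∀ m ∈ AP y p c, ∀ m' ∈ AP y p c, m ≡ m' [MOD s] → m = m' := by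
    have haux : ∀ s ∈ R, ∀ m ∈ AP y p c, ∀ m' ∈ AP y p c, m ≡ m' [MOD s] → m ≤ m' → m = m' := by
      intro s hs m hm m' hm' hmod hle
      obtain ⟨hs1, hs2, hs3⟩ := hRs s hs
      have hsp : s ≠ p := by
        intro h
        rw [h] at hs2
        linarith
      rw [mem_AP] at hm hm'
      have hmp : m ≡ m' [MOD p] := hm.2.2.trans hm'.2.2.symm
      have h1 : s ∣ m' - m := (Nat.modEq_iff_dvd' hle).mp hmod
      have h2 : p ∣ m' - m := (Nat.modEq_iff_dvd' hle).mp hmp
      have h3 : p * s ∣ m' - m :=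
        Nat.Coprime.mul_dvd_of_dvd_of_dvd ((Nat.coprime_primes hp hs3).mpr (Ne.symm hsp)) h2 h1
      by_contra hne
      have h4 : 0 < m' - m := by omega
      have h5 := Nat.le_of_dvd h4 h3
      have h6 : p * s ≤ y := by omega
      have h7 : (p : ℝ) * s ≤ y := by exact_mod_cast h6
      have h8 : (p : ℝ) * zz x u < p * s := mul_lt_mul_of_pos_left hs1 hp0
      linarith
    intro s hs m hm m' hm' hmod
    rcases le_total m m' with h | h
    · exact haux s hs m hm m' hm' hmod h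
    · exact (haux s hs m' hm' m hm hmod.symm h).symm
  -- k
  obtain ⟨k, hk⟩ : ∃ k : ℕ, k = ⌈12 * L / Real.log u⌉₊ := ⟨_, rfl⟩
  have hLu1 : 1 ≤ L / Real.log u := by rw [le_div_iff₀ hlu]; linarith
  have hk1 : 12 * L / Real.log u ≤ k := by rw [hk]; exact Nat.le_ceil _
  have hk2 : (k : ℝ) ≤ 13 * L / Real.log u := by
    have h1 : (k : ℝ) < 12 * L / Real.log u + 1 := by
      rw [hk]
      exact Nat.ceil_lt_add_one (by positivity)
    have h2 : 13 * L / Real.log u = 12 * L / Real.log u + L / Real.log u := by ring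
    rw [h2]
    linarith
  have hkpos : 1 ≤ k := by
    have h1 : (0 : ℝ) < k := lt_of_lt_of_le (by positivity) hk1
    exact_mod_cast h1
  have hKS' := hKS R (AP y p c) k (fun s hs => (hRs s hs).2.2.one_lt.le) hdist hkpos
  refine (Pr_mono (F := fun a => k ≤ (surv R a (AP y p c)).card) ?_).trans (hKS'.trans ?_)
  · rintro a _ ⟨β, hβ⟩
    have h1 : (surv R a (surv (P0 x u) β (AP y p c))).card ≤ (surv R a (AP y p c)).card :=
      card_le_card (surv_mono (Subset.refl R) surv_subset)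
    have h2 : (k : ℝ) ≤ ((surv R a (AP y p c)).card : ℝ) :=
      hk2.trans (hβ.trans (by exact_mod_cast h1))
    exact_mod_cast h2
  · -- the estimate
    have hcard := card_AP_PD y p c hp1
    have hyp : (y : ℝ) / p ≤ C * Real.sqrt u * L / Real.log u := by
      rw [div_le_div_iff₀ hp0 hlu]
      calc (y : ℝ) * Real.log u ≤ C * x * L := hyu
        _ ≤ C * (p * Real.sqrt u) * L := by
            refine mul_le_mul_of_nonneg_right ?_ hLpos.le
            exact mul_le_mul_of_nonneg_left hpu hC.le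
        _ = C * Real.sqrt u * L * p := by ring
    have hVR0 : 0 ≤ VV R := by
      unfold VV
      refine prod_nonneg (fun s hs => ?_)
      have h1 := (hRs s hs).2.2.one_lt.le
      have h2 : (1 : ℝ) ≤ s := by exact_mod_cast h1
      have h3 : 1 / (s : ℝ) ≤ 1 := by rw [div_le_one (by linarith)]; exact h2
      linarith
    have hbig : C0 * (C + 1) ≤ Real.exp (Real.log u / 6) := by
      have h1 := Real.add_one_le_exp (Real.log u / 6)
      linarith
    have h1 := ra_PD (L := L) (k := k) hC hu1 hluL hk1 (Nat.cast_nonneg _)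
      (hcard.trans (by linarith)) hVR0 hVR hbig
    have h0 : 0 ≤ Real.exp 1 * ((AP y p c).card : ℝ) * VV R / k := by positivity
    have h2 := pow_le_pow_left₀ h0 h1 k
    refine h2.trans ?_
    rw [← Real.exp_nat_mul]
    have h3 : 1 / (x : ℝ) ^ 4 = Real.exp (-(4 * L)) := by
      rw [Real.exp_neg, hLdef, one_div]
      congr 1
      have : Real.exp (4 * Real.log x) = Real.exp (Real.log x) ^ 4 := by
        rw [← Real.exp_nat_mul]
        norm_num
      rw [this, Real.exp_log hxpos]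
    rw [h3]
    refine Real.exp_le_exp.mpr ?_
    have h4 : 12 * L / Real.log u * (Real.log u / 3) = 4 * L := by
      field_simp
      ring
    have h5 : 12 * L / Real.log u * (Real.log u / 3) ≤ k * (Real.log u / 3) :=
      mul_le_mul_of_nonneg_right hk1 (by linarith)
    rw [h4] at h5
    linarith

end Pool.Agent.Helper69.RM
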