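import Pool.Agent.Helper69.RM.St

set_option autoImplicit false

/-! Project RM (helper69), MP_924f75_nt, module PE (helper38): lower bound for the survivors. -/

namespace Pool.Agent.Helper69.RM

open Finset

namespace PE38

theorem card_AP_le (y q c : ℕ) (hq : 1 ≤ q) : ((AP y q c).card : ℝ) ≤ (y : ℝ) / q + 1 := by
  have h1 : AP y q c = (Ioc 0 y).filter (fun m => m ≡ c [MOD q]) := by
    unfold AP
    congr 1
  rw [h1]
  have h2 := Nat.Ioc_filter_modEq_card (a := 0) (b := y) (r := q) hq c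
  have h3 : ((((Ioc 0 y).filter (fun m => m ≡ c [MOD q])).card : ℕ) : ℚ) ≤ (y : ℚ) / q + 1 := by
    have h4 : ((((Ioc 0 y).filter (fun m => m ≡ c [MOD q])).card : ℕ) : ℤ) =
      max (⌊((y : ℚ) - c) / (q : ℚ)⌋ - ⌊((0 : ℕ) - (c : ℚ)) / (q : ℚ)⌋) 0 := by
      rw [← h2]
    have h5 : ((((((Ioc 0 y).filter (fun m => m ≡ c [MOD q])).card : ℕ) : ℤ)) : ℚ) ≤ (y : ℚ) / q + 1 := by
      rw [h4, Int.cast_max]
      apply max_le
      · push_cast
        have e1 := Int.floor_le (((y : ℚ) - c) / (q : ℚ))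
        have e2 := Int.lt_floor_add_one ((0 - (c : ℚ)) / (q : ℚ))
        have e3 : ((y : ℚ) - c) / (q : ℚ) - (0 - (c : ℚ)) / (q : ℚ) = (y : ℚ) / q := by ring
        linarith
      · push_cast
        positivity
    exact_mod_cast h5
  have h6 : (((((Ioc 0 y).filter (fun m => m ≡ c [MOD q])).card : ℕ) : ℚ) : ℝ) ≤ (((y : ℚ) / q + 1 : ℚ) : ℝ) := by
    exact_mod_cast h3
  push_cast at h6
  exact h6

theorem exists_big (M : ℝ) : ∃ X : ℕ, ∀ x : ℕ, X ≤ x → M ≤ LL x := by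
  have h : Filter.Tendsto (fun x : ℕ => LL (x : ℝ)) Filter.atTop Filter.atTop :=
    Real.tendsto_log_atTop.comp (Real.tendsto_log_atTop.comp tendsto_natCast_atTop_atTop)
  obtain ⟨X, hX⟩ := Filter.eventually_atTop.mp (h.eventually_ge_atTop M)
  exact ⟨X, hX⟩

/-- the numerical facts on admissible parameters -/
theorem numer {x y : ℕ} {u : ℝ} (h10 : 10 ≤ LL x) (hP : Par x y u) :
    Real.exp 10 ≤ Real.log x ∧ Real.log x = Real.exp (LL x) ∧ 0 < u ∧ LL x ^ 2 ≤ Real.log x / u ∧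
      Real.log x / u ≤ Real.log x / LL x ^ 5 ∧ z0 x u = Real.exp (Real.log x / u - 5 * LL x) ∧
      Real.log x ^ 10 ≤ zz x u := by
  obtain ⟨h1, h2, h3, h4⟩ := hP
  have hLpos : 0 < Real.log x := by
    by_contra hn
    rw [not_lt] at hn
    unfold LL at h10
    rcases hn.lt_or_eq with h | h
    · have : Real.log (Real.log x) = Real.log (-Real.log x) := (Real.log_neg_eq_log _).symm
      have h5 : (0 : ℝ) ≤ Real.log x := Real.log_natCast_nonneg x
      linarith
    · rw [h, Real.log_zero] at h10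
      linarith
  have hL : Real.log x = Real.exp (LL x) := by
    unfold LL
    rw [Real.exp_log hLpos]
  have hu : 0 < u := lt_of_lt_of_le (by positivity) h1
  have h6 : LL x ^ 2 ≤ Real.log x / u := by
    rw [le_div_iff₀ hu]
    linarith
  have h7 : Real.log x ^ 5 = Real.exp (5 * LL x) := by
    rw [hL, ← Real.exp_nat_mul]
    norm_num
  refine ⟨by rw [hL]; exact Real.exp_le_exp.mpr h10, hL, hu, h6, ?_, ?_, ?_⟩
  · exact div_le_div_of_nonneg_left hLpos.le (by positivity) h1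
  · unfold z0 zz
    rw [h7, Real.exp_sub]
  · have h8 : Real.log x ^ 10 = Real.exp (10 * LL x) := by
      rw [hL, ← Real.exp_nat_mul]
      norm_num
    rw [h8]
    unfold zz
    apply Real.exp_le_exp.mpr
    nlinarith

theorem a1 {t A : ℝ} (h : 10 ≤ t) (hA : t ^ 2 ≤ A) : 2 ≤ A - 5 * t + 1 := by nlinarith

theorem a2 {t : ℝ} (h : 10 ≤ t) : 2 * t ≤ Real.exp t := by
  have := Real.quadratic_le_exp_of_nonneg (x := t) (by linarith)
  nlinarith

theorem a3 {t : ℝ} (h : 10 ≤ t) : t ^ 2 / 2 ≤ Real.exp t := by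
  have := Real.quadratic_le_exp_of_nonneg (x := t) (by linarith)
  linarith

theorem a4 {t : ℝ} (h : 10 ≤ t) : 4 / t ^ 3 ≤ 1 := by
  rw [div_le_one (by positivity)]
  have := pow_le_pow_left₀ (by norm_num : (0 : ℝ) ≤ 10) h 3
  linarith

theorem a5 {t a : ℝ} (h : 0 ≤ a) (h2 : a ≤ 2 * t) : a ^ 2 ≤ 4 * t ^ 2 := by nlinarith

theorem a6 {t e : ℝ} (h : 10 ≤ t) (he : e < 1) : e / (32 * t) ≤ 1 / 2 := by
  rw [div_le_iff₀ (by positivity)]
  linarith

theorem a7 (e : ℝ) : 1 - e / 2 ≤ (1 - e / 4) ^ 2 := by nlinarith [sq_nonneg e]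

theorem a8 {t k : ℝ} (ht : 10 ≤ t) (h : 256 ≤ t * k) : 128 * t ≤ (t * k) / 2 * t := by nlinarith

theorem a9 {t k L : ℝ} (hL : 0 < L) (h : 128 * t ≤ k * L) : 1 * (128 * t * L) ≤ k * L ^ 2 := by
  nlinarith

theorem a10 {L : ℝ} (hL : 11 ≤ L) : 2 / L ^ 3 ≤ 1 / 2 := by
  rw [div_le_div_iff₀ (by positivity) (by norm_num)]
  have := pow_le_pow_left₀ (by norm_num : (0 : ℝ) ≤ 11) hL 3
  linarith

theorem a11 {a b : ℝ} (ha : 0 ≤ a) (hb : b ≤ 1 / 2) : a * b ≤ a / 2 := by nlinarith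

end PE38

open PE38 in
theorem hPE (hTL : StTL) (hUP : StUP) (hBA : StBA) (hVB : StVB) (hSL : StSL) : StPE := by
  intro θ η hθ0 hθ1 hη0 hη1'
  obtain ⟨c, C, hc, hC, XV, hXV⟩ := hVB θ hθ0 hθ1
  obtain ⟨CS, hCS, hSL⟩ := hSL
  obtain ⟨H0, hH0, hBA⟩ := hBA (η / 4) (by linarith)
  obtain ⟨X1, hX1⟩ := exists_big (max (max 10 CS) (256 / (η ^ 2 * c ^ 2)))
  refine ⟨max (max X1 XV) (⌈H0⌉₊ + 3), fun x hx y u hP => ?_⟩
  have hxX1 : X1 ≤ x := le_trans (le_trans (le_max_left _ _) (le_max_left _ _)) hx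
  have hxXV : XV ≤ x := le_trans (le_trans (le_max_right _ _) (le_max_left _ _)) hx
  have hxH : ⌈H0⌉₊ + 3 ≤ x := le_trans (le_max_right _ _) hx
  have hbig := hX1 x hxX1
  have h10 : 10 ≤ LL x := le_trans (le_trans (le_max_left _ _) (le_max_left _ _)) hbig
  have hCSL : CS ≤ LL x := le_trans (le_trans (le_max_right _ _) (le_max_left _ _)) hbig
  have h256 : 256 / (η ^ 2 * c ^ 2) ≤ LL x := le_trans (le_max_right _ _) hbig
  obtain ⟨hL10, hLe, hu, hL2u, hLu5, hz0, hz10⟩ := numer h10 hP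
  obtain ⟨hv1, hv2, hv3, hv4⟩ := hXV x hxXV y u hP
  obtain ⟨hu1, hu2, hxy, hyx⟩ := hP
  set L := Real.log x with hLdef
  set L2 := LL (x : ℝ) with hL2def
  set z := zz x u with hzdef
  have hLpos : 0 < L := by rw [hLe]; exact Real.exp_pos _
  have hzpos : 0 < z := Real.exp_pos _
  have hx3 : (3 : ℝ) ≤ x := by
    have : 3 ≤ x := by omega
    exact_mod_cast this
  have hx0 : (0 : ℝ) < x := by linarith
  have hxyR : (x : ℝ) ≤ y := by exact_mod_cast hxy
  have hy0 : (0 : ℝ) < y := by linarith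
  have hL11 : (11 : ℝ) ≤ L := by
    have := Real.add_one_le_exp (10 : ℝ)
    linarith
  -- the sieve by the small primes
  have hz0pos : 0 < z0 (x : ℝ) u := by rw [hz0]; exact Real.exp_pos _
  have hlogz0 : Real.log (z0 (x : ℝ) u) = L / u - 5 * L2 := by rw [hz0, Real.log_exp]
  have hz02 : 2 ≤ z0 (x : ℝ) u := by
    rw [hz0]
    exact le_trans (a1 h10 hL2u) (Real.add_one_le_exp (L / u - 5 * L2))
  have hlogy1 : L ≤ Real.log y := Real.log_le_log hx0 hxyR
  have hlogy2 : Real.log y ≤ 2 * L := by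
    have h1 : Real.log y ≤ Real.log ((x : ℝ) * L ^ 2) := Real.log_le_log hy0 hyx
    have h2 : Real.log ((x : ℝ) * L ^ 2) = L + 2 * L2 := by
      rw [Real.log_mul hx0.ne' (by positivity), Real.log_pow]
      push_cast
      rfl
    have h3 : 2 * L2 ≤ L := by
      rw [hLe]
      exact a2 h10
    linarith
  have hLLy1 : 0 ≤ LL (y : ℝ) := Real.log_nonneg (by linarith)
  have hLLy2 : LL (y : ℝ) ≤ 2 * L2 := by
    have h1 : LL (y : ℝ) ≤ Real.log (2 * L) := Real.log_le_log (by linarith) hlogy2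
    have h2 : Real.log (2 * L) = Real.log 2 + L2 := by
      rw [Real.log_mul (by norm_num) hLpos.ne']
      rfl
    have h3 : Real.log 2 ≤ 1 := by
      have := Real.log_two_lt_d9
      linarith
    linarith
  have hcond : Real.log (z0 (x : ℝ) u) * LL ((y : ℝ) / (1 : ℕ)) ^ 2 ≤ Real.log ((y : ℝ) / (1 : ℕ)) := by
    rw [Nat.cast_one, div_one]
    have h1 : Real.log (z0 (x : ℝ) u) ≤ L / L2 ^ 5 := by
      rw [hlogz0]
      linarith
    have h2 : LL (y : ℝ) ^ 2 ≤ 4 * L2 ^ 2 := a5 hLLy1 hLLy2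
    have h3 : Real.log (z0 (x : ℝ) u) * LL (y : ℝ) ^ 2 ≤ L / L2 ^ 5 * (4 * L2 ^ 2) :=
      mul_le_mul h1 h2 (sq_nonneg _) (by positivity)
    have h4 : L / L2 ^ 5 * (4 * L2 ^ 2) ≤ L := by
      have h5 : L / L2 ^ 5 * (4 * L2 ^ 2) = L * (4 / L2 ^ 3) := by
        field_simp
      rw [h5]
      exact mul_le_of_le_one_right hLpos.le (a4 h10)
    linarith
  -- the estimate for fixed classes
  have hRprime : ∀ s ∈ RR (x : ℝ) u θ, z < s ∧ s.Prime := by
    intro s hs
    have := (mem_PP hzpos.le).mp hs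
    exact ⟨this.1, this.2.2⟩
  have hz1 : (1 : ℝ) ≤ z := by
    refine le_trans ?_ hz10
    exact one_le_pow₀ (by linarith)
  have hzL : Real.log z = L / u := by
    rw [hzdef]
    unfold zz
    rw [Real.log_exp]
  have hzx : z ≤ x := by
    have h1 : z = Real.exp (L / u) := rfl
    have h2 : (x : ℝ) = Real.exp L := by rw [hLdef, Real.exp_log hx0]
    rw [h1]
    calc Real.exp (L / u) ≤ Real.exp L := by
          apply Real.exp_le_exp.mpr
          have hu1' : 1 ≤ u := by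
            refine le_trans ?_ hu1
            exact one_le_pow₀ (by linarith)
          exact div_le_self hLpos.le hu1'
      _ = x := h2.symm
  have hSSR : SS (RR (x : ℝ) u θ) ≤ 2 * L2 := by
    have h1 : RR (x : ℝ) u θ ⊆ PP 1 x := by
      intro s hs
      rw [RR, mem_PP hzpos.le] at hs
      rw [mem_PP zero_le_one]
      refine ⟨lt_of_le_of_lt hz1 hs.1, le_trans hs.2.1 ?_, hs.2.2⟩
      calc (x : ℝ) ^ θ ≤ (x : ℝ) ^ (1 : ℝ) := Real.rpow_le_rpow_of_exponent_le (by linarith) hθ1.le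
        _ = x := Real.rpow_one _
    have h2 : SS (RR (x : ℝ) u θ) ≤ SS (PP 1 x) := by
      unfold SS
      exact sum_le_sum_of_subset_of_nonneg h1 fun s _ _ => by positivity
    have h3 := hSL x hx3
    linarith
  have hVPdef : VP (x : ℝ) u θ = VV (P0 x u) * VV (RR x u θ) := rfl
  have hVRpos : 0 < VV (RR (x : ℝ) u θ) := lt_of_lt_of_le (by positivity) hv1
  have hV0pos : 0 < VV (P0 (x : ℝ) u) := lt_of_lt_of_le (by positivity) hv3
  have hVPlow : c ^ 2 / L ≤ VP (x : ℝ) u θ := by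
    rw [hVPdef]
    have h1 : c ^ 2 / L = (c * u / L) * (c / u) := by
      field_simp
    rw [h1]
    exact mul_le_mul hv3 hv1 (by positivity) hV0pos.le
  have hVPpos : 0 < VP (x : ℝ) u θ := lt_of_lt_of_le (by positivity) hVPlow
  have key : ∀ β : ℕ → ℕ, Pr (RR (x : ℝ) u θ) (fun a =>
      ((surv (RR x u θ) a (surv (PP 1 (z0 x u)) β (Icc 1 y))).card : ℝ) ≤ (1 - η) * VP x u θ * y) ≤
      Real.exp (-(z / L ^ 2)) := by
    intro β
    have hW := hBA y 1 0 β (z0 x u) le_rfl hz02 (fun s hs hd => by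
      have hp := ((mem_PP zero_le_one).mp hs).2.2
      exact hp.one_lt.ne' (Nat.dvd_one.mp hd)) (by
      rw [Nat.cast_one, div_one]
      have h1 : H0 ≤ ⌈H0⌉₊ := Nat.le_ceil _
      have h2 : ((⌈H0⌉₊ : ℕ) : ℝ) ≤ (x : ℝ) := by
        have : ⌈H0⌉₊ ≤ x := by omega
        exact_mod_cast this
      linarith) hcond
    rw [AP_one, Nat.cast_one, div_one] at hW
    set W := surv (PP 1 (z0 (x : ℝ) u)) β (Icc 1 y) with hWdef
    have hV0 : VV (PP 1 (z0 (x : ℝ) u)) = VV (P0 (x : ℝ) u) := rfl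
    rw [hV0] at hW
    have hWlow : (1 - η / 4) * (VV (P0 (x : ℝ) u) * y) ≤ (W.card : ℝ) := by
      have := (abs_le.mp hW).1
      linarith
    have hcls : ∀ s ∈ RR (x : ℝ) u θ, ∀ c : ℕ, ((W.filter (fun m => m ≡ c [MOD s])).card : ℝ) ≤ 2 * y / z := by
      intro s hs c
      obtain ⟨h1, h2⟩ := hRprime s hs
      have h3 : W.filter (fun m => m ≡ c [MOD s]) ⊆ AP y s c := by
        intro m hm
        rw [mem_filter] at hm
        have h4 := surv_subset hm.1
        rw [mem_Icc] at h4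
        rw [mem_AP]
        exact ⟨h4.1, h4.2, hm.2⟩
      have h5 : ((W.filter (fun m => m ≡ c [MOD s])).card : ℝ) ≤ ((AP y s c).card : ℝ) := by
        exact_mod_cast card_le_card h3
      have h6 := card_AP_le y s c h2.pos
      have h7 : (y : ℝ) / s ≤ y / z := div_le_div_of_nonneg_left hy0.le hzpos h1.le
      have h8 : (1 : ℝ) ≤ y / z := by
        rw [le_div_iff₀ hzpos]
        linarith
      have h9 : 2 * (y : ℝ) / z = y / z + y / z := by ring
      linarith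
    have hη1 : 0 < η / (32 * L2) := by positivity
    have hη2 : η / (32 * L2) ≤ 1 / 2 := a6 h10 hη1'
    have hT := hTL (RR (x : ℝ) u θ) W (2 * y / z) (η / (32 * L2)) ((1 - η) * VP x u θ * y)
      (fun s hs => (hRprime s hs).2.two_le) (by positivity) hη1 hη2 hcls
    refine le_trans hT ?_
    apply Real.exp_le_exp.mpr
    have hE1 : 4 * (η / (32 * L2)) * SS (RR (x : ℝ) u θ) ≤ η / 4 := by
      have h1 : 4 * (η / (32 * L2)) * SS (RR (x : ℝ) u θ) ≤ 4 * (η / (32 * L2)) * (2 * L2) :=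
        mul_le_mul_of_nonneg_left hSSR (by positivity)
      have h2 : 4 * (η / (32 * L2)) * (2 * L2) = η / 4 := by
        field_simp
        norm_num
      linarith
    have hE2 : 1 - η / 4 ≤ Real.exp (-(4 * (η / (32 * L2)) * SS (RR (x : ℝ) u θ))) := by
      have := Real.add_one_le_exp (-(4 * (η / (32 * L2)) * SS (RR (x : ℝ) u θ)))
      linarith
    have hM : (1 - η / 2) * (VP (x : ℝ) u θ * y) ≤
        (W.card : ℝ) * VV (RR x u θ) * Real.exp (-(4 * (η / (32 * L2)) * SS (RR (x : ℝ) u θ))) := by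
      have h1 : (1 - η / 4) * (VV (P0 (x : ℝ) u) * y) * VV (RR x u θ) ≤ (W.card : ℝ) * VV (RR x u θ) :=
        mul_le_mul_of_nonneg_right hWlow hVRpos.le
      have h2 : (1 - η / 4) * (VV (P0 (x : ℝ) u) * y) * VV (RR x u θ) * (1 - η / 4) ≤
          (W.card : ℝ) * VV (RR x u θ) * Real.exp (-(4 * (η / (32 * L2)) * SS (RR (x : ℝ) u θ))) :=
        mul_le_mul h1 hE2 (by linarith) (by positivity)
      refine le_trans ?_ h2
      have h3 : (1 - η / 4) * (VV (P0 (x : ℝ) u) * y) * VV (RR x u θ) * (1 - η / 4) =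
          (1 - η / 4) ^ 2 * (VP (x : ℝ) u θ * y) := by
        rw [hVPdef]
        ring
      rw [h3]
      exact mul_le_mul_of_nonneg_right (a7 η) (by positivity)
    have hfin : η / (32 * L2) / (2 * y / z) * ((1 - η) * VP (x : ℝ) u θ * y -
        (W.card : ℝ) * VV (RR x u θ) * Real.exp (-(4 * (η / (32 * L2)) * SS (RR (x : ℝ) u θ)))) ≤
        η / (32 * L2) / (2 * y / z) * (-(η / 2) * (VP (x : ℝ) u θ * y)) := by
      apply mul_le_mul_of_nonneg_left _ (by positivity)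
      linarith
    refine le_trans hfin ?_
    have h1 : η / (32 * L2) / (2 * y / z) * (-(η / 2) * (VP (x : ℝ) u θ * y)) =
        -(z * (η ^ 2 / (128 * L2) * VP (x : ℝ) u θ)) := by
      field_simp
      ring
    rw [h1]
    apply neg_le_neg
    have h2 : 1 / L ^ 2 ≤ η ^ 2 / (128 * L2) * VP (x : ℝ) u θ := by
      have h3 : η ^ 2 / (128 * L2) * (c ^ 2 / L) ≤ η ^ 2 / (128 * L2) * VP (x : ℝ) u θ :=
        mul_le_mul_of_nonneg_left hVPlow (by positivity)
      refine le_trans ?_ h3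
      have h4 : η ^ 2 / (128 * L2) * (c ^ 2 / L) = (η ^ 2 * c ^ 2) / (128 * L2 * L) := by
        field_simp
      rw [h4, div_le_div_iff₀ (by positivity) (by positivity)]
      have h5 : 256 ≤ L2 * (η ^ 2 * c ^ 2) := by
        rwa [div_le_iff₀ (by positivity)] at h256
      have h6 : L2 ^ 2 / 2 ≤ L := by
        rw [hLe]
        exact a3 h10
      have h7 : 128 * L2 ≤ (η ^ 2 * c ^ 2) * L := by
        calc 128 * L2 ≤ (L2 * (η ^ 2 * c ^ 2)) / 2 * L2 := a8 h10 h5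
          _ = (η ^ 2 * c ^ 2) * (L2 ^ 2 / 2) := by ring
          _ ≤ (η ^ 2 * c ^ 2) * L := mul_le_mul_of_nonneg_left h6 (by positivity)
      exact a9 hLpos h7
    calc z / L ^ 2 = z * (1 / L ^ 2) := by ring
      _ ≤ z * (η ^ 2 / (128 * L2) * VP (x : ℝ) u θ) := mul_le_mul_of_nonneg_left h2 hzpos.le
  have hU := hUP (z0 x u) (RR x u θ) (Icc 1 y) (fun S => (S.card : ℝ) ≤ (1 - η) * VP x u θ * y)
    (Real.exp (-(z / L ^ 2))) hz0pos.le (Real.exp_pos _).le key
  refine le_trans hU ?_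
  rw [← Real.exp_add]
  have hx4 : 1 / (x : ℝ) ^ 4 = Real.exp (-(4 * L)) := by
    rw [Real.exp_neg, one_div]
    congr 1
    rw [hLdef, ← Real.rpow_natCast, Real.rpow_def_of_pos hx0]
    push_cast
    ring_nf
  rw [hx4]
  apply Real.exp_le_exp.mpr
  have hz0' : z0 (x : ℝ) u = z / L ^ 5 := rfl
  rw [hz0']
  have h1 : 2 * (z / L ^ 5) ≤ z / L ^ 2 / 2 := by
    have h2 : 2 * (z / L ^ 5) = z / L ^ 2 * (2 / L ^ 3) := by field_simp
    rw [h2]
    exact a11 (by positivity) (a10 hL11)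
  have h5 : 8 * L ≤ z / L ^ 2 := by
    rw [le_div_iff₀ (by positivity)]
    refine le_trans ?_ hz10
    have h6 : 8 * L * L ^ 2 = 8 * L ^ 3 := by ring
    rw [h6]
    have h7 : (8 : ℝ) ≤ L ^ 7 := by
      have := pow_le_pow_left₀ (by norm_num : (0 : ℝ) ≤ 11) hL11 7
      norm_num at this
      linarith
    calc 8 * L ^ 3 ≤ L ^ 7 * L ^ 3 := mul_le_mul_of_nonneg_right h7 (by positivity)
      _ = L ^ 10 := by ring
  linarith

end Pool.Agent.Helper69.RM
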