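import Pool.Agent.Helper69.RM.M_PA

set_option autoImplicit false

/-! Project RM (helper69), MP_924f75_nt, module SB (helper73): sum over the primes of type B. -/

namespace Pool.Agent.Helper69.RM

open Finset Filter

namespace SB

theorem vp_lower {x : ℕ} {u θ c : ℝ} (hL0 : 0 < Real.log x) (hu0 : 0 < u) (hc0 : 0 < c)
    (hV1 : c / u ≤ VV (RR x u θ)) (hV3 : c * u / Real.log x ≤ VV (P0 x u)) :
    0 < VV (RR x u θ) ∧ c * u / Real.log x * VV (RR x u θ) ≤ VP x u θ ∧ c ^ 2 / Real.log x ≤ VP x u θ := by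
  have hVR : 0 < VV (RR x u θ) := lt_of_lt_of_le (by positivity) hV1
  have h1 : c * u / Real.log x * VV (RR x u θ) ≤ VP x u θ := by
    unfold VP
    exact mul_le_mul_of_nonneg_right hV3 hVR.le
  refine ⟨hVR, h1, le_trans ?_ h1⟩
  calc c ^ 2 / Real.log x = c * u / Real.log x * (c / u) := by
        field_simp
    _ ≤ _ := mul_le_mul_of_nonneg_left hV1 (by positivity)

theorem log_z0 {x y : ℕ} {u : ℝ} (hPar : Par x y u) (hl : 10 ≤ LL (x : ℝ)) :
    Real.log x / (2 * u) ≤ Real.log (z0 x u) := by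
  obtain ⟨hL0, hL7, hx1, hu0, hz6, hz02, hlogz0, h4l, hzx, hδL, h2l, hu1⟩ :=
    PA.params (δ := 1 / 2) (by norm_num) hPar (by linarith) (by norm_num; linarith) (by norm_num)
  obtain ⟨hPu1, hPu2, hxy, hyx⟩ := hPar
  have hl0 : 0 < LL (x : ℝ) := by linarith
  have h1 : LL (x : ℝ) ^ 2 ≤ Real.log x / u := by
    rw [le_div_iff₀ hu0]
    linarith [mul_comm u (LL (x : ℝ) ^ 2)]
  have h2 : Real.log (z0 x u) = Real.log x / u - 5 * LL (x : ℝ) := by
    unfold z0 zz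
    rw [Real.log_div (Real.exp_pos _).ne' (by positivity), Real.log_exp, Real.log_pow]
    unfold LL
    push_cast
    ring
  rw [h2]
  have h3 : Real.log x / (2 * u) = (Real.log x / u) / 2 := by
    field_simp
  rw [h3]
  nlinarith

end SB

theorem hSB (hVB : StVB) (hWIN : StWIN) (hD2 : StD2) : StSB := by
  intro θ C1 κ hθ0 hθ1 hC1 hκ
  obtain ⟨c0, C0, hc0, hC0, X1, hVB⟩ := hVB θ hθ0 hθ1
  obtain ⟨C2, hC2, X2, hD2⟩ := hD2
  refine ⟨κ * c0 / (12 * C1), by positivity, fun δ hδ0 hδ1 hδ2 hδ3 => ?_⟩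
  obtain ⟨X3, hWIN⟩ := hWIN θ δ δ hθ0 hδ0 hδ3 hδ0
  have hev : ∀ᶠ x : ℕ in atTop, 10 ≤ LL (x : ℝ) ∧ 2 * C1 * C2 / (κ * c0) ≤ LL (x : ℝ) ∧ X1 ≤ x ∧ X2 ≤ x ∧ X3 ≤ x := by
    filter_upwards [PA.tendsto_LL.eventually_ge_atTop 10, PA.tendsto_LL.eventually_ge_atTop (2 * C1 * C2 / (κ * c0)),
      eventually_ge_atTop X1, eventually_ge_atTop X2, eventually_ge_atTop X3] with x h1 h2 h3 h4 h5
    exact ⟨h1, h2, h3, h4, h5⟩
  obtain ⟨X, hX⟩ := eventually_atTop.mp hev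
  refine ⟨X, fun x hx y u hPar => ?_⟩
  obtain ⟨hl10, hlC, hxX1, hxX2, hxX3⟩ := hX x hx
  obtain ⟨hL0, hL7, hx1, hu0, hz6, hz02, hlogz0, h4l, hzx, hδL, h2l, hu1⟩ :=
    PA.params (δ := 1 / 2) (by norm_num) hPar (by linarith) (by norm_num; linarith) (by norm_num)
  obtain ⟨hV1, hV2, hV3, hV4⟩ := hVB x hxX1 y u hPar
  obtain ⟨hVR, hVP1, hVP2⟩ := SB.vp_lower hL0 hu0 hc0 hV1 hV3
  have hlz := SB.log_z0 hPar hl10
  obtain ⟨hPu1, hPu2, hxy, hyx⟩ := hPar
  have hl0 : 0 < LL (x : ℝ) := by linarith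
  have hx0 : (0 : ℝ) < x := by linarith
  have hxy' : (x : ℝ) ≤ y := by exact_mod_cast hxy
  have hy0 : (0 : ℝ) < y := by linarith
  have hinv : 1 / Real.log (z0 x u) ≤ 2 * u / Real.log x := by
    have h1 : 0 < Real.log x / (2 * u) := by positivity
    calc 1 / Real.log (z0 x u) ≤ 1 / (Real.log x / (2 * u)) := one_div_le_one_div_of_le h1 hlz
      _ = 2 * u / Real.log x := one_div_div _ _
  set F : Finset ℕ := (PP ((x : ℝ) ^ (1 - δ)) x).filter (fun p : ℕ => (p : ℝ) * Real.log x ^ 8 ≤ y) with hF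
  have hFp : ∀ p ∈ F, 0 < (p : ℝ) ∧ 0 ≤ Real.log ((y : ℝ) / p) := by
    intro p hp
    rw [hF, mem_filter, mem_PP (by positivity)] at hp
    have hp0 : (0 : ℝ) < p := by exact_mod_cast hp.1.2.2.pos
    refine ⟨hp0, Real.log_nonneg ?_⟩
    rw [le_div_iff₀ hp0]
    have h1 : (1 : ℝ) ≤ Real.log x ^ 8 := one_le_pow₀ (by linarith)
    calc 1 * (p : ℝ) = p * 1 := by ring
      _ ≤ p * Real.log x ^ 8 := mul_le_mul_of_nonneg_left h1 hp0.le
      _ ≤ y := hp.2
  have hs1 : ∑ p ∈ F, 1 / (p : ℝ) ≤ 3 * δ := by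
    calc ∑ p ∈ F, 1 / (p : ℝ) ≤ SS (PP ((x : ℝ) ^ (1 - δ)) x) := by
          unfold SS
          exact sum_le_sum_of_subset_of_nonneg (filter_subset _ _) fun s _ _ => by positivity
      _ ≤ Real.log (1 / (1 - δ)) + δ := (hWIN x hxX3).2
      _ ≤ (1 / (1 - δ) - 1) + δ := by
        have := Real.log_le_sub_one_of_pos (x := 1 / (1 - δ)) (by
          have : 0 < 1 - δ := by linarith
          positivity)
        linarith
      _ ≤ 3 * δ := by
        have h1 : 0 < 1 - δ := by linarith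
        have h2 : 1 / (1 - δ) - 1 = δ / (1 - δ) := by
          field_simp
          ring
        rw [h2]
        have h3 : δ / (1 - δ) ≤ 2 * δ := by
          rw [div_le_iff₀ h1]
          nlinarith
        linarith
  have hs2 : ∑ p ∈ F, 1 / ((p : ℝ) * Real.log ((y : ℝ) / p)) ≤ C2 * LL x / Real.log x := by
    refine le_trans ?_ (hD2 x hxX2 y hxy hyx)
    apply sum_le_sum_of_subset_of_nonneg
    · intro p hp
      rw [hF, mem_filter, mem_PP (by positivity)] at hp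
      rw [mem_filter, mem_PP (Real.sqrt_nonneg _)]
      refine ⟨⟨lt_of_le_of_lt ?_ hp.1.1, hp.1.2.1, hp.1.2.2⟩, hp.2⟩
      rw [Real.sqrt_eq_rpow]
      exact Real.rpow_le_rpow_of_exponent_le hx1.le (by linarith)
    · intro p hp _
      rw [mem_filter, mem_PP (Real.sqrt_nonneg _)] at hp
      have hp0 : (0 : ℝ) < p := by exact_mod_cast hp.1.2.2.pos
      have h1 : (1 : ℝ) ≤ Real.log x ^ 8 := one_le_pow₀ (by linarith)
      have h2 : 0 ≤ Real.log ((y : ℝ) / p) := by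
        apply Real.log_nonneg
        rw [le_div_iff₀ hp0]
        calc 1 * (p : ℝ) = p * 1 := by ring
          _ ≤ p * Real.log x ^ 8 := mul_le_mul_of_nonneg_left h1 hp0.le
          _ ≤ y := hp.2
      positivity
  have hterm : ∀ p ∈ F, C1 * VV (RR x u θ) * ((y : ℝ) / p) *
      (1 / Real.log (z0 x u) + LL x ^ 2 / Real.log ((y : ℝ) / p)) ≤
      C1 * VV (RR x u θ) * y * (2 * u / Real.log x * (1 / (p : ℝ)) +
        LL x ^ 2 * (1 / ((p : ℝ) * Real.log ((y : ℝ) / p)))) := by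
    intro p hp
    obtain ⟨hp0, hlog⟩ := hFp p hp
    calc C1 * VV (RR x u θ) * ((y : ℝ) / p) * (1 / Real.log (z0 x u) + LL x ^ 2 / Real.log ((y : ℝ) / p))
        = C1 * VV (RR x u θ) * y * ((1 / Real.log (z0 x u)) * (1 / (p : ℝ)) +
          LL x ^ 2 * (1 / ((p : ℝ) * Real.log ((y : ℝ) / p)))) := by
          have e : 1 / ((p : ℝ) * Real.log ((y : ℝ) / p)) = (1 / (p : ℝ)) * (1 / Real.log ((y : ℝ) / p)) :=
            (one_div_mul_one_div _ _).symm
          rw [e]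
          ring
      _ ≤ _ := by
        apply mul_le_mul_of_nonneg_left _ (by positivity)
        have := mul_le_mul_of_nonneg_right hinv (show (0 : ℝ) ≤ 1 / (p : ℝ) by positivity)
        linarith
  refine (sum_le_sum hterm).trans ?_
  rw [← mul_sum, sum_add_distrib, ← mul_sum, ← mul_sum]
  have h6 : 2 * u / Real.log x * (∑ p ∈ F, 1 / (p : ℝ)) + LL x ^ 2 * (∑ p ∈ F, 1 / ((p : ℝ) * Real.log ((y : ℝ) / p)))
      ≤ 2 * u / Real.log x * (3 * δ) + LL x ^ 2 * (C2 * LL x / Real.log x) :=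
    add_le_add (mul_le_mul_of_nonneg_left hs1 (by positivity)) (mul_le_mul_of_nonneg_left hs2 (by positivity))
  have h7 : C1 * (2 * u / Real.log x * (3 * δ) + LL x ^ 2 * (C2 * LL x / Real.log x)) ≤ κ * (c0 * u / Real.log x) := by
    have h8 : 12 * C1 * δ ≤ κ * c0 := by
      rw [le_div_iff₀ (by positivity)] at hδ1
      linarith
    have h9 : 2 * C1 * C2 * LL (x : ℝ) ^ 3 ≤ κ * c0 * u := by
      have h10 : 2 * C1 * C2 ≤ LL (x : ℝ) * (κ * c0) := by
        rwa [div_le_iff₀ (by positivity)] at hlC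
      have h11 : LL (x : ℝ) * LL (x : ℝ) ^ 3 ≤ u := by
        refine le_trans ?_ hPu1
        calc LL (x : ℝ) * LL (x : ℝ) ^ 3 = LL (x : ℝ) ^ 4 := by ring
          _ ≤ _ := pow_le_pow_right₀ (by linarith) (by norm_num)
      calc 2 * C1 * C2 * LL (x : ℝ) ^ 3 ≤ (LL (x : ℝ) * (κ * c0)) * LL (x : ℝ) ^ 3 :=
            mul_le_mul_of_nonneg_right h10 (by positivity)
        _ = κ * c0 * (LL (x : ℝ) * LL (x : ℝ) ^ 3) := by ring
        _ ≤ κ * c0 * u := mul_le_mul_of_nonneg_left h11 (by positivity)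
    have e1 : C1 * (2 * u / Real.log x * (3 * δ) + LL (x : ℝ) ^ 2 * (C2 * LL x / Real.log x)) =
        (6 * C1 * δ * u + C1 * C2 * LL (x : ℝ) ^ 3) / Real.log x := by
      field_simp
      ring
    have e2 : κ * (c0 * u / Real.log x) = (κ * c0 * u) / Real.log x := by ring
    rw [e1, e2]
    apply div_le_div_of_nonneg_right _ hL0.le
    have h12 : 12 * C1 * δ * u ≤ κ * c0 * u := mul_le_mul_of_nonneg_right h8 hu0.le
    linarith
  calc C1 * VV (RR x u θ) * y * (2 * u / Real.log x * (∑ p ∈ F, 1 / (p : ℝ)) +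
        LL x ^ 2 * (∑ p ∈ F, 1 / ((p : ℝ) * Real.log ((y : ℝ) / p))))
      ≤ C1 * VV (RR x u θ) * y * (2 * u / Real.log x * (3 * δ) + LL x ^ 2 * (C2 * LL x / Real.log x)) :=
        mul_le_mul_of_nonneg_left h6 (by positivity)
    _ = C1 * (2 * u / Real.log x * (3 * δ) + LL x ^ 2 * (C2 * LL x / Real.log x)) * (VV (RR x u θ) * y) := by ring
    _ ≤ κ * (c0 * u / Real.log x) * (VV (RR x u θ) * y) := mul_le_mul_of_nonneg_right h7 (by positivity)
    _ = κ * (c0 * u / Real.log x * VV (RR x u θ)) * y := by ring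
    _ ≤ κ * VP x u θ * y := by
      apply mul_le_mul_of_nonneg_right _ hy0.le
      exact mul_le_mul_of_nonneg_left hVP1 hκ.le

end Pool.Agent.Helper69.RM
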