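import Pool.Agent.Helper69.RM.M_SB

set_option autoImplicit false

/-! Project RM (helper69), MP_924f75_nt, module SC (helper73): sum over the primes of type C. -/

namespace Pool.Agent.Helper69.RM

open Finset Filter

namespace SC

theorem log_le_mul_sqrt (ε : ℝ) (hε : 0 < ε) : ∃ U : ℝ, 1 ≤ U ∧ ∀ u : ℝ, U ≤ u → Real.log u ≤ ε * Real.sqrt u := by
  have h1 : ∀ᶠ y : ℝ in atTop, ‖Real.log y‖ ≤ ε * ‖y ^ (1 / 2 : ℝ)‖ :=
    (isLittleO_log_rpow_atTop (by norm_num : (0 : ℝ) < 1 / 2)).bound hε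
  obtain ⟨U, hU⟩ := eventually_atTop.mp h1
  refine ⟨max U 1, le_max_right _ _, fun u hu => ?_⟩
  have h2 := hU u ((le_max_left _ _).trans hu)
  have h3 : 1 ≤ u := (le_max_right _ _).trans hu
  rw [← Real.sqrt_eq_rpow, Real.norm_eq_abs, Real.norm_eq_abs, abs_of_nonneg (Real.sqrt_nonneg u)] at h2
  exact (le_abs_self _).trans h2

end SC

theorem hSC (hVB : StVB) (hD1 : StD1) (hPC : StPC) : StSC := by
  intro θ κ hθ0 hθ1 hκ
  obtain ⟨c0, C0, hc0, hC0, X1, hVB⟩ := hVB θ hθ0 hθ1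
  obtain ⟨C1, hC1, X2, hD1⟩ := hD1
  obtain ⟨C2, hC2, hPC⟩ := hPC
  obtain ⟨U, hU1, hU⟩ := SC.log_le_mul_sqrt (κ * c0 ^ 2 / (52 * C2)) (by positivity)
  have hev : ∀ᶠ x : ℕ in atTop, 10 ≤ LL (x : ℝ) ∧ 144 * C1 / (κ * c0) ≤ LL (x : ℝ) ∧ X1 ≤ x ∧ X2 ≤ x ∧
      16 * LL (x : ℝ) ≤ Real.log x ∧ U ≤ LL (x : ℝ) ∧ C0 ≤ LL (x : ℝ) := by
    filter_upwards [PA.tendsto_LL.eventually_ge_atTop 10, PA.tendsto_LL.eventually_ge_atTop (144 * C1 / (κ * c0)),
      eventually_ge_atTop X1, eventually_ge_atTop X2, PA.eventually_LL_le 16 (by norm_num),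
      PA.tendsto_LL.eventually_ge_atTop U, PA.tendsto_LL.eventually_ge_atTop C0] with x h1 h2 h3 h4 h5 h6 h7
    exact ⟨h1, h2, h3, h4, h5, h6, h7⟩
  obtain ⟨X, hX⟩ := eventually_atTop.mp hev
  refine ⟨X, fun x hx y u hPar hyu => ?_⟩
  obtain ⟨hl10, hlC, hxX1, hxX2, h16, hlU, hlC0⟩ := hX x hx
  obtain ⟨hL0, hL7, hx1, hu0, hz6, hz02, hlogz0, h4l, hzx, hδL, h2l, hu1⟩ :=
    PA.params (δ := 1 / 2) (by norm_num) hPar (by linarith) (by norm_num; linarith) (by norm_num)
  obtain ⟨hV1, hV2, hV3, hV4⟩ := hVB x hxX1 y u hPar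
  obtain ⟨hVR, hVP1, hVP2⟩ := SB.vp_lower hL0 hu0 hc0 hV1 hV3
  obtain ⟨hPu1, hPu2, hxy, hyx⟩ := hPar
  have hl0 : 0 < LL (x : ℝ) := by linarith
  have hx0 : (0 : ℝ) < x := by linarith
  have hxy' : (x : ℝ) ≤ y := by exact_mod_cast hxy
  have hy0 : (0 : ℝ) < y := by linarith
  have hLe : Real.exp (LL (x : ℝ)) = Real.log x := by
    unfold LL
    exact Real.exp_log hL0
  have hlu : LL (x : ℝ) ≤ u := by
    refine le_trans ?_ hPu1
    have : LL (x : ℝ) ^ 1 ≤ LL (x : ℝ) ^ 5 := pow_le_pow_right₀ (by linarith) (by norm_num)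
    simpa using this
  have hVR1 : VV (RR x u θ) ≤ 1 := by
    refine hV2.trans ?_
    rw [div_le_one hu0]
    linarith
  have huL : u ≤ Real.log x := by
    refine le_trans ?_ hPu2
    have h1 : (1 : ℝ) ≤ LL (x : ℝ) ^ 2 := one_le_pow₀ (by linarith)
    calc u = u * 1 := by ring
      _ ≤ u * LL (x : ℝ) ^ 2 := mul_le_mul_of_nonneg_left h1 hu0.le
  have hlogu : 0 < Real.log u := Real.log_pos (by linarith)
  have hlogu' : Real.log u ≤ LL (x : ℝ) := by
    unfold LL
    exact Real.log_le_log hu0 huL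
  set F : Finset ℕ := (PP 1 x).filter (fun p : ℕ => (y : ℝ) < p * Real.log x ^ 8 ∧ (p : ℝ) * Real.sqrt u < x) with hF
  -- the first part
  have hs1 : ∑ p ∈ F, 1 / (p : ℝ) ≤ C1 * (9 * LL (x : ℝ)) / Real.log x := by
    have hM1 : (1 : ℝ) ≤ Real.log x ^ 8 := one_le_pow₀ (by linarith)
    have hM2 : Real.log (x : ℝ) ^ 8 ≤ Real.sqrt x := by
      rw [Real.sqrt_eq_rpow, Real.rpow_def_of_pos hx0, ← hLe, ← Real.exp_nat_mul]
      apply Real.exp_le_exp.mpr
      rw [hLe]
      push_cast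
      linarith
    have h2 := hD1 x hxX2 (Real.log x ^ 8) hM1 hM2
    calc ∑ p ∈ F, 1 / (p : ℝ) ≤ SS (PP (x / Real.log x ^ 8) x) := by
          unfold SS
          apply sum_le_sum_of_subset_of_nonneg
          · intro p hp
            rw [hF, mem_filter, mem_PP (by norm_num)] at hp
            rw [mem_PP (by positivity)]
            refine ⟨?_, hp.1.2.1, hp.1.2.2⟩
            rw [div_lt_iff₀ (by positivity)]
            linarith [hp.2.1]
          · intro p _ _
            positivity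
      _ ≤ C1 * (1 + Real.log (Real.log x ^ 8)) / Real.log x := h2
      _ ≤ C1 * (9 * LL (x : ℝ)) / Real.log x := by
        apply div_le_div_of_nonneg_right _ hL0.le
        apply mul_le_mul_of_nonneg_left _ hC1.le
        rw [Real.log_pow]
        have : LL (x : ℝ) = Real.log (Real.log x) := rfl
        rw [← this]
        push_cast
        linarith
  have hpart1 : 8 * VV (RR x u θ) * y * ∑ p ∈ F, 1 / (p : ℝ) ≤ κ / 2 * (VP x u θ * y) := by
    calc 8 * VV (RR x u θ) * y * ∑ p ∈ F, 1 / (p : ℝ)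
        ≤ 8 * VV (RR x u θ) * y * (C1 * (9 * LL (x : ℝ)) / Real.log x) :=
          mul_le_mul_of_nonneg_left hs1 (by positivity)
      _ = (72 * C1 * LL (x : ℝ)) * (VV (RR x u θ) * y / Real.log x) := by ring
      _ ≤ (κ / 2 * (c0 * u)) * (VV (RR x u θ) * y / Real.log x) := by
        apply mul_le_mul_of_nonneg_right _ (by positivity)
        rw [div_le_iff₀ (by positivity)] at hlC
        have h3 : LL (x : ℝ) * LL (x : ℝ) ≤ u := by
          refine le_trans ?_ hPu1
          calc LL (x : ℝ) * LL (x : ℝ) = LL (x : ℝ) ^ 2 := by ring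
            _ ≤ _ := pow_le_pow_right₀ (by linarith) (by norm_num)
        calc 72 * C1 * LL (x : ℝ) = (144 * C1) * LL (x : ℝ) / 2 := by ring
          _ ≤ (LL (x : ℝ) * (κ * c0)) * LL (x : ℝ) / 2 := by
            have := mul_le_mul_of_nonneg_right hlC hl0.le
            linarith
          _ = κ / 2 * c0 * (LL (x : ℝ) * LL (x : ℝ)) := by ring
          _ ≤ κ / 2 * c0 * u := mul_le_mul_of_nonneg_left h3 (by positivity)
          _ = _ := by ring
      _ = κ / 2 * ((c0 * u / Real.log x * VV (RR x u θ)) * y) := by ring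
      _ ≤ κ / 2 * (VP x u θ * y) := by
        apply mul_le_mul_of_nonneg_left _ (by positivity)
        exact mul_le_mul_of_nonneg_right hVP1 hy0.le
  -- the number of primes
  have hsq : 0 < Real.sqrt u := Real.sqrt_pos.mpr hu0
  have hlogsq : Real.log (x / Real.sqrt u) = Real.log x - Real.log u / 2 := by
    rw [Real.log_div hx0.ne' hsq.ne', Real.log_sqrt hu0.le]
  have hlogv : Real.log x / 2 ≤ Real.log (x / Real.sqrt u) := by
    rw [hlogsq]
    linarith
  have hv0 : (0 : ℝ) < x / Real.sqrt u := by positivity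
  have hv2 : (2 : ℝ) ≤ x / Real.sqrt u := by
    have h1 := Real.add_one_le_exp (Real.log (x / Real.sqrt u))
    rw [Real.exp_log hv0] at h1
    linarith
  have hcard : ((F.card : ℕ) : ℝ) ≤ C2 * (x / Real.sqrt u) / (Real.log x / 2) := by
    have h1 : F ⊆ PP 1 (x / Real.sqrt u) := by
      intro p hp
      rw [hF, mem_filter, mem_PP (by norm_num)] at hp
      rw [mem_PP (by norm_num)]
      refine ⟨hp.1.1, ?_, hp.1.2.2⟩
      rw [le_div_iff₀ hsq]
      exact hp.2.2.le
    calc ((F.card : ℕ) : ℝ) ≤ ((PP 1 (x / Real.sqrt u)).card : ℝ) := by exact_mod_cast card_le_card h1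
      _ ≤ C2 * (x / Real.sqrt u) / Real.log (x / Real.sqrt u) := hPC _ hv2
      _ ≤ _ := div_le_div_of_nonneg_left (by positivity) (by positivity) hlogv
  have hyL : (x : ℝ) / Real.log u ≤ y / Real.log x := by
    rw [div_le_div_iff₀ hlogu hL0]
    exact hyu
  have hpart2 : (F.card : ℝ) * (8 * VV (RR x u θ) + 4 * Real.log x + 1) ≤ κ / 2 * (VP x u θ * y) := by
    have h1 : 8 * VV (RR x u θ) + 4 * Real.log x + 1 ≤ 13 * Real.log x := by linarith
    have hUu := hU u (by linarith)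
    calc (F.card : ℝ) * (8 * VV (RR x u θ) + 4 * Real.log x + 1)
        ≤ (C2 * (x / Real.sqrt u) / (Real.log x / 2)) * (13 * Real.log x) :=
          mul_le_mul hcard h1 (by positivity) (by positivity)
      _ = 26 * C2 * x / Real.sqrt u := by
        have hne : Real.log (x : ℝ) ≠ 0 := hL0.ne'
        field_simp
        ring
      _ ≤ κ / 2 * (c0 ^ 2 * (x / Real.log u)) := by
        rw [div_le_iff₀ hsq]
        have h2 : Real.log u * (52 * C2) ≤ κ * c0 ^ 2 * Real.sqrt u := by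
          rw [div_mul_eq_mul_div, le_div_iff₀ (by positivity)] at hUu
          linarith
        have h3 : κ / 2 * (c0 ^ 2 * (x / Real.log u)) * Real.sqrt u =
            (κ * c0 ^ 2 * Real.sqrt u) * x / (2 * Real.log u) := by
          field_simp
        rw [h3, le_div_iff₀ (by positivity)]
        calc 26 * C2 * x * (2 * Real.log u) = (Real.log u * (52 * C2)) * x := by ring
          _ ≤ (κ * c0 ^ 2 * Real.sqrt u) * x := mul_le_mul_of_nonneg_right h2 hx0.le
      _ ≤ κ / 2 * (c0 ^ 2 * (y / Real.log x)) := by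
        apply mul_le_mul_of_nonneg_left _ (by positivity)
        exact mul_le_mul_of_nonneg_left hyL (by positivity)
      _ = κ / 2 * ((c0 ^ 2 / Real.log x) * y) := by ring
      _ ≤ κ / 2 * (VP x u θ * y) := by
        apply mul_le_mul_of_nonneg_left _ (by positivity)
        exact mul_le_mul_of_nonneg_right hVP2 hy0.le
  have hsum : ∑ p ∈ F, (8 * (VV (RR x u θ) * ((y : ℝ) / p + 1)) + 4 * Real.log x + 1) =
      8 * VV (RR x u θ) * y * (∑ p ∈ F, 1 / (p : ℝ)) + (F.card : ℝ) * (8 * VV (RR x u θ) + 4 * Real.log x + 1) := by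
    rw [mul_sum, ← nsmul_eq_mul, ← sum_const, ← sum_add_distrib]
    apply sum_congr rfl
    intro p _
    ring
  rw [hsum]
  calc 8 * VV (RR x u θ) * y * (∑ p ∈ F, 1 / (p : ℝ)) + (F.card : ℝ) * (8 * VV (RR x u θ) + 4 * Real.log x + 1)
      ≤ κ / 2 * (VP x u θ * y) + κ / 2 * (VP x u θ * y) := add_le_add hpart1 hpart2
    _ = κ * VP x u θ * y := by ring

end Pool.Agent.Helper69.RM
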