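import Pool.Agent.Helper69.RM.St

set_option autoImplicit false

namespace Pool.Agent.Helper69.RM

open Finset

theorem hSD (hVB : StVB) (hPC : StPC) : StSD := by
  intro θ κ hθ0 hθ1 hκ
  obtain ⟨c, C, hc, hC, X1, hX1⟩ := hVB θ hθ0 hθ1
  obtain ⟨Cp, hCp, hpc⟩ := hPC
  refine ⟨max 1 (13 * Cp / (κ * c ^ 2)), le_max_left _ _, max X1 ⌈Real.exp (Real.exp 2)⌉₊, ?_⟩
  intro x hx y u hPar hy
  have hxX1 : X1 ≤ x := (le_max_left _ _).trans hx
  have hxe : Real.exp (Real.exp 2) ≤ (x : ℝ) := by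
    have h1 : ⌈Real.exp (Real.exp 2)⌉₊ ≤ x := (le_max_right _ _).trans hx
    exact (Nat.le_ceil _).trans (by exact_mod_cast h1)
  have hxpos : (0 : ℝ) < x := (Real.exp_pos _).trans_le hxe
  have hL : Real.exp 2 ≤ Real.log x := by
    rw [Real.le_log_iff_exp_le hxpos]
    exact hxe
  have hLpos : 0 < Real.log x := (Real.exp_pos _).trans_le hL
  have hLL : 2 ≤ LL x := by
    unfold LL
    rw [Real.le_log_iff_exp_le hLpos]
    exact hL
  have hx2 : (2 : ℝ) ≤ x := by
    have h1 : (1 : ℝ) + Real.exp 2 ≤ Real.exp (Real.exp 2) := by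
      have := Real.add_one_le_exp (Real.exp 2)
      linarith
    have h2 : (1 : ℝ) ≤ Real.exp 2 := by
      have := Real.add_one_le_exp (2 : ℝ)
      linarith
    linarith
  have hu32 : (32 : ℝ) ≤ u := by
    have h1 : (2 : ℝ) ^ 5 ≤ LL x ^ 5 := by gcongr
    have h2 := hPar.1
    norm_num at h1
    linarith
  have hupos : 0 < u := by linarith
  have hlogu : 0 < Real.log u := Real.log_pos (by linarith)
  obtain ⟨h1, -, h3, -⟩ := hX1 x hxX1 y u hPar
  have hVP : c ^ 2 / Real.log x ≤ VP x u θ := by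
    unfold VP
    have h4 : c * u / Real.log x * (c / u) ≤ VV (P0 x u) * VV (RR x u θ) := by
      have : 0 ≤ c / u := by positivity
      have h5 : 0 ≤ c * u / Real.log x := by positivity
      exact mul_le_mul h3 h1 this (h5.trans h3)
    have h6 : c * u / Real.log x * (c / u) = c ^ 2 / Real.log x := by
      field_simp
    rwa [h6] at h4
  rw [sum_const, nsmul_eq_mul]
  have hcard := hpc x hx2
  have hy' : max 1 (13 * Cp / (κ * c ^ 2)) * x * Real.log x / Real.log u ≤ y := by
    rw [div_le_iff₀ hlogu]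
    exact hy
  have hC0 : 13 * Cp / (κ * c ^ 2) * x * Real.log x / Real.log u ≤ y := by
    refine le_trans ?_ hy'
    gcongr
    exact le_max_right _ _
  calc ((PP 1 x).card : ℝ) * (13 * Real.log x / Real.log u)
      ≤ (Cp * x / Real.log x) * (13 * Real.log x / Real.log u) := by gcongr
    _ = κ * (c ^ 2 / Real.log x) * (13 * Cp / (κ * c ^ 2) * x * Real.log x / Real.log u) := by
        field_simp
    _ ≤ κ * (c ^ 2 / Real.log x) * y := by gcongr
    _ ≤ κ * VP x u θ * y := by gcongr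

end Pool.Agent.Helper69.RM
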