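import Pool.Agent.Helper69.RM.St
import Pool.Agent.Helper15.AB.M_MT

set_option autoImplicit false

/-! RM module SL: Mertens, upper bound. -/

namespace Pool.Agent.Helper69.RM

open Finset

theorem hSL : StSL := by
  obtain ⟨C, hC, h⟩ := Pool.Agent.Helper15.AB.hMT
  refine ⟨C, hC, fun x hx => ?_⟩
  have h1 := (abs_le.1 (h x hx)).2
  have h2 : SS (PP 1 x) ≤ ∑ l ∈ (Icc 1 ⌊x⌋₊).filter Nat.Prime, (1 : ℝ) / l := by
    unfold SS
    refine sum_le_sum_of_subset_of_nonneg (fun p hp => ?_) (fun i _ _ => by positivity)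
    unfold PP at hp
    rw [mem_filter, mem_Ioc] at hp
    rw [mem_filter, mem_Icc]
    exact ⟨⟨hp.2.one_lt.le, hp.1.2⟩, hp.2⟩
  unfold LL
  linarith

end Pool.Agent.Helper69.RM
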