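import Pool.Agent.Helper69.RM.St

set_option autoImplicit false

namespace Pool.Agent.Helper69.RM

open Finset

private noncomputable def FT (D : Finset ℕ) (r : ℕ) : ℝ :=
  ∑ T ∈ D.powerset, if T.card ≤ r then (-1 : ℝ) ^ T.card * ∏ s ∈ T, (1 / (s : ℝ)) else 0

private theorem FT_insert (D : Finset ℕ) (s : ℕ) (hs : s ∉ D) (r : ℕ) :
    FT (insert s D) (r + 1) = FT D (r + 1) - FT D r / s := by
  unfold FT
  rw [sum_powerset_insert hs, sub_eq_add_neg, sum_div, ← sum_neg_distrib]
  congr 1
  refine sum_congr rfl fun T hT => ?_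
  have hsT : s ∉ T := fun h => hs (mem_powerset.1 hT h)
  rw [card_insert_of_notMem hsT, prod_insert hsT]
  by_cases h : T.card ≤ r
  · rw [if_pos h, if_pos (by omega), pow_succ]
    ring
  · rw [if_neg h, if_neg (by omega)]
    simp

private theorem FT_zero (D : Finset ℕ) : FT D 0 = 1 := by
  unfold FT
  rw [sum_eq_single ∅]
  · simp
  · intro T _ hT
    rw [if_neg]
    rw [Nat.le_zero, card_eq_zero]
    exact hT
  · intro h
    exact absurd (empty_mem_powerset D) h

theorem hTRU : StTRU := by
  intro D r hD
  have key : ∀ D : Finset ℕ, (∀ s ∈ D, 1 ≤ s) → 0 ≤ SS D ∧ 0 ≤ VV D ∧ VV D ≤ 1 ∧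
      ∀ r : ℕ, 0 ≤ (-1 : ℝ) ^ r * (FT D r - VV D) ∧
        (-1 : ℝ) ^ r * (FT D r - VV D) ≤ SS D ^ (r + 1) / ((r + 1).factorial : ℝ) := by
    intro D
    induction D using Finset.induction_on with
    | empty =>
      intro _
      have h1 : ∀ r, FT ∅ r = 1 := by
        intro r
        simp [FT]
      refine ⟨by simp [SS], by simp [VV], by simp [VV], fun r => ?_⟩
      rw [h1]
      simp [VV, SS]
    | insert s D hs ih =>
      intro hR
      obtain ⟨hS, hV0, hV1, hG⟩ := ih fun t ht => hR t (mem_insert_of_mem ht)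
      have hs1 : 1 ≤ s := hR s (mem_insert_self s D)
      have hsR : (1 : ℝ) ≤ s := by exact_mod_cast hs1
      have hspos : (0 : ℝ) < s := by linarith
      have hinv0 : 0 ≤ 1 / (s : ℝ) := by positivity
      have hinv1 : 1 / (s : ℝ) ≤ 1 := by
        rw [div_le_one hspos]
        exact hsR
      have eS : SS (insert s D) = SS D + 1 / (s : ℝ) := by
        unfold SS
        rw [sum_insert hs, add_comm]
      have eV : VV (insert s D) = (1 - 1 / (s : ℝ)) * VV D := by
        unfold VV
        rw [prod_insert hs]
      refine ⟨?_, ?_, ?_, fun r => ?_⟩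
      · rw [eS]; linarith
      · rw [eV]
        exact mul_nonneg (by linarith) hV0
      · rw [eV]
        nlinarith
      · rcases r with _ | r
        · rw [FT_zero, eV, eS]
          simp only [pow_zero, one_mul, zero_add, pow_one, Nat.factorial_one, Nat.cast_one, div_one]
          have h0 := hG 0
          rw [FT_zero] at h0
          simp only [pow_zero, one_mul, zero_add, pow_one, Nat.factorial_one, Nat.cast_one,
            div_one] at h0
          have h1 : 1 / (s : ℝ) * VV D ≤ 1 / (s : ℝ) := by nlinarith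
          have h2 : 0 ≤ 1 / (s : ℝ) * VV D := mul_nonneg hinv0 hV0
          constructor
          · nlinarith [h0.1]
          · nlinarith [h0.2]
        · rw [FT_insert D s hs r, eV, eS]
          obtain ⟨a1, a2⟩ := hG (r + 1)
          obtain ⟨b1, b2⟩ := hG r
          have e : (-1 : ℝ) ^ (r + 1) * (FT D (r + 1) - FT D r / s - (1 - 1 / (s : ℝ)) * VV D) =
              (-1 : ℝ) ^ (r + 1) * (FT D (r + 1) - VV D) +
                1 / (s : ℝ) * ((-1 : ℝ) ^ r * (FT D r - VV D)) := by
            rw [pow_succ]
            ring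
          rw [e]
          refine ⟨add_nonneg a1 (mul_nonneg hinv0 b1), ?_⟩
          refine (add_le_add a2 (mul_le_mul_of_nonneg_left b2 hinv0)).trans ?_
          -- SS^(r+2)/(r+2)! + (1/s) SS^(r+1)/(r+1)! ≤ (SS + 1/s)^(r+2)/(r+2)!
          have hf1 : (0 : ℝ) < ((r + 1).factorial : ℝ) := by exact_mod_cast Nat.factorial_pos _
          have hf2 : (0 : ℝ) < ((r + 1 + 1).factorial : ℝ) := by exact_mod_cast Nat.factorial_pos _
          have hfe : ((r + 1 + 1).factorial : ℝ) = ((r : ℝ) + 2) * ((r + 1).factorial : ℝ) := by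
            rw [Nat.factorial_succ (r + 1)]
            push_cast
            ring
          have hpow : SS D ^ (r + 1 + 1) + ((r : ℝ) + 2) * (1 / (s : ℝ)) * SS D ^ (r + 1) ≤
              (SS D + 1 / (s : ℝ)) ^ (r + 1 + 1) := by
            have hb : ∀ (x y : ℝ), 0 ≤ x → 0 ≤ y → ∀ n : ℕ,
                x ^ (n + 1) + ((n : ℝ) + 1) * y * x ^ n ≤ (x + y) ^ (n + 1) := by
              intro x y hx hy n
              induction n with
              | zero => simp
              | succ n ihn =>
                have h1 : (x + y) ^ (n + 1 + 1) = (x + y) ^ (n + 1) * (x + y) := pow_succ _ _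
                rw [h1]
                have h2 := mul_le_mul_of_nonneg_right ihn (add_nonneg hx hy)
                refine le_trans ?_ h2
                push_cast
                have h3 : 0 ≤ ((n : ℝ) + 1) * y * x ^ n * y := by positivity
                have h4 : (x ^ (n + 1) + ((n : ℝ) + 1) * y * x ^ n) * (x + y) =
                    x ^ (n + 1 + 1) + ((n : ℝ) + 1 + 1) * y * x ^ (n + 1) +
                      ((n : ℝ) + 1) * y * x ^ n * y := by ring
                rw [h4]
                linarith
            have := hb (SS D) (1 / (s : ℝ)) hS hinv0 (r + 1)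
            push_cast at this
            have e2 : ((r : ℝ) + 1 + 1) = (r : ℝ) + 2 := by ring
            rw [e2] at this
            exact this
          rw [hfe, div_add' _ _ _ (by positivity), div_le_div_iff₀ (by positivity) (by positivity)]
          have e3 : SS D ^ (r + 1 + 1) + 1 / (s : ℝ) * (SS D ^ (r + 1) / ((r + 1).factorial : ℝ)) *
              (((r : ℝ) + 2) * ((r + 1).factorial : ℝ)) =
              SS D ^ (r + 1 + 1) + ((r : ℝ) + 2) * (1 / (s : ℝ)) * SS D ^ (r + 1) := by
            field_simp
          rw [e3]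
          exact mul_le_mul_of_nonneg_right hpow (by positivity)
  have hk := (key D hD).2.2.2 r
  have hF : ∑ T ∈ D.powerset.filter (fun T => T.card ≤ r), (-1 : ℝ) ^ T.card * ∏ s ∈ T, (1 / (s : ℝ)) =
      FT D r := by
    unfold FT
    rw [sum_filter]
  rw [hF]
  have hsign : |FT D r - VV D| = |(-1 : ℝ) ^ r * (FT D r - VV D)| := by
    rw [abs_mul, abs_pow, abs_neg, abs_one, one_pow, one_mul]
  rw [hsign, abs_of_nonneg hk.1]
  exact hk.2

end Pool.Agent.Helper69.RM
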