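import Pool.Agent.Helper69.RM.St

set_option autoImplicit false

namespace Pool.Agent.Helper69.RM

open Finset

theorem fac_TU {s : ℕ} (hs : 2 ≤ s) {η : ℝ} (h0 : 0 < η) (h1 : η ≤ 1) :
    0 ≤ 1 - (1 - η) / (s : ℝ) ∧
      1 - (1 - η) / (s : ℝ) ≤ (1 - 1 / (s : ℝ)) * Real.exp (2 * η * (1 / (s : ℝ))) := by
  have hs' : (2 : ℝ) ≤ s := by exact_mod_cast hs
  have hp : (0 : ℝ) < s := by linarith
  have hi : 1 / (s : ℝ) ≤ 1 / 2 := one_div_le_one_div_of_le (by norm_num) hs'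
  have hi0 : 0 < 1 / (s : ℝ) := by positivity
  have e : (1 - η) / (s : ℝ) = (1 - η) * (1 / (s : ℝ)) := by ring
  rw [e]
  constructor
  · nlinarith
  · have h2 : 1 + 2 * η * (1 / (s : ℝ)) ≤ Real.exp (2 * η * (1 / (s : ℝ))) := by
      have := Real.add_one_le_exp (2 * η * (1 / (s : ℝ)))
      linarith
    have h3 : (1 - 1 / (s : ℝ)) * (1 + 2 * η * (1 / (s : ℝ))) ≤
        (1 - 1 / (s : ℝ)) * Real.exp (2 * η * (1 / (s : ℝ))) :=
      mul_le_mul_of_nonneg_left h2 (by linarith)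
    refine le_trans ?_ h3
    have h4 : 0 ≤ η * (1 / (s : ℝ)) := by positivity
    nlinarith

theorem hTU (hEU : StEU) : StTU := by
  intro R W b η K hR hb h0 h1 hW
  have ht : 0 ≤ 2 * η / b := by positivity
  have htb : 2 * η / b * b ≤ 2 * η := by
    rw [div_mul_cancel₀ _ hb.ne']
  have hE := hEU R W b (2 * η / b) η (fun s hs => le_trans (by norm_num) (hR s hs)) ht h0.le h1 htb hW
  have hM := Pr_le_of_sum (R := R) (fun s hs => le_trans (by norm_num) (hR s hs))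
    (fun a => K ≤ ((surv R a W).card : ℝ))
    (fun a => Real.exp (2 * η / b * ((surv R a W).card : ℝ))) (Real.exp (2 * η / b * K))
    (Real.exp (2 * η / b * W.card * ∏ s ∈ R, (1 - (1 - η) / (s : ℝ)))) (Real.exp_pos _)
    (fun a => (Real.exp_pos _).le)
    (fun a _ h => Real.exp_le_exp.mpr (mul_le_mul_of_nonneg_left h ht)) hE
  refine hM.trans ?_
  rw [← Real.exp_sub]
  apply Real.exp_le_exp.mpr
  have hprod : ∏ s ∈ R, (1 - (1 - η) / (s : ℝ)) ≤ VV R * Real.exp (2 * η * SS R) := by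
    calc ∏ s ∈ R, (1 - (1 - η) / (s : ℝ))
        ≤ ∏ s ∈ R, (1 - 1 / (s : ℝ)) * Real.exp (2 * η * (1 / (s : ℝ))) :=
          prod_le_prod (fun s hs => (fac_TU (hR s hs) h0 h1).1) fun s hs => (fac_TU (hR s hs) h0 h1).2
      _ = VV R * Real.exp (2 * η * SS R) := by
          rw [prod_mul_distrib, ← Real.exp_sum, ← mul_sum]
          rfl
  have hc : 0 ≤ 2 * η / b * (W.card : ℝ) := by positivity
  have h2 := mul_le_mul_of_nonneg_left hprod hc
  have e : -(2 * η / b * (K - W.card * VV R * Real.exp (2 * η * SS R))) =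
      2 * η / b * (W.card : ℝ) * (VV R * Real.exp (2 * η * SS R)) - 2 * η / b * K := by ring
  rw [e]
  linarith

end Pool.Agent.Helper69.RM
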