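import Pool.Agent.Helper69.RM.St

set_option autoImplicit false

/-! Project RM, module UP: union over the adversarial classes of the primes `≤ w`. -/

namespace Pool.Agent.Helper69.RM

open Finset

open Classical in
private theorem card_CH_PP_le_UP (w : ℝ) (hw : 0 ≤ w) : ((CH (PP 1 w)).card : ℝ) ≤ Real.exp (2 * w) := by
  have h1 : (CH (PP 1 w)).card ≤ 4 ^ ⌊w⌋₊ := by
    rw [card_CH]
    refine le_trans ?_ (primorial_le_four_pow ⌊w⌋₊)
    unfold primorial
    refine Finset.prod_le_prod_of_subset_of_one_le' ?_ ?_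
    · intro p hp
      unfold PP at hp
      rw [mem_filter, mem_Ioc] at hp
      rw [mem_filter, mem_range]
      exact ⟨by omega, hp.2⟩
    · intro p hp _
      rw [mem_filter] at hp
      exact hp.2.one_lt.le
  have h2 : ((CH (PP 1 w)).card : ℝ) ≤ (4 : ℝ) ^ ⌊w⌋₊ := by exact_mod_cast h1
  refine h2.trans ?_
  have h4 : (4 : ℝ) ≤ Real.exp 2 := by
    have h5 := Real.exp_one_gt_d9
    have h6 : Real.exp 2 = Real.exp 1 * Real.exp 1 := by
      rw [← Real.exp_add]
      norm_num
    rw [h6]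
    nlinarith
  calc (4 : ℝ) ^ ⌊w⌋₊ ≤ (Real.exp 2) ^ ⌊w⌋₊ := pow_le_pow_left₀ (by norm_num) h4 _
    _ = Real.exp (2 * (⌊w⌋₊ : ℝ)) := by
        rw [← Real.exp_nat_mul, mul_comm]
    _ ≤ Real.exp (2 * w) := by
        apply Real.exp_le_exp.mpr
        have := Nat.floor_le hw
        linarith

open Classical in
/-- module UP -/
theorem hUP : StUP := by
  intro w R A G B hw hB h
  have h1 : Pr R (fun a => ∃ β : ℕ → ℕ, G (surv R a (surv (PP 1 w) β A))) ≤
      Pr R (fun a => ∃ β ∈ CH (PP 1 w), G (surv R a (surv (PP 1 w) β A))) := by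
    refine Pr_mono ?_
    rintro a _ ⟨β, hβ⟩
    refine ⟨fun s => if s ∈ PP 1 w then β s % s else 0, ?_, ?_⟩
    · rw [mem_CH]
      refine ⟨fun s hs => ?_, fun s hs => ?_⟩
      · rw [if_pos hs]
        have hsp : s.Prime := by
          unfold PP at hs
          rw [mem_filter] at hs
          exact hs.2
        exact Nat.mod_lt _ hsp.pos
      · rw [if_neg hs]
    · have h2 : surv (PP 1 w) (fun s => if s ∈ PP 1 w then β s % s else 0) A = surv (PP 1 w) β A := by
        refine surv_congr ?_ A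
        intro s hs
        rw [if_pos hs]
        exact Nat.mod_modEq _ _
      rw [h2]
      exact hβ
  refine h1.trans ((Pr_exists_le (CH (PP 1 w))
    (fun β a => G (surv R a (surv (PP 1 w) β A)))).trans ?_)
  calc ∑ β ∈ CH (PP 1 w), Pr R (fun a => G (surv R a (surv (PP 1 w) β A)))
      ≤ ∑ _β ∈ CH (PP 1 w), B := sum_le_sum fun β _ => h β
    _ = ((CH (PP 1 w)).card : ℝ) * B := by rw [sum_const, nsmul_eq_mul]
    _ ≤ Real.exp (2 * w) * B := mul_le_mul_of_nonneg_right (card_CH_PP_le_UP w hw) hB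

end Pool.Agent.Helper69.RM
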