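import Pool.Agent.Helper69.RM.St

set_option autoImplicit false

/-! RM module VB: the products for admissible parameters. -/

namespace Pool.Agent.Helper69.RM

open Finset

private theorem VV_PP_mul_VB {a b : ℝ} (ha : 1 ≤ a) (hab : a ≤ b) :
    VV (PP 1 b) = VV (PP 1 a) * VV (PP a b) := by
  unfold VV
  rw [← prod_union]
  · congr 1
    ext p
    rw [mem_union, mem_PP (by norm_num), mem_PP (by norm_num), mem_PP (by linarith)]
    constructor
    · rintro ⟨h1, h2, h3⟩
      by_cases h : (p : ℝ) ≤ a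
      · exact Or.inl ⟨h1, h, h3⟩
      · exact Or.inr ⟨not_le.1 h, h2, h3⟩
    · rintro (⟨h1, h2, h3⟩ | ⟨h1, h2, h3⟩)
      · exact ⟨h1, h2.trans hab, h3⟩
      · exact ⟨lt_of_le_of_lt ha h1, h2, h3⟩
  · rw [disjoint_left]
    intro p hp hq
    rw [mem_PP (by norm_num)] at hp
    rw [mem_PP (by linarith)] at hq
    exact absurd hq.1 (not_lt.2 hp.2.1)

theorem hVB (hVM : StVM) : StVB := by
  intro θ hθ hθ1
  obtain ⟨c0, C0, hc0, hC0, hV⟩ := hVM
  refine ⟨min (c0 / (C0 * θ)) c0, max (C0 / (c0 * θ)) (2 * C0), by positivity,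
    lt_max_of_lt_right (by positivity), ⌈Real.exp (Real.exp (max 10 (1 / θ)))⌉₊, ?_⟩
  intro x hx y u ⟨hu1, hu2, hxy, hyx⟩
  have hxr : Real.exp (Real.exp (max 10 (1 / θ))) ≤ (x : ℝ) := Nat.ceil_le.1 hx
  have hxpos : (0 : ℝ) < x := lt_of_lt_of_le (Real.exp_pos _) hxr
  set L := Real.log (x : ℝ) with hL
  have hL1 : Real.exp (max 10 (1 / θ)) ≤ L := by
    rw [hL, Real.le_log_iff_exp_le hxpos]
    exact hxr
  have hLpos : 0 < L := lt_of_lt_of_le (Real.exp_pos _) hL1
  set l := LL (x : ℝ) with hl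
  have hlL : l = Real.log L := rfl
  have hl1 : max 10 (1 / θ) ≤ l := by
    rw [hlL, Real.le_log_iff_exp_le hLpos]
    exact hL1
  have hl10 : 10 ≤ l := (le_max_left _ _).trans hl1
  have hlθ : 1 / θ ≤ l := (le_max_right _ _).trans hl1
  have hl5 : l ≤ l ^ 5 := by
    calc l = l ^ 1 := (pow_one l).symm
      _ ≤ l ^ 5 := pow_le_pow_right₀ (by linarith) (by norm_num)
  have hul : l ≤ u := hl5.trans hu1
  have hupos : 0 < u := by linarith
  have huθ : 1 ≤ θ * u := by
    have := hlθ.trans hul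
    rw [div_le_iff₀ hθ] at this
    linarith
  have hLu : l ^ 2 ≤ L / u := by
    rw [le_div_iff₀ hupos]
    linarith
  have hLu10 : 10 * l ≤ L / u := le_trans (by nlinarith) hLu
  have hLu1 : 1 ≤ L / u := by linarith
  have hexp2 : (2 : ℝ) ≤ Real.exp 1 := by
    have := Real.add_one_le_exp (1 : ℝ)
    linarith
  -- the point `z`
  have hzz : Real.log (zz x u) = L / u := by
    unfold zz
    rw [Real.log_exp]
  have hzz2 : 2 ≤ zz x u := by
    unfold zz
    exact hexp2.trans (Real.exp_le_exp.2 hLu1)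
  have hxθ : Real.log ((x : ℝ) ^ θ) = θ * L := Real.log_rpow hxpos θ
  have hzx : zz x u ≤ (x : ℝ) ^ θ := by
    rw [← Real.log_le_log_iff (by linarith) (Real.rpow_pos_of_pos hxpos θ), hzz, hxθ,
      div_le_iff₀ hupos]
    nlinarith
  -- the point `z0`
  have hz0pos : 0 < z0 x u := by
    unfold z0
    exact div_pos (by linarith) (pow_pos hLpos 5)
  have hz0 : Real.log (z0 x u) = L / u - 5 * l := by
    unfold z0
    rw [Real.log_div (by linarith) (pow_pos hLpos 5).ne', hzz, Real.log_pow]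
    push_cast
    rfl
  have hz0a : L / u / 2 ≤ Real.log (z0 x u) := by rw [hz0]; linarith
  have hz0b : Real.log (z0 x u) ≤ L / u := by rw [hz0]; linarith
  have hz02 : 2 ≤ z0 x u := by
    have : 1 ≤ Real.log (z0 x u) := by rw [hz0]; linarith
    rw [Real.le_log_iff_exp_le hz0pos] at this
    linarith
  obtain ⟨a1, a2⟩ := hV (zz x u) hzz2
  obtain ⟨b1, b2⟩ := hV ((x : ℝ) ^ θ) (hzz2.trans hzx)
  obtain ⟨d1, d2⟩ := hV (z0 x u) hz02
  rw [hzz] at a1 a2
  rw [hxθ] at b1 b2
  have hmul := VV_PP_mul_VB (show (1 : ℝ) ≤ zz x u by linarith) hzx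
  rw [hmul] at b1 b2
  have hLu0 : 0 < L / u := by linarith
  have hA0 : 0 < VV (PP 1 (zz x u)) := lt_of_lt_of_le (by positivity) a1
  have hR : VV (RR x u θ) = VV (PP (zz x u) ((x : ℝ) ^ θ)) := rfl
  have hP : VV (P0 x u) = VV (PP 1 (z0 x u)) := rfl
  rw [hR, hP]
  have hR0 : 0 < VV (PP (zz x u) ((x : ℝ) ^ θ)) := by
    have : 0 < VV (PP 1 (zz x u)) * VV (PP (zz x u) ((x : ℝ) ^ θ)) :=
      lt_of_lt_of_le (by positivity) b1
    exact pos_of_mul_pos_right this hA0.le
  refine ⟨?_, ?_, ?_, ?_⟩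
  · have h1 : c0 / (θ * L) ≤ C0 / (L / u) * VV (PP (zz x u) ((x : ℝ) ^ θ)) :=
      b1.trans (mul_le_mul_of_nonneg_right a2 hR0.le)
    have h2 : c0 / (C0 * θ) / u ≤ VV (PP (zz x u) ((x : ℝ) ^ θ)) := by
      have h3 : c0 / (θ * L) = C0 / (L / u) * (c0 / (C0 * θ) / u) := by
        field_simp
      rw [h3] at h1
      exact le_of_mul_le_mul_left h1 (by positivity)
    exact (div_le_div_of_nonneg_right (min_le_left _ _) hupos.le).trans h2
  · have h1 : c0 / (L / u) * VV (PP (zz x u) ((x : ℝ) ^ θ)) ≤ C0 / (θ * L) :=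
      (mul_le_mul_of_nonneg_right a1 hR0.le).trans b2
    have h2 : VV (PP (zz x u) ((x : ℝ) ^ θ)) ≤ C0 / (c0 * θ) / u := by
      have h3 : C0 / (θ * L) = c0 / (L / u) * (C0 / (c0 * θ) / u) := by
        field_simp
      rw [h3] at h1
      exact le_of_mul_le_mul_left h1 (by positivity)
    exact h2.trans (div_le_div_of_nonneg_right (le_max_left _ _) hupos.le)
  · have h1 : c0 * u / L ≤ c0 / Real.log (z0 x u) := by
      rw [div_le_div_iff₀ hLpos (by linarith)]
      have : u * Real.log (z0 x u) ≤ L := by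
        calc u * Real.log (z0 x u) ≤ u * (L / u) := mul_le_mul_of_nonneg_left hz0b hupos.le
          _ = L := by field_simp
      nlinarith
    have h2 : min (c0 / (C0 * θ)) c0 * u / L ≤ c0 * u / L :=
      div_le_div_of_nonneg_right (mul_le_mul_of_nonneg_right (min_le_right _ _) hupos.le) hLpos.le
    exact h2.trans (h1.trans d1)
  · have h1 : C0 / Real.log (z0 x u) ≤ 2 * C0 * u / L := by
      rw [div_le_div_iff₀ (by linarith) hLpos]
      have : L ≤ 2 * (u * Real.log (z0 x u)) := by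
        calc L = 2 * (u * (L / u / 2)) := by field_simp
          _ ≤ 2 * (u * Real.log (z0 x u)) := by
            have := mul_le_mul_of_nonneg_left hz0a hupos.le
            linarith
      nlinarith
    have h2 : 2 * C0 * u / L ≤ max (C0 / (c0 * θ)) (2 * C0) * u / L :=
      div_le_div_of_nonneg_right (mul_le_mul_of_nonneg_right (le_max_right _ _) hupos.le) hLpos.le
    exact d2.trans (h1.trans h2)

end Pool.Agent.Helper69.RM
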