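import Pool.Agent.Helper69.RM.St
import Pool.Agent.Helper15.AB.M_MT

set_option autoImplicit false

/-! Project RM (helper69), module VM: the product of Mertens up to constants. -/

namespace Pool.Agent.Helper69.RM

open Finset

private theorem one_sub_VM {u : ℝ} (h0 : 0 ≤ u) (h1 : u ≤ 1 / 2) :
    Real.exp (-(u + u ^ 2)) ≤ 1 - u := by
  have h2 : 0 ≤ u + u ^ 2 := by positivity
  have h3 := Real.quadratic_le_exp_of_nonneg h2
  rw [Real.exp_neg, inv_le_comm₀ (Real.exp_pos _) (by linarith)]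
  refine le_trans ?_ h3
  rw [inv_le_iff_one_le_mul₀ (by linarith)]
  nlinarith [mul_nonneg h0 h0, mul_nonneg (mul_nonneg h0 h0) h0,
    mul_nonneg (mul_nonneg h0 h0) (sub_nonneg.2 h1),
    mul_nonneg (mul_nonneg (mul_nonneg h0 h0) h0) (sub_nonneg.2 h1)]

private theorem sq_VM (N : ℕ) : ∑ n ∈ Icc 2 (N + 1), 1 / (n : ℝ) ^ 2 ≤ 1 - 1 / ((N : ℝ) + 1) := by
  induction N with
  | zero => simp
  | succ N ih =>
    rw [sum_Icc_succ_top (by omega)]
    have h1 : (0 : ℝ) < (N : ℝ) + 1 := by positivity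
    have h2 : (0 : ℝ) < (N : ℝ) + 2 := by positivity
    have h3 : 1 / (((N + 1 + 1 : ℕ) : ℝ)) ^ 2 ≤ 1 / ((N : ℝ) + 1) - 1 / ((N : ℝ) + 2) := by
      push_cast
      rw [div_sub_div _ _ h1.ne' h2.ne', div_le_div_iff₀ (by positivity) (by positivity)]
      nlinarith
    have h4 : 1 / (((N + 1 : ℕ) : ℝ) + 1) = 1 / ((N : ℝ) + 2) := by
      push_cast
      ring_nf
    rw [h4]
    linarith

private theorem sumsq_VM (w : ℝ) : ∑ p ∈ PP 1 w, 1 / (p : ℝ) ^ 2 ≤ 1 := by
  have h1 : PP 1 w ⊆ Icc 2 (⌊w⌋₊ + 1) := by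
    intro p hp
    unfold PP at hp
    rw [mem_filter, mem_Ioc] at hp
    rw [mem_Icc]
    exact ⟨hp.2.two_le, hp.1.2.trans (Nat.le_succ _)⟩
  refine (sum_le_sum_of_subset_of_nonneg h1 (fun i _ _ => by positivity)).trans ?_
  have h2 := sq_VM ⌊w⌋₊
  have h3 : (0 : ℝ) ≤ 1 / ((⌊w⌋₊ : ℝ) + 1) := by positivity
  linarith

private theorem le_VM (w : ℝ) : VV (PP 1 w) ≤ Real.exp (-SS (PP 1 w)) := by
  unfold VV SS
  rw [← Finset.sum_neg_distrib, Real.exp_sum]
  refine Finset.prod_le_prod (fun s hs => ?_) fun s hs => ?_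
  · have h2 : 2 ≤ s := ((mem_PP (by norm_num : (0 : ℝ) ≤ 1)).1 hs).2.2.two_le
    have : (2 : ℝ) ≤ s := by exact_mod_cast h2
    rw [sub_nonneg, div_le_one (by linarith)]
    linarith
  · have := Real.add_one_le_exp (-(1 / (s : ℝ)))
    linarith

private theorem ge_VM (w : ℝ) : Real.exp (-SS (PP 1 w) - 1) ≤ VV (PP 1 w) := by
  have h1 : ∏ s ∈ PP 1 w, Real.exp (-(1 / (s : ℝ) + (1 / (s : ℝ)) ^ 2)) ≤ VV (PP 1 w) := by
    unfold VV
    refine Finset.prod_le_prod (fun s _ => (Real.exp_pos _).le) fun s hs => ?_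
    have h2 : 2 ≤ s := ((mem_PP (by norm_num : (0 : ℝ) ≤ 1)).1 hs).2.2.two_le
    have h3 : (2 : ℝ) ≤ s := by exact_mod_cast h2
    refine one_sub_VM (by positivity) ?_
    rw [div_le_div_iff₀ (by linarith) (by norm_num)]
    linarith
  refine le_trans ?_ h1
  rw [← Real.exp_sum]
  refine Real.exp_le_exp.2 ?_
  rw [Finset.sum_neg_distrib, Finset.sum_add_distrib]
  have h4 := sumsq_VM w
  have h5 : ∑ p ∈ PP 1 w, (1 / (p : ℝ)) ^ 2 = ∑ p ∈ PP 1 w, 1 / (p : ℝ) ^ 2 :=
    sum_congr rfl (fun p _ => by rw [div_pow, one_pow])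
  rw [h5]
  unfold SS
  linarith

theorem hVM : StVM := by
  obtain ⟨C, hC, h⟩ := Pool.Agent.Helper15.AB.hMT
  have hl2 : 0 < Real.log 2 := Real.log_pos (by norm_num)
  refine ⟨min (Real.exp (-C - 1)) (Real.log 2 / 2), max (Real.exp C) 1,
    lt_min (Real.exp_pos _) (by positivity), lt_max_of_lt_left (Real.exp_pos _), fun w hw => ?_⟩
  have hlw : 0 < Real.log w := Real.log_pos (by linarith)
  by_cases h3 : 3 ≤ w
  · have hlw1 : 1 < Real.log w := by
      have : Real.exp 1 < w := lt_of_lt_of_le (lt_trans Real.exp_one_lt_d9 (by norm_num)) h3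
      rwa [Real.lt_log_iff_exp_lt (by linarith)]
    have hSS : SS (PP 1 w) = ∑ l ∈ (Icc 1 ⌊w⌋₊).filter Nat.Prime, (1 : ℝ) / l := by
      unfold SS
      congr 1
      ext p
      unfold PP
      simp only [mem_filter, mem_Ioc, mem_Icc, Nat.floor_one]
      constructor
      · rintro ⟨h1, h2⟩
        exact ⟨⟨h1.1.le, h1.2⟩, h2⟩
      · rintro ⟨h1, h2⟩
        exact ⟨⟨h2.one_lt, h1.2⟩, h2⟩
    have hm := h w h3
    rw [← hSS, abs_le] at hm
    have hexp : Real.exp (-(Real.log (Real.log w))) = 1 / Real.log w := by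
      rw [Real.exp_neg, Real.exp_log hlw, one_div]
    constructor
    · calc min (Real.exp (-C - 1)) (Real.log 2 / 2) / Real.log w ≤ Real.exp (-C - 1) / Real.log w :=
          div_le_div_of_nonneg_right (min_le_left _ _) hlw.le
        _ = Real.exp (-C - 1 + -(Real.log (Real.log w))) := by
          rw [Real.exp_add, hexp]
          ring
        _ ≤ Real.exp (-SS (PP 1 w) - 1) := Real.exp_le_exp.2 (by linarith [hm.2])
        _ ≤ _ := ge_VM w
    · calc VV (PP 1 w) ≤ Real.exp (-SS (PP 1 w)) := le_VM w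
        _ ≤ Real.exp (C + -(Real.log (Real.log w))) := Real.exp_le_exp.2 (by linarith [hm.1])
        _ = Real.exp C / Real.log w := by
          rw [Real.exp_add, hexp]
          ring
        _ ≤ _ := div_le_div_of_nonneg_right (le_max_left _ _) hlw.le
  · rw [not_le] at h3
    have hf : ⌊w⌋₊ = 2 := by
      rw [Nat.floor_eq_iff (by linarith)]
      constructor
      · exact_mod_cast hw
      · push_cast
        linarith
    have hPP : PP 1 w = {2} := by
      ext p
      unfold PP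
      rw [hf, Nat.floor_one, mem_filter, mem_Ioc, mem_singleton]
      constructor
      · rintro ⟨h1, _⟩
        omega
      · rintro rfl
        exact ⟨by omega, Nat.prime_two⟩
    have hV : VV (PP 1 w) = 1 / 2 := by
      unfold VV
      rw [hPP, prod_singleton]
      norm_num
    rw [hV]
    constructor
    · calc min (Real.exp (-C - 1)) (Real.log 2 / 2) / Real.log w ≤ (Real.log 2 / 2) / Real.log w :=
          div_le_div_of_nonneg_right (min_le_right _ _) hlw.le
        _ ≤ (Real.log 2 / 2) / Real.log 2 :=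
          div_le_div_of_nonneg_left (by positivity) hl2 (Real.log_le_log (by norm_num) hw)
        _ = 1 / 2 := by field_simp
    · rw [le_div_iff₀ hlw]
      have h4 : Real.log w ≤ w - 1 := Real.log_le_sub_one_of_pos (by linarith)
      have h5 : (1 : ℝ) ≤ max (Real.exp C) 1 := le_max_right _ _
      linarith

end Pool.Agent.Helper69.RM
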