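import Pool.Agent.Helper69.RM.Fin
import Pool.Agent.Helper69.RM.M_APC
import Pool.Agent.Helper69.RM.M_BA
import Pool.Agent.Helper69.RM.M_BON
import Pool.Agent.Helper69.RM.M_BR
import Pool.Agent.Helper69.RM.M_COV
import Pool.Agent.Helper69.RM.M_D1
import Pool.Agent.Helper69.RM.M_D2
import Pool.Agent.Helper69.RM.M_DB
import Pool.Agent.Helper69.RM.M_EL
import Pool.Agent.Helper69.RM.M_EU
import Pool.Agent.Helper69.RM.M_EXT
import Pool.Agent.Helper69.RM.M_GAP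
import Pool.Agent.Helper69.RM.M_KS
import Pool.Agent.Helper69.RM.M_MAIN
import Pool.Agent.Helper69.RM.M_PA
import Pool.Agent.Helper69.RM.M_PB
import Pool.Agent.Helper69.RM.M_PC
import Pool.Agent.Helper69.RM.M_PD
import Pool.Agent.Helper69.RM.M_PE
import Pool.Agent.Helper2.RM.M_PM
import Pool.Agent.Helper69.RM.M_SB
import Pool.Agent.Helper69.RM.M_SC
import Pool.Agent.Helper69.RM.M_SD
import Pool.Agent.Helper69.RM.M_SL
import Pool.Agent.Helper69.RM.M_TL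
import Pool.Agent.Helper69.RM.M_TRU
import Pool.Agent.Helper69.RM.M_TU
import Pool.Agent.Helper69.RM.M_UP
import Pool.Agent.Helper69.RM.M_VB
import Pool.Agent.Helper69.RM.M_VM
import Pool.Agent.Helper2.RM.M_WIN

set_option autoImplicit false

/-! Project RM: assembly -/

namespace Pool.Agent.Helper69.RM

open Finset

theorem aVB : StVB := hVB hVM
theorem aBR : StBR := hBR hAPC hBON hTRU
theorem aBA : StBA := hBA aBR hVM hSL
theorem aTU : StTU := hTU hEU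
theorem aTL : StTL := hTL hEL
theorem aDB : StDB := hDB hPC
theorem aPE : StPE := hPE aTL hUP aBA aVB hSL
theorem aPA : StPA := hPA aTU hUP hAPC aBA aVB hSL
theorem aPB : StPB := hPB aTU hUP hAPC aBA hVM aVB hSL
theorem aPM : StPM := Pool.Agent.Helper2.RM.hPM hKS
theorem aPD : StPD := hPD hKS aVB
theorem aSB : StSB := hSB aVB Pool.Agent.Helper2.RM.hWIN (hD2 aDB)
theorem aSC : StSC := hSC aVB (hD1 aDB) hPC
theorem aSD : StSD := hSD aVB hPC
theorem aMAIN : StMAIN := hMAIN aPE aPA aPB aPM aPD aSB aSC aSD Pool.Agent.Helper2.RM.hWIN hGAP hCOV aVB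
theorem aFIN : StFIN := hFIN aMAIN hEXT

open Classical in
theorem final : ∀ θ : ℝ, Real.exp (-1) < θ → θ < 1 → ∃ C : ℝ, 0 < C ∧ ∃ X : ℕ, ∀ x : ℕ, X ≤ x → ∀ u : ℝ,
    Real.log (Real.log x) ^ 5 ≤ u → u * Real.log (Real.log x) ^ 2 ≤ Real.log x →
    ∀ y : ℕ, C * x * Real.log x / Real.log u ≤ y →
    ∀ R : Finset ℕ, (∀ p ∈ R, p.Prime) →
    (∀ p : ℕ, p.Prime → (x : ℝ) ^ (1 / u) < p → (p : ℝ) ≤ (x : ℝ) ^ θ → p ∈ R) →
    (((R.pi fun p => range p).filter fun a => ∃ b : ℕ → ℕ, (∀ p (hp : p ∈ R), b p = a p hp) ∧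
      ∀ m : ℕ, 1 ≤ m → m ≤ y → ∃ p : ℕ, p.Prime ∧ p ≤ x ∧ m ≡ b p [MOD p]).card : ℝ) ≤
      1 / x * ∏ p ∈ R, (p : ℝ) := hPI aFIN

end Pool.Agent.Helper69.RM
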