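import Mathlib

set_option autoImplicit false

/-! Project RM (helper69), MP_924f75_nt: random classes for the middle primes.
Definitions and elementary lemmas. -/

namespace Pool.Agent.Helper69.RM

open Finset

/-- primes in `(a,b]` -/
noncomputable def PP (a b : ℝ) : Finset ℕ := (Ioc ⌊a⌋₊ ⌊b⌋₊).filter Nat.Prime

/-- the elements of `W` which avoid the class `a s` mod `s` for all `s ∈ R` -/
def surv (R : Finset ℕ) (a : ℕ → ℕ) (W : Finset ℕ) : Finset ℕ :=
  W.filter (fun m => ∀ s ∈ R, ¬ m ≡ a s [MOD s])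

/-- the numbers `1 ≤ m ≤ y` with `m ≡ c mod q` -/
def AP (y q c : ℕ) : Finset ℕ := (Icc 1 y).filter (fun m => m ≡ c [MOD q])

/-- extension by zero of a choice of classes -/
def ext (R : Finset ℕ) (f : ∀ s ∈ R, ℕ) : ℕ → ℕ := fun s => if h : s ∈ R then f s h else 0

open Classical in
/-- all choices of classes on `R`, as functions supported on `R` -/
noncomputable def CH (R : Finset ℕ) : Finset (ℕ → ℕ) := (R.pi (fun s => range s)).image (ext R)

open Classical in
/-- probability of an event for uniformly distributed independent classes on `R` -/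
noncomputable def Pr (R : Finset ℕ) (E : (ℕ → ℕ) → Prop) : ℝ :=
  (((CH R).filter E).card : ℝ) / ∏ s ∈ R, (s : ℝ)

/-- `∏ (1 - 1/s)` -/
noncomputable def VV (P : Finset ℕ) : ℝ := ∏ s ∈ P, (1 - 1 / (s : ℝ))

/-- `∑ 1/s` -/
noncomputable def SS (P : Finset ℕ) : ℝ := ∑ s ∈ P, 1 / (s : ℝ)

/-- `log log x` -/
noncomputable def LL (x : ℝ) : ℝ := Real.log (Real.log x)

/-- `z = x^(1/u)` -/
noncomputable def zz (x u : ℝ) : ℝ := Real.exp (Real.log x / u)

/-- `z₀ = z / (log x)^5` -/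
noncomputable def z0 (x u : ℝ) : ℝ := zz x u / Real.log x ^ 5

/-- the adversarial small primes -/
noncomputable def P0 (x u : ℝ) : Finset ℕ := PP 1 (z0 x u)

/-- the random primes: `x^(1/u) < s ≤ x^θ` -/
noncomputable def RR (x u θ : ℝ) : Finset ℕ := PP (zz x u) (x ^ θ)

/-- the normalising density -/
noncomputable def VP (x u θ : ℝ) : ℝ := VV (P0 x u) * VV (RR x u θ)

/-- admissible parameters -/
def Par (x y : ℕ) (u : ℝ) : Prop :=
  LL x ^ 5 ≤ u ∧ u * LL x ^ 2 ≤ Real.log x ∧ x ≤ y ∧ (y : ℝ) ≤ x * Real.log x ^ 2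

/-! ### elementary lemmas -/

theorem mem_PP {a b : ℝ} (ha : 0 ≤ a) {p : ℕ} : p ∈ PP a b ↔ a < p ∧ (p : ℝ) ≤ b ∧ p.Prime := by
  unfold PP
  rw [mem_filter, mem_Ioc]
  constructor
  · rintro ⟨⟨h1, h2⟩, h3⟩
    have hb : 0 ≤ b := by
      by_contra hb
      rw [Nat.floor_of_nonpos (not_le.mp hb).le] at h2
      exact absurd h3.pos (by omega)
    exact ⟨(Nat.floor_lt ha).mp h1, (Nat.le_floor_iff hb).mp h2, h3⟩
  · rintro ⟨h1, h2, h3⟩
    exact ⟨⟨(Nat.floor_lt ha).mpr h1, Nat.le_floor h2⟩, h3⟩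

theorem mem_surv {R : Finset ℕ} {a : ℕ → ℕ} {W : Finset ℕ} {m : ℕ} :
    m ∈ surv R a W ↔ m ∈ W ∧ ∀ s ∈ R, ¬ m ≡ a s [MOD s] := by
  unfold surv
  rw [mem_filter]

theorem surv_subset {R : Finset ℕ} {a : ℕ → ℕ} {W : Finset ℕ} : surv R a W ⊆ W := filter_subset _ _

theorem surv_congr {R : Finset ℕ} {a b : ℕ → ℕ} (h : ∀ s ∈ R, a s ≡ b s [MOD s]) (W : Finset ℕ) :
    surv R a W = surv R b W := by
  unfold surv
  apply filter_congr
  intro m _
  constructor
  · intro H s hs hm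
    exact H s hs (hm.trans (h s hs).symm)
  · intro H s hs hm
    exact H s hs (hm.trans (h s hs))

theorem surv_mono {R R' : Finset ℕ} {a : ℕ → ℕ} {W W' : Finset ℕ} (hR : R' ⊆ R) (hW : W ⊆ W') :
    surv R a W ⊆ surv R' a W' := by
  intro m hm
  rw [mem_surv] at hm ⊢
  exact ⟨hW hm.1, fun s hs => hm.2 s (hR hs)⟩

theorem surv_union (R R' : Finset ℕ) (a : ℕ → ℕ) (W : Finset ℕ) :
    surv (R ∪ R') a W = surv R a (surv R' a W) := by
  ext m
  simp only [mem_surv, mem_union]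
  constructor
  · rintro ⟨h, H⟩
    exact ⟨⟨h, fun s hs => H s (Or.inr hs)⟩, fun s hs => H s (Or.inl hs)⟩
  · rintro ⟨⟨h, H⟩, H'⟩
    exact ⟨h, fun s hs => hs.elim (H' s) (H s)⟩

theorem mem_AP {y q c m : ℕ} : m ∈ AP y q c ↔ 1 ≤ m ∧ m ≤ y ∧ m ≡ c [MOD q] := by
  unfold AP
  rw [mem_filter, mem_Icc, and_assoc]

theorem AP_one (y c : ℕ) : AP y 1 c = Icc 1 y := by
  ext m
  rw [mem_AP, mem_Icc]
  exact ⟨fun h => ⟨h.1, h.2.1⟩, fun h => ⟨h.1, h.2, Nat.modEq_one⟩⟩

open Classical in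
theorem mem_CH {R : Finset ℕ} {a : ℕ → ℕ} : a ∈ CH R ↔ (∀ s ∈ R, a s < s) ∧ ∀ s, s ∉ R → a s = 0 := by
  unfold CH
  rw [mem_image]
  constructor
  · rintro ⟨f, hf, rfl⟩
    rw [mem_pi] at hf
    refine ⟨fun s hs => ?_, fun s hs => ?_⟩
    · have := hf s hs
      unfold ext
      rw [dif_pos hs]
      exact mem_range.mp this
    · unfold ext
      rw [dif_neg hs]
  · rintro ⟨h1, h2⟩
    refine ⟨fun s _ => a s, ?_, ?_⟩
    · rw [mem_pi]
      intro s hs
      exact mem_range.mpr (h1 s hs)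
    · funext s
      unfold ext
      by_cases hs : s ∈ R
      · rw [dif_pos hs]
      · rw [dif_neg hs, h2 s hs]

theorem ext_injective (R : Finset ℕ) : Function.Injective (ext R) := by
  intro f g h
  funext s hs
  have := congrFun h s
  unfold ext at this
  rwa [dif_pos hs, dif_pos hs] at this

open Classical in
theorem card_CH (R : Finset ℕ) : (CH R).card = ∏ s ∈ R, s := by
  unfold CH
  rw [card_image_of_injective _ (ext_injective R), card_pi]
  exact prod_congr rfl fun s _ => card_range s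

theorem CH_empty : CH ∅ = {fun _ => 0} := by
  ext a
  rw [mem_CH, mem_singleton]
  constructor
  · rintro ⟨_, h⟩
    funext s
    exact h s (notMem_empty s)
  · rintro rfl
    exact ⟨fun s hs => absurd hs (notMem_empty s), fun _ _ => rfl⟩

/-- summation over one more prime -/
theorem sum_CH_insert {R : Finset ℕ} {s : ℕ} (hs : s ∉ R) (g : (ℕ → ℕ) → ℝ) :
    ∑ a ∈ CH (insert s R), g a = ∑ c ∈ range s, ∑ a ∈ CH R, g (Function.update a s c) := by
  rw [← sum_product']
  symm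
  apply sum_bij' (i := fun (q : ℕ × (ℕ → ℕ)) _ => Function.update q.2 s q.1)
    (j := fun a _ => (a s, Function.update a s 0))
  · rintro ⟨c, a⟩ h
    rw [mem_product] at h
    obtain ⟨h1, h2⟩ := h
    rw [mem_CH] at h2 ⊢
    refine ⟨fun t ht => ?_, fun t ht => ?_⟩
    · by_cases hts : t = s
      · subst hts
        simpa using h1
      · rw [Function.update_of_ne hts]
        exact h2.1 t (by simpa [hts] using ht)
    · rw [mem_insert, not_or] at ht
      rw [Function.update_of_ne ht.1]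
      exact h2.2 t ht.2
  · intro a ha
    rw [mem_CH] at ha
    rw [mem_product, mem_CH]
    refine ⟨mem_range.mpr (ha.1 s (mem_insert_self s R)), fun t ht => ?_, fun t ht => ?_⟩
    · have hts : t ≠ s := fun h => hs (h ▸ ht)
      change Function.update a s 0 t < t
      rw [Function.update_of_ne hts]
      exact ha.1 t (mem_insert_of_mem ht)
    · by_cases hts : t = s
      · subst hts
        simp
      · change Function.update a s 0 t = 0
        rw [Function.update_of_ne hts]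
        exact ha.2 t (by simp [hts, ht])
  · rintro ⟨c, a⟩ h
    rw [mem_product] at h
    obtain ⟨_, h2⟩ := h
    rw [mem_CH] at h2
    ext t
    · simp
    · by_cases hts : t = s
      · subst hts
        have h3 : a t = 0 := h2.2 t hs
        simp [h3]
      · simp [Function.update_of_ne hts]
  · intro a _
    simp
  · rintro ⟨c, a⟩ _
    rfl

theorem prod_pos_of {R : Finset ℕ} (hR : ∀ s ∈ R, 1 ≤ s) : (0 : ℝ) < ∏ s ∈ R, (s : ℝ) :=
  prod_pos fun s hs => by exact_mod_cast hR s hs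

theorem Pr_nonneg (R : Finset ℕ) (E : (ℕ → ℕ) → Prop) : 0 ≤ Pr R E := by
  unfold Pr
  positivity

open Classical in
theorem Pr_mono {R : Finset ℕ} {E F : (ℕ → ℕ) → Prop} (h : ∀ a ∈ CH R, E a → F a) : Pr R E ≤ Pr R F := by
  unfold Pr
  refine div_le_div_of_nonneg_right ?_ (prod_nonneg fun s _ => Nat.cast_nonneg s)
  have : (CH R).filter E ⊆ (CH R).filter F := by
    intro a ha
    rw [mem_filter] at ha ⊢
    exact ⟨ha.1, h a ha.1 ha.2⟩
  exact_mod_cast card_le_card this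

open Classical in
theorem Pr_exists_le {R : Finset ℕ} {ι : Type} (I : Finset ι) (E : ι → (ℕ → ℕ) → Prop) :
    Pr R (fun a => ∃ i ∈ I, E i a) ≤ ∑ i ∈ I, Pr R (E i) := by
  unfold Pr
  rw [← sum_div]
  refine div_le_div_of_nonneg_right ?_ (prod_nonneg fun s _ => Nat.cast_nonneg s)
  rw [← Nat.cast_sum, Nat.cast_le]
  refine le_trans (card_le_card ?_) card_biUnion_le
  intro a ha
  simp only [mem_filter] at ha
  obtain ⟨h1, i, hi, h2⟩ := ha
  rw [mem_biUnion]
  exact ⟨i, hi, mem_filter.mpr ⟨h1, h2⟩⟩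

open Classical in
theorem Pr_or_le {R : Finset ℕ} (E F : (ℕ → ℕ) → Prop) : Pr R (fun a => E a ∨ F a) ≤ Pr R E + Pr R F := by
  unfold Pr
  rw [← add_div]
  refine div_le_div_of_nonneg_right ?_ (prod_nonneg fun s _ => Nat.cast_nonneg s)
  rw [← Nat.cast_add, Nat.cast_le]
  refine le_trans (card_le_card ?_) (card_union_le _ _)
  intro a ha
  simp only [mem_filter] at ha
  rw [mem_union, mem_filter, mem_filter]
  exact ha.2.elim (fun h => Or.inl ⟨ha.1, h⟩) (fun h => Or.inr ⟨ha.1, h⟩)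

open Classical in
/-- Markov's inequality -/
theorem Pr_le_of_sum {R : Finset ℕ} (hR : ∀ s ∈ R, 1 ≤ s) (E : (ℕ → ℕ) → Prop) (g : (ℕ → ℕ) → ℝ) (c B : ℝ)
    (hc : 0 < c) (hg : ∀ a, 0 ≤ g a) (hE : ∀ a ∈ CH R, E a → c ≤ g a)
    (hs : ∑ a ∈ CH R, g a ≤ (∏ s ∈ R, (s : ℝ)) * B) : Pr R E ≤ B / c := by
  unfold Pr
  have hp := prod_pos_of hR
  rw [div_le_div_iff₀ hp hc]
  calc (((CH R).filter E).card : ℝ) * c = ∑ _a ∈ (CH R).filter E, c := by rw [sum_const, nsmul_eq_mul]
    _ ≤ ∑ a ∈ (CH R).filter E, g a := sum_le_sum fun a ha => hE a (mem_filter.mp ha).1 (mem_filter.mp ha).2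
    _ ≤ ∑ a ∈ CH R, g a := sum_le_sum_of_subset_of_nonneg (filter_subset _ _) fun a _ _ => hg a
    _ ≤ _ := hs
    _ = B * ∏ s ∈ R, (s : ℝ) := mul_comm _ _

end Pool.Agent.Helper69.RM
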