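import Pool.Agent.Helper69.RM.St

set_option autoImplicit false

namespace Pool.Agent.Helper69.RM

open Finset

theorem hFIN (hMAIN : StMAIN) (hEXT : StEXT) : StFIN := by
  intro θ h1 h2
  obtain ⟨C, hC, X, hX⟩ := hMAIN θ h1 h2
  refine ⟨C, hC, X, fun x hx u hu1 hu2 y hy R' hR hR' => ?_⟩
  have h3 := hX x hx u hu1 hu2 y hy
  have h4 := hEXT (RR x u θ) R' (fun a => ∃ b : ℕ → ℕ, (∀ s ∈ RR x u θ, b s = a s) ∧ Cov x y b) hR hR' (by
    intro a a' haa
    constructor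
    · rintro ⟨b, hb, hc⟩
      exact ⟨b, fun s hs => (hb s hs).trans (haa s hs), hc⟩
    · rintro ⟨b, hb, hc⟩
      exact ⟨b, fun s hs => (hb s hs).trans (haa s hs).symm, hc⟩)
  refine le_trans (Pr_mono ?_) (h4.le.trans h3)
  rintro a _ ⟨b, hb, hc⟩
  exact ⟨b, fun s hs => hb s (hR hs), hc⟩

open Classical in
/-- the statement in terms of dependent choices -/
theorem hPI (hFIN : StFIN) : ∀ θ : ℝ, Real.exp (-1) < θ → θ < 1 → ∃ C : ℝ, 0 < C ∧ ∃ X : ℕ, ∀ x : ℕ, X ≤ x → ∀ u : ℝ,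
    Real.log (Real.log x) ^ 5 ≤ u → u * Real.log (Real.log x) ^ 2 ≤ Real.log x →
    ∀ y : ℕ, C * x * Real.log x / Real.log u ≤ y →
    ∀ R : Finset ℕ, (∀ p ∈ R, p.Prime) →
    (∀ p : ℕ, p.Prime → (x : ℝ) ^ (1 / u) < p → (p : ℝ) ≤ (x : ℝ) ^ θ → p ∈ R) →
    (((R.pi fun p => range p).filter fun a => ∃ b : ℕ → ℕ, (∀ p (hp : p ∈ R), b p = a p hp) ∧
      ∀ m : ℕ, 1 ≤ m → m ≤ y → ∃ p : ℕ, p.Prime ∧ p ≤ x ∧ m ≡ b p [MOD p]).card : ℝ) ≤
      1 / x * ∏ p ∈ R, (p : ℝ) := by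
  intro θ h1 h2
  obtain ⟨C, hC, X, hX⟩ := hFIN θ h1 h2
  have hT1 : Filter.Tendsto (fun x : ℕ => Real.log (x : ℝ)) Filter.atTop Filter.atTop :=
    Real.tendsto_log_atTop.comp tendsto_natCast_atTop_atTop
  have hT2 : Filter.Tendsto (fun x : ℕ => Real.log (Real.log (x : ℝ))) Filter.atTop Filter.atTop :=
    Real.tendsto_log_atTop.comp hT1
  obtain ⟨X', hX'⟩ := Filter.eventually_atTop.mp ((hT2.eventually_ge_atTop 2).and (Filter.eventually_ge_atTop 2))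
  refine ⟨C, hC, X + X', fun x hx u hu1 hu2 y hy R hR hRR => ?_⟩
  obtain ⟨hLL, hx2⟩ := hX' x (by omega)
  have hx0 : (0 : ℝ) < x := by
    have : (2 : ℝ) ≤ x := by exact_mod_cast hx2
    linarith
  have hu32 : (32 : ℝ) ≤ u := by
    have : (2 : ℝ) ^ 5 ≤ Real.log (Real.log x) ^ 5 := pow_le_pow_left₀ (by norm_num) hLL 5
    norm_num at this
    linarith
  have hlogu : 0 < Real.log u := Real.log_pos (by linarith)
  rw [div_le_iff₀ hlogu] at hy
  have hsub : RR x u θ ⊆ R := by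
    intro p hp
    unfold RR at hp
    have hz : 0 ≤ zz (x : ℝ) u := (Real.exp_pos _).le
    rw [mem_PP hz] at hp
    apply hRR p hp.2.2 _ hp.2.1
    rw [Real.rpow_def_of_pos hx0]
    have := hp.1
    unfold zz at this
    rw [mul_one_div]
    exact this
  have hmain := hX x (by omega) u hu1 hu2 y hy R hsub (fun s hs => (hR s hs).one_lt.le)
  have hp : (0 : ℝ) < ∏ p ∈ R, (p : ℝ) := prod_pos_of fun s hs => (hR s hs).one_lt.le
  unfold Pr at hmain
  rw [div_le_iff₀ hp] at hmain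
  refine le_trans ?_ hmain
  rw [Nat.cast_le]
  refine card_le_card_of_injOn (ext R) ?_ ((ext_injective R).injOn)
  intro a ha
  rw [mem_coe, mem_filter] at ha
  obtain ⟨ha1, b, hb, hc⟩ := ha
  rw [mem_coe, mem_filter]
  refine ⟨?_, b, ?_, ?_⟩
  · unfold CH
    exact mem_image_of_mem _ ha1
  · intro s hs
    rw [hb s hs]
    unfold ext
    rw [dif_pos hs]
  · exact hc

end Pool.Agent.Helper69.RM
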