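import Mathlib
import Pool.Agent.Helper69.RM.St
import Pool.Agent.Helper60.GP.M_M1

set_option autoImplicit false

/-! Project RM (MP_924f75_nt), module GAP (helper92): the sum of `1/p` over `(z0, z]`. -/

namespace Pool.Agent.Helper69.RM

open Finset Filter

/-- `∑ log p / p` over a window -/
private theorem gap_window {C : ℝ} (hC : ∀ x : ℝ, 1 ≤ x →
    |∑ p ∈ (Icc 1 ⌊x⌋₊).filter Nat.Prime, Real.log p / p - Real.log x| ≤ C) {a b : ℝ}
    (ha : 1 ≤ a) (hab : a ≤ b) :
    ∑ p ∈ PP a b, Real.log p / p ≤ Real.log b - Real.log a + 2 * C := by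
  have h1 := hC a ha
  have h2 := hC b (le_trans ha hab)
  rw [abs_le] at h1 h2
  have hfl : ⌊a⌋₊ ≤ ⌊b⌋₊ := Nat.floor_le_floor hab
  have h3 : (Icc 1 ⌊b⌋₊).filter Nat.Prime = (Icc 1 ⌊a⌋₊).filter Nat.Prime ∪ PP a b := by
    ext p
    unfold PP
    simp only [mem_union, mem_filter, mem_Icc, mem_Ioc]
    constructor
    · rintro ⟨⟨h, h'⟩, hp⟩
      by_cases hpa : p ≤ ⌊a⌋₊
      · exact Or.inl ⟨⟨h, hpa⟩, hp⟩
      · exact Or.inr ⟨⟨not_le.mp hpa, h'⟩, hp⟩
    · rintro (⟨⟨h, h'⟩, hp⟩ | ⟨⟨h, h'⟩, hp⟩)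
      · exact ⟨⟨h, le_trans h' hfl⟩, hp⟩
      · exact ⟨⟨by omega, h'⟩, hp⟩
  have h4 : Disjoint ((Icc 1 ⌊a⌋₊).filter Nat.Prime) (PP a b) := by
    rw [Finset.disjoint_left]
    intro p hp hp'
    unfold PP at hp'
    simp only [mem_filter, mem_Icc, mem_Ioc] at hp hp'
    omega
  rw [h3, Finset.sum_union h4] at h2
  linarith [h1.1, h2.2]

theorem hGAP : StGAP := by
  intro η hη
  obtain ⟨C, hC⟩ := Pool.Agent.Helper60.GP.hM1
  have hC0 : 0 ≤ C := le_trans (abs_nonneg _) (hC 1 le_rfl)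
  set K : ℝ := 6 + (5 + 2 * C) / η with hK
  have hK6 : 6 ≤ K := by
    have : 0 ≤ (5 + 2 * C) / η := by positivity
    linarith
  have ht : Tendsto (fun x : ℕ => LL (x : ℝ)) atTop atTop :=
    Real.tendsto_log_atTop.comp (Real.tendsto_log_atTop.comp tendsto_natCast_atTop_atTop)
  have ht2 : Tendsto (fun x : ℕ => Real.log (x : ℝ)) atTop atTop :=
    Real.tendsto_log_atTop.comp tendsto_natCast_atTop_atTop
  obtain ⟨X, hX⟩ := eventually_atTop.mp ((ht.eventually_ge_atTop K).and (ht2.eventually_ge_atTop 1))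
  refine ⟨X, fun x hx y u hP => ?_⟩
  obtain ⟨hl, hL⟩ := hX x hx
  obtain ⟨hu1, hu2, -, -⟩ := hP
  set L : ℝ := Real.log x with hLdef
  set l : ℝ := LL x with hldef
  have hll : Real.log L = l := rfl
  have hl0 : 0 < l := by linarith
  have hL0 : 0 < L := by linarith
  have hu0 : 0 < u := lt_of_lt_of_le (by positivity) hu1
  have hz : Real.log (zz x u) = L / u := by
    unfold zz
    rw [Real.log_exp]
  have hzp : 0 < zz x u := Real.exp_pos _
  have hz0 : Real.log (z0 x u) = L / u - 5 * l := by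
    unfold z0
    rw [Real.log_div hzp.ne' (by positivity), hz, Real.log_pow, hll]
    norm_num
  have hz0p : 0 < z0 x u := by
    unfold z0
    positivity
  have hLu : l ^ 2 ≤ L / u := by
    rw [le_div_iff₀ hu0]
    linarith
  have hlow : l * (l - 5) ≤ Real.log (z0 x u) := by
    rw [hz0]
    nlinarith
  have hpos : 0 < l * (l - 5) := mul_pos hl0 (by linarith)
  have hlz0 : 0 < Real.log (z0 x u) := lt_of_lt_of_le hpos hlow
  have hz01 : 1 ≤ z0 x u := by
    by_contra h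
    exact absurd (Real.log_nonpos hz0p.le (not_le.mp h).le) (not_le.mpr hlz0)
  have hle : z0 x u ≤ zz x u := by
    unfold z0
    exact div_le_self hzp.le (one_le_pow₀ hL)
  have hw := gap_window hC hz01 hle
  rw [hz, hz0] at hw
  have h1 : SS (PP (z0 x u) (zz x u)) * Real.log (z0 x u)
      ≤ ∑ p ∈ PP (z0 x u) (zz x u), Real.log p / p := by
    unfold SS
    rw [Finset.sum_mul]
    refine Finset.sum_le_sum fun p hp => ?_
    rw [mem_PP hz0p.le] at hp
    have hp0 : (0 : ℝ) < p := lt_trans hz0p hp.1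
    have h2 : Real.log (z0 x u) ≤ Real.log p := Real.log_le_log hz0p hp.1.le
    rw [one_div, div_eq_inv_mul]
    exact mul_le_mul_of_nonneg_left h2 (by positivity)
  have h2 : SS (PP (z0 x u) (zz x u)) * Real.log (z0 x u) ≤ 5 * l + 2 * C := by linarith
  have h3 : 5 * l + 2 * C ≤ η * (l * (l - 5)) := by
    have h4 : (5 + 2 * C) / η ≤ l - 5 := by linarith
    rw [div_le_iff₀ hη] at h4
    have h5 : l * (5 + 2 * C) ≤ l * ((l - 5) * η) := mul_le_mul_of_nonneg_left h4 hl0.le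
    nlinarith
  have h4 : SS (PP (z0 x u) (zz x u)) * Real.log (z0 x u) ≤ η * Real.log (z0 x u) := by
    have := mul_le_mul_of_nonneg_left hlow hη.le
    linarith
  exact le_of_mul_le_mul_right h4 hlz0

end Pool.Agent.Helper69.RM
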