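import Pool.Agent.Helper69.RM.St

set_option autoImplicit false

/-! Project RM (helper69), module TL: lower tail of the random sieve. -/

namespace Pool.Agent.Helper69.RM

open Finset

private theorem fac_TL {s η : ℝ} (hs : 2 ≤ s) (h0 : 0 ≤ η) (h1 : η ≤ 1 / 2) :
    0 ≤ 1 - (1 + η) / s ∧ (1 - 1 / s) * Real.exp (-(4 * η / s)) ≤ 1 - (1 + η) / s := by
  have hs0 : (0 : ℝ) < s := by linarith
  have hs1 : (0 : ℝ) < s - 1 := by linarith
  constructor
  · rw [sub_nonneg, div_le_one hs0]
    linarith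
  · have h2 : Real.exp (-(4 * η / s)) ≤ 1 - 2 * η / s := by
      set w : ℝ := 2 * η / s with hw
      have hw0 : 0 ≤ w := by rw [hw]; positivity
      have hw1 : w ≤ 1 / 2 := by
        rw [hw, div_le_iff₀ hs0]
        nlinarith
      have h3 : 4 * η / s = 2 * w := by rw [hw]; ring
      rw [h3, Real.exp_neg]
      have h4 := Real.quadratic_le_exp_of_nonneg (x := 2 * w) (by linarith)
      have h5 : 0 < 1 + 2 * w + (2 * w) ^ 2 / 2 := by positivity
      refine (inv_anti₀ h5 h4).trans ?_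
      rw [inv_le_iff_one_le_mul₀ h5]
      nlinarith [mul_nonneg hw0 (sub_nonneg.2 hw1), mul_nonneg (mul_nonneg hw0 hw0) (sub_nonneg.2 hw1)]
    have h6 : 0 ≤ 1 - 1 / s := by
      rw [sub_nonneg, div_le_one hs0]
      linarith
    refine (mul_le_mul_of_nonneg_left h2 h6).trans ?_
    have h7 : 1 - (1 + η) / s - (1 - 1 / s) * (1 - 2 * η / s) = η * (s - 2) / s ^ 2 := by
      field_simp
      ring
    have h8 : 0 ≤ η * (s - 2) / s ^ 2 := by
      apply div_nonneg (mul_nonneg h0 (by linarith)) (by positivity)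
    linarith

theorem hTL (hEL : StEL) : StTL := by
  intro R W b η K hR hb h0 h1 hW
  set t : ℝ := η / b with ht
  have ht0 : 0 ≤ t := (div_pos h0 hb).le
  have htb : t * b ≤ η := by
    rw [ht, div_mul_cancel₀ _ hb.ne']
  set Q : ℝ := ∏ s ∈ R, (1 - (1 + η) / (s : ℝ)) with hQ
  have hE := hEL R W b t η hR ht0 h0.le (by linarith) htb hW
  have hP := Pr_le_of_sum (R := R) (fun s hs => le_trans (by norm_num) (hR s hs))
    (fun a => ((surv R a W).card : ℝ) ≤ K) (fun a => Real.exp (-(t * ((surv R a W).card : ℝ))))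
    (Real.exp (-(t * K))) (Real.exp (-(t * W.card * Q))) (Real.exp_pos _) (fun a => (Real.exp_pos _).le)
    (fun a _ ha => by
      apply Real.exp_le_exp.mpr
      have : t * ((surv R a W).card : ℝ) ≤ t * K := mul_le_mul_of_nonneg_left ha ht0
      linarith) hE
  refine hP.trans ?_
  rw [← Real.exp_sub]
  apply Real.exp_le_exp.mpr
  have hQV : VV R * Real.exp (-(4 * η * SS R)) ≤ Q := by
    have h2 : VV R * Real.exp (-(4 * η * SS R)) =
        ∏ s ∈ R, ((1 - 1 / (s : ℝ)) * Real.exp (-(4 * η / s))) := by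
      rw [prod_mul_distrib, ← Real.exp_sum]
      unfold VV SS
      congr 2
      rw [mul_sum, ← sum_neg_distrib]
      refine sum_congr rfl (fun s _ => ?_)
      ring
    rw [h2, hQ]
    refine prod_le_prod (fun s hs => ?_) (fun s hs => ?_)
    · have hs2 : (2 : ℝ) ≤ s := by exact_mod_cast hR s hs
      apply mul_nonneg _ (Real.exp_pos _).le
      rw [sub_nonneg, div_le_one (by linarith)]
      linarith
    · have hs2 : (2 : ℝ) ≤ s := by exact_mod_cast hR s hs
      exact (fac_TL hs2 h0.le h1).2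
  have h3 : t * (W.card : ℝ) * (VV R * Real.exp (-(4 * η * SS R))) ≤ t * W.card * Q :=
    mul_le_mul_of_nonneg_left hQV (mul_nonneg ht0 (Nat.cast_nonneg _))
  nlinarith [h3]

end Pool.Agent.Helper69.RM
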